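import Pool.Agent.H99.NR.Defs
import Pool.Agent.H97.ICA.Mxp
import Pool.Agent.H97.ICA.Exa

/-!
[H99 NR Nva] Module of THEOREM NR (MP_8e9775_nt, think 1126 of helper99).

PROOF. v = the first index with a v ≠ 0 (v >= 1). a' = a with a v replaced by 0 has order >= v+1: mxp exa at
height 1: norm (Fn a z - a v exp (2 pi i v z)) <= B exp (-2 pi (im z - 1)(v+1)) for im z >= 1. So for
z = i y, y to infinity: Fn a (m z) exp (2 pi m v y) tends to a v and Fn a (2mz) exp (4 pi m v y) tends
to a v. Let j0 be the largest j with p j ≠ 0. The sum times exp (2 pi m v y (2D - j0)) tends to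
p j0 (a v)^D ≠ 0 (the terms j < j0 get the factor exp (-2 pi m v y (j0 - j))). So it is not
zero for some y.
-/

namespace Pool.Agent.H99.NR

open Complex NumberField Pool.Agent.H97.ICA

noncomputable section

private theorem nva_lim (a : ℕ → ℂ) (ha : Cv a) (v : ℕ) (hv : ∀ j < v, a j = 0) :
    Filter.Tendsto (fun y : ℝ => Fn a (y * Complex.I) * Complex.exp ((2 * Real.pi * v * y : ℝ)))
      Filter.atTop (nhds (a v)) := by
  have hpi := Real.pi_pos
  have hterm : ∀ (y : ℝ) (n : ℕ),
      a n * Complex.exp (2 * Real.pi * Complex.I * n * (y * Complex.I)) *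
        Complex.exp ((2 * Real.pi * v * y : ℝ)) =
      a n * ((Real.exp (-(2 * Real.pi * ((n : ℝ) - v) * y)) : ℝ) : ℂ) := by
    intro y n
    rw [mul_assoc, ← Complex.exp_add, Complex.ofReal_exp]
    congr 2
    push_cast
    linear_combination (2 * (Real.pi : ℂ) * n * y) * Complex.I_mul_I
  have heq : ∀ y : ℝ, Fn a (y * Complex.I) * Complex.exp ((2 * Real.pi * v * y : ℝ)) =
      ∑' n : ℕ, a n * ((Real.exp (-(2 * Real.pi * ((n : ℝ) - v) * y)) : ℝ) : ℂ) := by
    intro y
    unfold Fn
    rw [← tsum_mul_right]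
    exact tsum_congr fun n => hterm y n
  have hsum : Summable fun n : ℕ => ‖a n‖ * Real.exp (-(2 * Real.pi * ((n : ℝ) - v))) := by
    have h1 : Real.exp (-(2 * Real.pi)) < 1 := by
      rw [Real.exp_lt_one_iff]
      linarith
    have h2 := (ha _ (Real.exp_pos _).le h1).mul_right (Real.exp (2 * Real.pi * v))
    refine h2.congr fun n => ?_
    rw [mul_assoc, ← Real.exp_nat_mul, ← Real.exp_add]
    congr 2
    ring
  have h := tendsto_tsum_of_dominated_convergence (𝓕 := Filter.atTop)
    (f := fun (y : ℝ) (n : ℕ) => a n * ((Real.exp (-(2 * Real.pi * ((n : ℝ) - v) * y)) : ℝ) : ℂ))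
    (g := fun n => if n = v then a v else 0) hsum ?_ ?_
  · rw [tsum_ite_eq] at h
    exact h.congr fun y => (heq y).symm
  · intro n
    rcases lt_trichotomy n v with h | h | h
    · rw [if_neg h.ne, hv n h]
      simp
    · subst h
      simp
    · rw [if_neg h.ne']
      have h1 : Filter.Tendsto (fun y : ℝ => Real.exp (-(2 * Real.pi * ((n : ℝ) - v) * y)))
          Filter.atTop (nhds 0) := by
        apply Real.tendsto_exp_neg_atTop_nhds_zero.comp
        apply Filter.Tendsto.const_mul_atTop _ Filter.tendsto_id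
        have : (v : ℝ) < n := by exact_mod_cast h
        have : 0 < (n : ℝ) - v := by linarith
        positivity
      have h2 := (Complex.continuous_ofReal.tendsto _).comp h1
      have h3 := h2.const_mul (a n)
      simpa using h3
  · filter_upwards [Filter.eventually_ge_atTop (1 : ℝ)] with y hy n
    rw [norm_mul, Complex.norm_real, Real.norm_of_nonneg (Real.exp_pos _).le]
    by_cases h : n < v
    · rw [hv n h]
      simp
    · refine mul_le_mul_of_nonneg_left (Real.exp_le_exp.2 ?_) (norm_nonneg _)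
      have h1 : (v : ℝ) ≤ n := by exact_mod_cast not_lt.1 h
      have h2 : 0 ≤ 2 * Real.pi * ((n : ℝ) - v) := by
        have : 0 ≤ (n : ℝ) - v := by linarith
        positivity
      nlinarith

theorem nva : NvaStmt := by
  classical
  intro a ha ha0 hane m T D hm hTD p hp
  have hpi := Real.pi_pos
  -- the first nonzero index
  have hex : ∃ n, a n ≠ 0 := by
    by_contra hcon
    push Not at hcon
    exact hane (funext hcon)
  obtain ⟨v, hv⟩ : ∃ v, v = Nat.find hex := ⟨_, rfl⟩
  have hav : a v ≠ 0 := by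
    rw [hv]
    exact Nat.find_spec hex
  have hmin : ∀ j < v, a j = 0 := by
    intro j hj
    rw [hv] at hj
    exact not_not.1 (Nat.find_min hex hj)
  have hv1 : 1 ≤ v := by
    rcases Nat.eq_zero_or_pos v with h | h
    · rw [h] at hav
      exact absurd ha0 hav
    · exact h
  -- the largest index with nonzero coefficient
  have hpex : (Finset.univ.filter fun j => p j ≠ 0).Nonempty := by
    by_contra hcon
    rw [Finset.not_nonempty_iff_eq_empty, Finset.filter_eq_empty_iff] at hcon
    apply hp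
    funext j
    exact not_not.1 (hcon (Finset.mem_univ j))
  obtain ⟨j0, hj0, hj0max⟩ := Finset.exists_max_image _ (fun j : Fin (T + 1) => (j : ℕ)) hpex
  have hpj0 : p j0 ≠ 0 := (Finset.mem_filter.1 hj0).2
  have hpz : ∀ j : Fin (T + 1), (j0 : ℕ) < (j : ℕ) → p j = 0 := by
    intro j hj
    by_contra hcon
    have := hj0max j (Finset.mem_filter.2 ⟨Finset.mem_univ j, hcon⟩)
    omega
  by_contra hcon
  push Not at hcon
  set c : ℂ := a v with hc
  set t : ℝ → ℂ := fun y => Complex.exp (((-(2 * Real.pi * v * (m * y)) : ℝ)) : ℂ) with ht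
  set u : ℝ → ℂ := fun y => Fn a (((m * y : ℝ) : ℂ) * Complex.I) *
    Complex.exp ((2 * Real.pi * v * (m * y) : ℝ)) with hu
  set w : ℝ → ℂ := fun y => Fn a (((2 * m * y : ℝ) : ℂ) * Complex.I) *
    Complex.exp ((2 * Real.pi * v * (2 * m * y) : ℝ)) with hw
  have hm0 : (0 : ℝ) < m := by exact_mod_cast hm
  have hv0 : (0 : ℝ) < v := by exact_mod_cast hv1
  have hu_lim : Filter.Tendsto u Filter.atTop (nhds c) := by
    have h1 : Filter.Tendsto (fun y : ℝ => (m : ℝ) * y) Filter.atTop Filter.atTop :=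
      Filter.Tendsto.const_mul_atTop hm0 Filter.tendsto_id
    exact (nva_lim a ha v hmin).comp h1
  have hw_lim : Filter.Tendsto w Filter.atTop (nhds c) := by
    have h1 : Filter.Tendsto (fun y : ℝ => (2 * m : ℝ) * y) Filter.atTop Filter.atTop :=
      Filter.Tendsto.const_mul_atTop (by positivity) Filter.tendsto_id
    exact (nva_lim a ha v hmin).comp h1
  have ht_lim : Filter.Tendsto t Filter.atTop (nhds 0) := by
    have h1 : Filter.Tendsto (fun y : ℝ => 2 * Real.pi * v * (m * y)) Filter.atTop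
        Filter.atTop := by
      apply Filter.Tendsto.const_mul_atTop (by positivity)
      exact Filter.Tendsto.const_mul_atTop hm0 Filter.tendsto_id
    have h2 := Real.tendsto_exp_neg_atTop_nhds_zero.comp h1
    have h3 := (Complex.continuous_ofReal.tendsto _).comp h2
    rw [Complex.ofReal_zero] at h3
    refine h3.congr fun y => ?_
    simp only [Function.comp, ht, Complex.ofReal_exp]
  -- the factorization
  have hFu : ∀ y : ℝ, Fn a (m * ((y : ℂ) * Complex.I)) = t y * u y := by
    intro y
    have h1 : ((m : ℂ) * ((y : ℂ) * Complex.I)) = ((m * y : ℝ) : ℂ) * Complex.I := by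
      push_cast
      ring
    rw [h1]
    simp only [ht, hu]
    rw [mul_left_comm, ← Complex.exp_add, ← Complex.ofReal_add, neg_add_cancel,
      Complex.ofReal_zero, Complex.exp_zero, mul_one]
  have hFw : ∀ y : ℝ, Fn a (2 * m * ((y : ℂ) * Complex.I)) = t y ^ 2 * w y := by
    intro y
    have h1 : ((2 : ℂ) * (m : ℂ) * ((y : ℂ) * Complex.I)) =
        ((2 * m * y : ℝ) : ℂ) * Complex.I := by
      push_cast
      ring
    rw [h1]
    simp only [ht, hw]
    rw [mul_left_comm, ← Complex.exp_nat_mul, ← Complex.exp_add]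
    have h2 : (((2 : ℕ) : ℂ) * ((-(2 * Real.pi * v * (m * y)) : ℝ) : ℂ) +
        ((2 * Real.pi * v * (2 * m * y) : ℝ) : ℂ)) = 0 := by
      push_cast
      ring
    rw [h2, Complex.exp_zero, mul_one]
  set G : ℝ → ℂ := fun y => ∑ j : Fin (T + 1), p j *
    (t y ^ ((j0 : ℕ) - (j : ℕ)) * (u y ^ (j : ℕ) * w y ^ (D - (j : ℕ)))) with hG
  have hGz : ∀ y : ℝ, 0 < y → G y = 0 := by
    intro y hy
    have h1 := hcon ((y : ℂ) * Complex.I) (by simpa using hy)
    have h2 : ∑ j : Fin (T + 1), p j * (Fn a (m * ((y : ℂ) * Complex.I)) ^ (j : ℕ) *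
        Fn a (2 * m * ((y : ℂ) * Complex.I)) ^ (D - (j : ℕ))) =
        t y ^ (2 * D - (j0 : ℕ)) * G y := by
      rw [hG]
      simp only
      rw [Finset.mul_sum]
      refine Finset.sum_congr rfl fun j _ => ?_
      by_cases hj : (j0 : ℕ) < (j : ℕ)
      · rw [hpz j hj]
        ring
      · have hj' : (j : ℕ) ≤ (j0 : ℕ) := not_lt.1 hj
        have hj0T : (j0 : ℕ) ≤ T := Nat.lt_succ_iff.1 j0.2
        rw [hFu, hFw, mul_pow (t y) (u y) (j : ℕ), mul_pow (t y ^ 2) (w y) (D - (j : ℕ)),
          ← pow_mul (t y) 2 (D - (j : ℕ))]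
        have h3 : t y ^ (j : ℕ) * t y ^ (2 * (D - (j : ℕ))) =
            t y ^ (2 * D - (j0 : ℕ)) * t y ^ ((j0 : ℕ) - (j : ℕ)) := by
          rw [← pow_add, ← pow_add]
          congr 1
          omega
        calc p j * (t y ^ (j : ℕ) * u y ^ (j : ℕ) *
              (t y ^ (2 * (D - (j : ℕ))) * w y ^ (D - (j : ℕ))))
            = p j * (t y ^ (j : ℕ) * t y ^ (2 * (D - (j : ℕ)))) *
              (u y ^ (j : ℕ) * w y ^ (D - (j : ℕ))) := by ring
          _ = _ := by
              rw [h3]
              ring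
    rw [h2] at h1
    rcases mul_eq_zero.1 h1 with h | h
    · exact absurd h (pow_ne_zero _ (Complex.exp_ne_zero _))
    · exact h
  have hGlim : Filter.Tendsto G Filter.atTop (nhds (∑ j : Fin (T + 1), p j *
      ((0 : ℂ) ^ ((j0 : ℕ) - (j : ℕ)) * (c ^ (j : ℕ) * c ^ (D - (j : ℕ)))))) := by
    rw [hG]
    refine tendsto_finsetSum _ fun j _ => ?_
    exact ((ht_lim.pow _).mul ((hu_lim.pow _).mul (hw_lim.pow _))).const_mul _
  have hGlim0 : Filter.Tendsto G Filter.atTop (nhds 0) := by
    refine tendsto_const_nhds.congr' ?_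
    filter_upwards [Filter.eventually_gt_atTop (0 : ℝ)] with y hy
    exact (hGz y hy).symm
  have heq := tendsto_nhds_unique hGlim hGlim0
  rw [Finset.sum_eq_single j0] at heq
  · rw [Nat.sub_self, pow_zero, one_mul] at heq
    rcases mul_eq_zero.1 heq with h | h
    · exact hpj0 h
    · rcases mul_eq_zero.1 h with h | h
      · exact pow_ne_zero _ hav h
      · exact pow_ne_zero _ hav h
  · intro j _ hj
    by_cases hj' : (j0 : ℕ) < (j : ℕ)
    · rw [hpz j hj', zero_mul]
    · have h1 : (j0 : ℕ) - (j : ℕ) ≠ 0 := by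
        have : (j : ℕ) ≠ (j0 : ℕ) := fun h => hj (Fin.ext h)
        omega
      rw [zero_pow h1, zero_mul, mul_zero]
  · intro h
    exact absurd (Finset.mem_univ _) h

end

end Pool.Agent.H99.NR
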