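import Pool.Agent.H99.NR.Ctr
import Pool.Agent.H99.NR.Nva
import Pool.Agent.H97.ICA.Exa

/-!
[H99 NR Cus] Module of THEOREM NR (MP_8e9775_nt, think 1126 of helper99).

PROOF. f = Fn a, M = 2mN, ρ = r/m. Inv k f 0 N gives Inv k f 0 (j N) for natural j by induction (w to
w/(N w + 1)). F j w = ((M j w + 1)^k)⁻¹ f(ρ + w/(M j w + 1)), j = 0..T (im of w/(cw+1) > 0 for real c;
differentiable: Fn a is differentiable on the half plane, differentiableOn_tsum_of_summable_norm as in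
H97/ICA/Mxp.lean or Stc.lean, or copy H13/IC ev_diff). For z = ρ + w/(Mjw+1): f(mz) = f(mw/(Mjw+1)) by
period 1 (r an integer) = f(W/(N (2j) W + 1)) with W = mw, so = (Mjw+1)^k f(mw); f(2mz) = f(W'/(N j W' + 1)),
W' = 2mw, so = (Mjw+1)^k f(2mw); f(z) = (Mjw+1)^k F j w. PP T p is homogeneous (pol.2.1), so
eval ![F j w, f(mw), f(2mw)] (PP T p) = 0, that is sum over i of c i w (F j w)^i = 0 with
c i w = sum over j' of p (i, j') f(mw)^j' f(2mw)^(2T-i-j'). Some c i is not identically zero: nva with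
D = 2T - i, p (i, .) ≠ 0. ctr: F i = F j for some i < j <= T. Apply at w' = w/(1 - M i w): with
x = M (j - i) > 0, x <= M T: f(ρ + w/(x w + 1)) = (x w + 1)^k f(ρ + w).
-/

namespace Pool.Agent.H99.NR

open Complex NumberField Pool.Agent.H97.ICA

noncomputable section

private theorem cus_ev (T : ℕ) (p : Fin (T + 1) × Fin (T + 1) → ℂ) (x0 x1 x2 : ℂ) :
    MvPolynomial.eval ![x0, x1, x2] (PP T p) =
      ∑ l : Fin (T + 1) × Fin (T + 1), p l *
        (x0 ^ (l.1 : ℕ) * x1 ^ (l.2 : ℕ) * x2 ^ (2 * T - (l.1 : ℕ) - (l.2 : ℕ))) := by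
  unfold PP
  simp [map_sum]

private theorem cus_ne (c : ℝ) {w : ℂ} (hw : 0 < w.im) : (c : ℂ) * w + 1 ≠ 0 := by
  intro h
  have h1 := congrArg Complex.im h
  simp at h1
  rcases h1 with h1 | h1
  · rw [h1] at h
    simp at h
  · exact hw.ne' h1

private theorem cus_im (c : ℝ) {w : ℂ} (hw : 0 < w.im) : 0 < (w / ((c : ℂ) * w + 1)).im := by
  have h0 := cus_ne c hw
  have h1 : 0 < Complex.normSq ((c : ℂ) * w + 1) := Complex.normSq_pos.2 h0
  have h2 : (w / ((c : ℂ) * w + 1)).im = w.im / Complex.normSq ((c : ℂ) * w + 1) := by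
    rw [Complex.div_im]
    simp only [Complex.add_re, Complex.mul_re, Complex.ofReal_re, Complex.ofReal_im, zero_mul,
      sub_zero, Complex.one_re, Complex.add_im, Complex.mul_im, Complex.one_im, add_zero]
    rw [← sub_div]
    congr 1
    ring
  rw [h2]
  exact div_pos hw h1

private theorem cus_inv {k : ℕ} {f : ℂ → ℂ} {N : ℝ} (h : Inv k f 0 N) (j : ℕ) :
    Inv k f 0 ((j : ℝ) * N) := by
  induction j with
  | zero =>
    intro w hw
    simp
  | succ j ih =>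
    intro w hw
    have h1 := ih w hw
    have hq : (((((j : ℝ) * N) : ℝ) : ℂ) * w + 1) ≠ 0 := cus_ne _ hw
    have hq2 : ((((((j + 1 : ℕ) : ℝ) * N) : ℝ) : ℂ) * w + 1) ≠ 0 := cus_ne _ hw
    have h2 := h (w / ((((j : ℝ) * N : ℝ) : ℂ) * w + 1)) (cus_im _ hw)
    have e1 : (N : ℂ) * (w / ((((j : ℝ) * N : ℝ) : ℂ) * w + 1)) + 1 =
        ((((((j + 1 : ℕ) : ℝ) * N) : ℝ) : ℂ) * w + 1) / ((((j : ℝ) * N : ℝ) : ℂ) * w + 1) := by
      rw [eq_div_iff hq, add_mul, mul_assoc, div_mul_cancel₀ _ hq]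
      push_cast
      ring
    rw [e1] at h2
    have e2 : w / ((((j : ℝ) * N : ℝ) : ℂ) * w + 1) /
        (((((((j + 1 : ℕ) : ℝ) * N) : ℝ) : ℂ) * w + 1) / ((((j : ℝ) * N : ℝ) : ℂ) * w + 1)) =
        w / ((((((j + 1 : ℕ) : ℝ) * N) : ℝ) : ℂ) * w + 1) := by
      rw [div_div_div_cancel_right₀ hq]
    rw [e2, h1, ← mul_assoc, ← mul_pow, div_mul_cancel₀ _ hq] at h2
    exact h2

private theorem cus_diff (a : ℕ → ℂ) (ha : Cv a) :
    DifferentiableOn ℂ (Fn a) {z | 0 < z.im} := by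
  intro z0 hz0
  have hz0' : 0 < z0.im := hz0
  have hy : 0 < z0.im / 2 := by linarith
  have hpi := Real.pi_pos
  have hr1 : Real.exp (-(2 * Real.pi * (z0.im / 2))) < 1 := by
    rw [Real.exp_lt_one_iff]
    have : 0 < 2 * Real.pi * (z0.im / 2) := by positivity
    linarith
  have hsum := ha _ (Real.exp_pos _).le hr1
  have hop : IsOpen {z : ℂ | z0.im / 2 < z.im} := isOpen_lt continuous_const Complex.continuous_im
  have h1 : DifferentiableOn ℂ (Fn a) {z : ℂ | z0.im / 2 < z.im} := by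
    unfold Fn
    refine differentiableOn_tsum_of_summable_norm hsum (fun n => ?_) hop (fun n w hw => ?_)
    · exact (Differentiable.differentiableOn (by fun_prop))
    · rw [norm_mul, Complex.norm_exp, ← Real.exp_nat_mul]
      refine mul_le_mul_of_nonneg_left (Real.exp_le_exp.2 ?_) (norm_nonneg _)
      have hw' : z0.im / 2 < w.im := hw
      have e : (2 * Real.pi * Complex.I * n * w : ℂ).re = -(2 * Real.pi * w.im * n) := by
        have h : (2 * Real.pi * Complex.I * n * w : ℂ) =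
            ((2 * Real.pi * n : ℝ) : ℂ) * (Complex.I * w) := by
          push_cast
          ring
        rw [h, Complex.re_ofReal_mul, Complex.I_mul_re]
        ring
      rw [e]
      have h2 : 2 * Real.pi * (z0.im / 2) * n ≤ 2 * Real.pi * w.im * n := by
        gcongr
      linarith
  have hm : z0 ∈ {z : ℂ | z0.im / 2 < z.im} := by
    show z0.im / 2 < z0.im
    linarith
  exact ((h1 z0 hm).differentiableAt (hop.mem_nhds hm)).differentiableWithinAt

private theorem cus_per (h : ℕ → ℂ) (hc : Cv h) (z : ℂ) (hz : 0 < z.im) (k : ℤ) :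
    Fn h (z + k) = Fn h z := by
  have hp : ∀ w : ℂ, 0 < w.im → Fn h (w + 1) = Fn h w := fun w hw =>
    (exa h hc w w.im hw le_rfl).2.2
  induction k using Int.induction_on with
  | zero => simp
  | succ i ih =>
    have : z + ((i : ℤ) + 1 : ℤ) = (z + (i : ℤ)) + 1 := by push_cast; ring
    rw [this, hp _ (by simpa using hz), ih]
  | pred i ih =>
    have : z + ((-(i : ℤ)) : ℤ) = (z + ((-(i : ℤ) - 1 : ℤ) : ℂ)) + 1 := by push_cast; ring
    rw [this, hp _ (by simpa using hz)] at ih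
    exact ih

private theorem cus_hom (T : ℕ) (p : Fin (T + 1) × Fin (T + 1) → ℂ) (q x0 x1 x2 : ℂ) :
    ∑ l : Fin (T + 1) × Fin (T + 1), p l *
        ((q * x0) ^ (l.1 : ℕ) * (q * x1) ^ (l.2 : ℕ) *
          (q * x2) ^ (2 * T - (l.1 : ℕ) - (l.2 : ℕ))) =
      q ^ (2 * T) * ∑ i : Fin (T + 1), (∑ j : Fin (T + 1), p (i, j) *
        (x1 ^ (j : ℕ) * x2 ^ (2 * T - (i : ℕ) - (j : ℕ)))) * x0 ^ (i : ℕ) := by
  rw [Fintype.sum_prod_type, Finset.mul_sum]
  refine Finset.sum_congr rfl fun i _ => ?_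
  rw [Finset.sum_mul, Finset.mul_sum]
  refine Finset.sum_congr rfl fun j _ => ?_
  have hi := i.2
  have hj := j.2
  have e : q ^ (2 * T) = q ^ (i : ℕ) * q ^ (j : ℕ) * q ^ (2 * T - (i : ℕ) - (j : ℕ)) := by
    rw [← pow_add, ← pow_add]
    congr 1
    omega
  rw [e, mul_pow, mul_pow, mul_pow]
  ring

theorem cus : CusStmt := by
  intro k N a hN ha ha0 hane hinv m T hm p hp hrel r
  have hm0 : (0 : ℝ) < m := by exact_mod_cast hm
  have hmc : (m : ℂ) ≠ 0 := by
    have : m ≠ 0 := by omega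
    exact_mod_cast this
  have hdf := cus_diff a ha
  -- the functions
  have hM : ∀ j : ℕ, ∃ c : ℝ, c = 2 * m * N * j := fun j => ⟨_, rfl⟩
  set F : Fin (T + 1) → ℂ → ℂ := fun j w =>
    (((((2 * m * N * (j : ℕ) : ℝ)) : ℂ) * w + 1) ^ k)⁻¹ *
      Fn a ((((r : ℝ) / m : ℝ) : ℂ) + w / (((2 * m * N * (j : ℕ) : ℝ) : ℂ) * w + 1)) with hF
  set c : Fin (T + 1) → ℂ → ℂ := fun i w =>
    ∑ j : Fin (T + 1), p (i, j) * (Fn a (m * w) ^ (j : ℕ) *
      Fn a (2 * m * w) ^ (2 * T - (i : ℕ) - (j : ℕ))) with hc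
  have hmw : ∀ w : ℂ, 0 < w.im → 0 < ((m : ℂ) * w).im := by
    intro w hw
    have : ((m : ℂ) * w).im = m * w.im := by simp
    rw [this]
    positivity
  have h2mw : ∀ w : ℂ, 0 < w.im → 0 < (2 * (m : ℂ) * w).im := by
    intro w hw
    have : (2 * (m : ℂ) * w).im = 2 * m * w.im := by simp
    rw [this]
    positivity
  have hd1 : DifferentiableOn ℂ (fun w : ℂ => Fn a (m * w)) {z | 0 < z.im} := by
    refine hdf.comp (Differentiable.differentiableOn (by fun_prop)) ?_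
    intro w hw
    exact hmw w hw
  have hd2 : DifferentiableOn ℂ (fun w : ℂ => Fn a (2 * m * w)) {z | 0 < z.im} := by
    refine hdf.comp (Differentiable.differentiableOn (by fun_prop)) ?_
    intro w hw
    exact h2mw w hw
  have hcd : ∀ i, DifferentiableOn ℂ (c i) {z | 0 < z.im} := by
    intro i
    rw [hc]
    refine DifferentiableOn.fun_sum fun j _ => ?_
    exact ((hd1.pow _).mul (hd2.pow _)).const_mul _
  have hFd : ∀ j, DifferentiableOn ℂ (F j) {z | 0 < z.im} := by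
    intro j
    have hq : DifferentiableOn ℂ (fun w : ℂ => (((2 * m * N * (j : ℕ) : ℝ)) : ℂ) * w + 1)
        {z | 0 < z.im} := Differentiable.differentiableOn (by fun_prop)
    have hq0 : ∀ w ∈ {z : ℂ | 0 < z.im}, (((2 * m * N * (j : ℕ) : ℝ)) : ℂ) * w + 1 ≠ 0 :=
      fun w hw => cus_ne _ hw
    have h1 : DifferentiableOn ℂ (fun w : ℂ => (((((2 * m * N * (j : ℕ) : ℝ)) : ℂ) * w + 1) ^ k)⁻¹)
        {z | 0 < z.im} := (hq.pow k).inv fun w hw => pow_ne_zero _ (hq0 w hw)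
    have h2 : DifferentiableOn ℂ (fun w : ℂ => (((r : ℝ) / m : ℝ) : ℂ) +
        w / (((2 * m * N * (j : ℕ) : ℝ) : ℂ) * w + 1)) {z | 0 < z.im} :=
      (differentiableOn_id.div hq hq0).const_add _
    have h3 : DifferentiableOn ℂ (fun w : ℂ => Fn a ((((r : ℝ) / m : ℝ) : ℂ) +
        w / (((2 * m * N * (j : ℕ) : ℝ) : ℂ) * w + 1))) {z | 0 < z.im} := by
      refine hdf.comp h2 ?_
      intro w hw
      show 0 < ((((r : ℝ) / m : ℝ) : ℂ) + w / (((2 * m * N * (j : ℕ) : ℝ) : ℂ) * w + 1)).im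
      rw [Complex.add_im, Complex.ofReal_im, zero_add]
      exact cus_im _ hw
    exact h1.mul h3
  have hcn : ∃ i, ∃ z : ℂ, 0 < z.im ∧ c i z ≠ 0 := by
    obtain ⟨l, hl⟩ := Function.ne_iff.1 hp
    obtain ⟨i, j⟩ := l
    have hi := i.2
    have hpi : (fun j => p (i, j)) ≠ 0 := by
      intro h
      exact hl (congrFun h j)
    obtain ⟨z, hz, hz2⟩ := nva a ha ha0 hane m T (2 * T - (i : ℕ)) hm (by omega) _ hpi
    exact ⟨i, z, hz, hz2⟩
  have hroot : ∀ j, ∀ z : ℂ, 0 < z.im → ∑ i : Fin (T + 1), c i z * F j z ^ (i : ℕ) = 0 := by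
    intro j w hw
    set q : ℂ := (((2 * m * N * (j : ℕ) : ℝ)) : ℂ) * w + 1 with hq
    have hq0 : q ≠ 0 := cus_ne _ hw
    have him : 0 < (w / q).im := cus_im _ hw
    set z : ℂ := (((r : ℝ) / m : ℝ) : ℂ) + w / q with hz
    have hzim : 0 < z.im := by
      rw [hz, Complex.add_im, Complex.ofReal_im, zero_add]
      exact him
    have h1 := hrel z hzim
    rw [cus_ev] at h1
    have e0 : Fn a z = q ^ k * F j w := by
      show Fn a z = q ^ k * ((q ^ k)⁻¹ * Fn a z)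
      rw [← mul_assoc, mul_inv_cancel₀ (pow_ne_zero _ hq0), one_mul]
    have hmr : (m : ℂ) * (((r : ℝ) / m : ℝ) : ℂ) = (r : ℂ) := by
      push_cast
      rw [mul_div_cancel₀ _ hmc]
    have e1 : Fn a (m * z) = q ^ k * Fn a (m * w) := by
      have h2 := cus_inv hinv (2 * (j : ℕ)) (m * w) (hmw w hw)
      have h3 : (((((2 * (j : ℕ) : ℕ) : ℝ) * N : ℝ)) : ℂ) * (m * w) + 1 = q := by
        rw [hq]
        push_cast
        ring
      rw [h3, Complex.ofReal_zero, zero_add, zero_add] at h2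
      rw [← h2, hz, mul_add, hmr, add_comm, mul_div_assoc]
      refine cus_per a ha _ ?_ r
      exact hmw _ him
    have e2 : Fn a (2 * m * z) = q ^ k * Fn a (2 * m * w) := by
      have h2 := cus_inv hinv (j : ℕ) (2 * m * w) (h2mw w hw)
      have h3 : ((((j : ℕ) : ℝ) * N : ℝ) : ℂ) * (2 * m * w) + 1 = q := by
        rw [hq]
        push_cast
        ring
      rw [h3, Complex.ofReal_zero, zero_add, zero_add] at h2
      have h4 : 2 * (m : ℂ) * z = 2 * m * (w / q) + ((2 * r : ℤ) : ℂ) := by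
        rw [hz, mul_add, mul_assoc 2 (m : ℂ) _, hmr]
        push_cast
        ring
      rw [← h2, h4, mul_div_assoc]
      refine cus_per a ha _ ?_ (2 * r)
      exact h2mw _ him
    rw [e0, e1, e2, cus_hom] at h1
    rcases mul_eq_zero.1 h1 with h2 | h2
    · exact absurd h2 (pow_ne_zero _ (pow_ne_zero _ hq0))
    · exact h2
  obtain ⟨i, j, hij, hFij⟩ := ctr T c F hcd hFd hcn hroot
  have hij' : (i : ℕ) < (j : ℕ) := hij
  have hijr : ((i : ℕ) : ℝ) < ((j : ℕ) : ℝ) := by exact_mod_cast hij'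
  have hjT : ((j : ℕ) : ℝ) ≤ T := by
    have := j.2
    exact_mod_cast (by omega : (j : ℕ) ≤ T)
  refine ⟨2 * m * N * ((j : ℕ) - (i : ℕ)), ?_, ?_, ?_⟩
  · have : (0 : ℝ) < ((j : ℕ) : ℝ) - ((i : ℕ) : ℝ) := by linarith
    positivity
  · have h1 : (0 : ℝ) ≤ 2 * m * N := by positivity
    have h2 : ((j : ℕ) : ℝ) - ((i : ℕ) : ℝ) ≤ T := by
      have : (0 : ℝ) ≤ ((i : ℕ) : ℝ) := Nat.cast_nonneg _
      linarith
    exact mul_le_mul_of_nonneg_left h2 h1
  · intro w hw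
    set s : ℂ := (((-(2 * m * N * (i : ℕ)) : ℝ)) : ℂ) * w + 1 with hs
    have hs0 : s ≠ 0 := cus_ne _ hw
    have hw' : 0 < (w / s).im := cus_im _ hw
    set x : ℂ := (((2 * m * N * ((j : ℕ) - (i : ℕ)) : ℝ)) : ℂ) * w + 1 with hx
    have hx0 : x ≠ 0 := cus_ne _ hw
    have h1 := hFij (w / s) hw'
    have e1 : (((2 * m * N * (i : ℕ) : ℝ)) : ℂ) * (w / s) + 1 = 1 / s := by
      rw [eq_div_iff hs0, add_mul, mul_assoc, div_mul_cancel₀ _ hs0, hs]
      push_cast
      ring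
    have e2 : (((2 * m * N * (j : ℕ) : ℝ)) : ℂ) * (w / s) + 1 = x / s := by
      rw [eq_div_iff hs0, add_mul, mul_assoc, div_mul_cancel₀ _ hs0, hs, hx]
      push_cast
      ring
    have h2 : ((1 / s) ^ k)⁻¹ * Fn a ((((r : ℝ) / m : ℝ) : ℂ) + w / s / (1 / s)) =
        ((x / s) ^ k)⁻¹ * Fn a ((((r : ℝ) / m : ℝ) : ℂ) + w / s / (x / s)) := by
      rw [← e1, ← e2]
      exact h1
    rw [div_div_div_cancel_right₀ hs0, div_div_div_cancel_right₀ hs0, div_one, one_div, inv_pow,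
      inv_inv, div_pow, inv_div] at h2
    have hsk : s ^ k ≠ 0 := pow_ne_zero _ hs0
    have hxk : x ^ k ≠ 0 := pow_ne_zero _ hx0
    rw [div_mul_eq_mul_div, eq_div_iff hxk] at h2
    have h3 : s ^ k * Fn a ((((r : ℝ) / m : ℝ) : ℂ) + w / x) =
        s ^ k * (x ^ k * Fn a ((((r : ℝ) / m : ℝ) : ℂ) + w)) := by
      rw [← h2]
      ring
    exact mul_left_cancel₀ hsk h3

end

end Pool.Agent.H99.NR
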