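import Pool.Agent.H99.NR.Defs
import Pool.Agent.H97.ICA.Exa

/-!
[H99 NR Dif] `Fn a` is holomorphic in the upper half plane.
-/

namespace Pool.Agent.H99.NR

open Complex NumberField Pool.Agent.H97.ICA

noncomputable section

theorem Fn_diff (a : ℕ → ℂ) (ha : Cv a) : DifferentiableOn ℂ (Fn a) {z | 0 < z.im} := by
  intro z hz
  have hz' : 0 < z.im := hz
  obtain ⟨y, hy0, hy1⟩ := exists_between hz'
  have hU : IsOpen {w : ℂ | y < w.im} := isOpen_lt continuous_const Complex.continuous_im
  have hs : Summable fun n : ℕ => ‖a n‖ * Real.exp (-(2 * Real.pi * y)) ^ n := by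
    refine ha _ (Real.exp_pos _).le ?_
    rw [Real.exp_lt_one_iff]
    have := Real.pi_pos
    have h2 : 0 < 2 * Real.pi * y := by positivity
    linarith
  have hd : DifferentiableOn ℂ (Fn a) {w : ℂ | y < w.im} := by
    unfold Fn
    refine differentiableOn_tsum_of_summable_norm hs ?_ hU ?_
    · intro n
      exact (Differentiable.differentiableOn (by fun_prop))
    · intro n w hw
      have hw' : y < w.im := hw
      rw [norm_mul, Complex.norm_exp]
      apply mul_le_mul_of_nonneg_left _ (norm_nonneg _)
      rw [← Real.exp_nat_mul]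
      apply Real.exp_le_exp.2
      have h1 : (2 * Real.pi * Complex.I * n * w : ℂ) =
          ((2 * Real.pi * n : ℝ) : ℂ) * (Complex.I * w) := by
        push_cast
        ring
      rw [h1, Complex.re_ofReal_mul, Complex.I_mul_re]
      have h3 : 0 ≤ 2 * Real.pi * (n : ℝ) := by
        have := Real.pi_pos
        positivity
      nlinarith [mul_le_mul_of_nonneg_left hw'.le h3]
  exact ((hd z hy1).differentiableAt (hU.mem_nhds hy1)).differentiableWithinAt

end

end Pool.Agent.H99.NR
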