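import Pool.Agent.H99.NR.Defs

/-!
[H99 NR Dio] Module of THEOREM NR (MP_8e9775_nt, think 1126 of helper99).

PROOF. Real.exists_int_int_abs_mul_sub_le (Dirichlet) with n = m1^3: k in [1, n], j with
|k xi - j| <= 1/(n+1), so |xi - j/k| <= 1/(k (n+1)). If k >= m1 take m = k, r = j. If k < m1 take
m = m1 k, r = m1 j: 1/(k (n+1)) <= 1/(m1 k)^2 because m1^2 k <= m1^3. r/m is rational, xi is not.
-/

namespace Pool.Agent.H99.NR

open Complex NumberField Pool.Agent.H97.ICA

noncomputable section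

private theorem key {xi : ℝ} {j : ℤ} {K n : ℕ} (hK : 0 < K) (h : |(K : ℝ) * xi - j| ≤ 1 / ((n : ℝ) + 1)) :
    |(j : ℝ) / K - xi| ≤ 1 / ((n : ℝ) + 1) / K := by
  have hK' : (0 : ℝ) < K := by exact_mod_cast hK
  have h1 : (j : ℝ) / K - xi = -(((K : ℝ) * xi - j) / K) := by
    field_simp
    ring
  rw [h1, abs_neg, abs_div, abs_of_pos hK']
  exact div_le_div_of_nonneg_right h hK'.le

private theorem irr {xi : ℝ} (hxi : Irrational xi) (r : ℤ) (m : ℕ) : (r : ℝ) / m ≠ xi := by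
  intro h
  apply hxi
  refine ⟨(r : ℚ) / m, ?_⟩
  push_cast
  exact h

theorem dio : DioStmt := by
  intro xi hxi m1 hm1
  obtain ⟨j, k, hk, hkn, h⟩ := Real.exists_int_int_abs_mul_sub_le xi (n := m1 ^ 3) (by positivity)
  obtain ⟨K, rfl⟩ := Int.eq_ofNat_of_zero_le hk.le
  have hK0 : 0 < K := by exact_mod_cast hk
  have hKn : K ≤ m1 ^ 3 := by exact_mod_cast hkn
  rw [Int.cast_natCast] at h
  have h1 := key hK0 h
  have hK' : (0 : ℝ) < K := by exact_mod_cast hK0
  have hm' : (1 : ℝ) ≤ m1 := by exact_mod_cast hm1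
  by_cases hK : m1 ≤ K
  · refine ⟨K, j, hK, irr hxi j K, h1.trans ?_⟩
    rw [div_div]
    refine one_div_le_one_div_of_le (by positivity) ?_
    have h2 : (K : ℝ) ≤ ((m1 ^ 3 : ℕ) : ℝ) := by exact_mod_cast hKn
    nlinarith
  · refine ⟨m1 * K, m1 * j, ?_, irr hxi _ _, ?_⟩
    · exact Nat.le_mul_of_pos_right _ hK0
    · have h3 : (((m1 : ℤ) * j : ℤ) : ℝ) / ((m1 * K : ℕ) : ℝ) = (j : ℝ) / K := by
        push_cast
        rw [mul_div_mul_left _ _ (by positivity)]
      rw [h3]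
      refine h1.trans ?_
      rw [div_div]
      refine one_div_le_one_div_of_le (by positivity) ?_
      have h2 : (K : ℝ) ≤ m1 := by
        have : K ≤ m1 := by omega
        exact_mod_cast this
      push_cast
      have h4 : (m1 : ℝ) ^ 2 * K * K ≤ (m1 : ℝ) ^ 2 * m1 * K := by
        refine mul_le_mul_of_nonneg_right ?_ hK'.le
        exact mul_le_mul_of_nonneg_left h2 (by positivity)
      nlinarith

end

end Pool.Agent.H99.NR
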