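import Pool.Agent.H99.NR.Defs

/-!
[H99 NR Shb] Module of THEOREM NR (MP_8e9775_nt, think 1126 of helper99).

PROOF. Sequence: (a_0, b_0, c_0, d_0) = (a, b, c, d),
(a_(n+1), b_(n+1), c_(n+1), d_(n+1)) = (1 - a_n c_n, a_n^2, -c_n^2, 1 + a_n c_n) (= M_n T M_n^(-1)).
IM step: for v in the half plane put u = M_n^(-1) v = (d_n v - b_n)/(-c_n v + a_n), v = M_n u:
M_(n+1) v = M_n (u+1), G(M_n (u+1)) = (c_n (u+1) + d_n)^k G(u+1) = (c_n (u+1) + d_n)^k G(u),
G(v) = (c_n u + d_n)^k G(u), and -c_n^2 v + 1 + a_n c_n = (c_n u + d_n + c_n)/(c_n u + d_n).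
|c_n| <= |c|^(n+1) tends to 0, c_n ≠ 0; |a_n| <= max |a_0| (1/(1-|c|)) =: K bounded, so a_n tends to 1
(n >= 1: a_(n+1) - 1 = - a_n c_n). Fix u. Let (a,b,c,d) be the entries number n+2 and
t_n = (a u + b)/(c u + d) - 1 - u = ((a - d - c) u + (b - d) - c u^2)/(c u + d). With c_(n+1) = - c_n^2:
c u + d = 1 + O(c_n^2), a - d - c = O(c_n^2), c = O(c_n^4), b - d = a_(n+1)^2 - 1 - a_(n+1) c_(n+1) =
- a_n c_n (a_(n+1) + 1) + O(c_n^2): so t_n/c_n tends to -2, t_n tends to 0. By the periodicity and IM: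
G(u + t_n) = (c u + d)^k G u for n large (u + t_n has positive imaginary part: it is
M_(n+2) u - 1), so (G(u + t_n) - G u)/c_n tends to 0; and it is deriv G u * (t_n/c_n) + o(1), which
tends to -2 deriv G u (hasDerivAt_iff_isLittleO_nhds_zero or HasDerivAt.tendsto_slope).
-/

namespace Pool.Agent.H99.NR

open Complex NumberField Pool.Agent.H97.ICA Filter Topology

noncomputable section

/-- The denominators do not vanish on the half plane. -/
theorem shb_den {a b c d : ℝ} (hdet : a * d - b * c = 1) {u : ℂ} (hu : 0 < u.im) :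
    (c : ℂ) * u + d ≠ 0 := by
  intro h
  have h1 := congrArg Complex.im h
  have h2 := congrArg Complex.re h
  simp at h1 h2
  rcases h1 with h1 | h1
  · rw [h1] at h2 hdet
    simp at h2
    rw [h2] at hdet
    simp at hdet
  · exact absurd h1 hu.ne'

theorem shb_im {a b c d : ℝ} (hdet : a * d - b * c = 1) {u : ℂ} (hu : 0 < u.im) :
    0 < (((a : ℂ) * u + b) / ((c : ℂ) * u + d)).im := by
  have hd := shb_den hdet hu
  have hn : 0 < Complex.normSq ((c : ℂ) * u + d) := Complex.normSq_pos.mpr hd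
  rw [Complex.div_im]
  have e : (((a : ℂ) * u + b).im * ((c : ℂ) * u + d).re / Complex.normSq ((c : ℂ) * u + d) -
      ((a : ℂ) * u + b).re * ((c : ℂ) * u + d).im / Complex.normSq ((c : ℂ) * u + d)) =
      u.im / Complex.normSq ((c : ℂ) * u + d) := by
    rw [← sub_div]
    congr 1
    simp
    linear_combination u.im * hdet
  rw [e]
  positivity

/-- One step of the iteration. -/
theorem shb_step {k : ℕ} {G : ℂ → ℂ} {a b c d : ℝ}
    (hper : ∀ u : ℂ, 0 < u.im → G (u + 1) = G u) (h : IM k G a b c d) :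
    IM k G (1 - a * c) (a ^ 2) (-(c ^ 2)) (1 + a * c) := by
  obtain ⟨hdet, hG⟩ := h
  refine ⟨by ring, fun v hv => ?_⟩
  have hdet' : d * a - (-b) * (-c) = 1 := by linarith
  have hδ : ((-c : ℝ) : ℂ) * v + a ≠ 0 := shb_den hdet' hv
  have him := shb_im hdet' hv
  set u : ℂ := ((d : ℂ) * v + ((-b : ℝ) : ℂ)) / (((-c : ℝ) : ℂ) * v + a) with hu
  set δ : ℂ := ((-c : ℝ) : ℂ) * v + a with hδd
  have hdc : (a : ℂ) * d - b * c = 1 := by exact_mod_cast hdet
  have e1 : (c : ℂ) * u + d = 1 / δ := by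
    rw [hu, eq_div_iff hδ, add_mul, mul_assoc, div_mul_cancel₀ _ hδ, hδd]
    push_cast
    linear_combination hdc
  have e2 : (a : ℂ) * u + b = v / δ := by
    rw [hu, eq_div_iff hδ, add_mul, mul_assoc, div_mul_cancel₀ _ hδ, hδd]
    push_cast
    linear_combination v * hdc
  have e3 : ((a : ℂ) * u + b) / ((c : ℂ) * u + d) = v := by
    rw [e1, e2]
    field_simp
  have h1 := hG u him
  rw [e3, e1] at h1
  have h2 := hG (u + 1) (by simpa using him)
  rw [hper u him] at h2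
  have e4 : (c : ℂ) * (u + 1) + d = (1 + c * δ) / δ := by
    have : (c : ℂ) * (u + 1) + d = 1 / δ + c := by rw [← e1]; ring
    rw [this]
    field_simp
  have e5 : (a : ℂ) * (u + 1) + b = (v + a * δ) / δ := by
    have : (a : ℂ) * (u + 1) + b = v / δ + a := by rw [← e2]; ring
    rw [this]
    field_simp
  have e6 : ((a : ℂ) * (u + 1) + b) / ((c : ℂ) * (u + 1) + d) = (v + a * δ) / (1 + c * δ) := by
    rw [e4, e5, div_div_div_cancel_right₀ hδ]
  rw [e6, e4] at h2
  have e7 : (((1 - a * c : ℝ) : ℂ) * v + ((a ^ 2 : ℝ) : ℂ)) /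
      (((-(c ^ 2) : ℝ) : ℂ) * v + ((1 + a * c : ℝ) : ℂ)) = (v + a * δ) / (1 + c * δ) := by
    congr 1
    · rw [hδd]; push_cast; ring
    · rw [hδd]; push_cast; ring
  have e8 : ((-(c ^ 2) : ℝ) : ℂ) * v + ((1 + a * c : ℝ) : ℂ) = 1 + c * δ := by
    rw [hδd]; push_cast; ring
  rw [e7, e8, h2, h1, div_pow, div_pow, one_pow]
  field_simp

/-- The sequence of the pairs `(a_n, c_n)`. -/
def sbs (a c : ℝ) : ℕ → ℝ × ℝ
  | 0 => (a, c)
  | n + 1 => (1 - (sbs a c n).1 * (sbs a c n).2, -((sbs a c n).2 ^ 2))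

theorem sbs_IM {k : ℕ} {G : ℂ → ℂ} {a b c d : ℝ}
    (hper : ∀ u : ℂ, 0 < u.im → G (u + 1) = G u) (h : IM k G a b c d) (n : ℕ) :
    IM k G (1 - (sbs a c n).1 * (sbs a c n).2) ((sbs a c n).1 ^ 2) (-((sbs a c n).2 ^ 2))
      (1 + (sbs a c n).1 * (sbs a c n).2) := by
  induction n with
  | zero => exact shb_step hper h
  | succ n ih => exact shb_step hper ih

theorem sbs_c (a c : ℝ) (hc : |c| < 1) (n : ℕ) : |(sbs a c n).2| ≤ |c| ^ (n + 1) := by
  induction n with
  | zero => simp [sbs]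
  | succ n ih =>
    simp only [sbs, abs_neg, abs_pow]
    have h0 : 0 ≤ |c| := abs_nonneg c
    have h1 : |(sbs a c n).2| ≤ |c| := le_trans ih (by
      rw [pow_succ]
      exact mul_le_of_le_one_left h0 (pow_le_one₀ h0 hc.le))
    calc |(sbs a c n).2| ^ 2 = |(sbs a c n).2| * |(sbs a c n).2| := sq _
      _ ≤ |c| ^ (n + 1) * |c| := mul_le_mul ih h1 (abs_nonneg _) (pow_nonneg h0 _)
      _ = |c| ^ (n + 1 + 1) := by ring

theorem sbs_ne (a c : ℝ) (hc : c ≠ 0) (n : ℕ) : (sbs a c n).2 ≠ 0 := by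
  induction n with
  | zero => exact hc
  | succ n ih =>
    simp only [sbs]
    exact neg_ne_zero.mpr (pow_ne_zero 2 ih)

theorem sbs_a (a c : ℝ) (hc : |c| < 1) (n : ℕ) : |(sbs a c n).1| ≤ |a| + 1 / (1 - |c|) := by
  have h1 : 0 < 1 - |c| := by linarith
  have h0 : 0 ≤ |c| := abs_nonneg c
  induction n with
  | zero =>
    simp only [sbs]
    have : 0 < 1 / (1 - |c|) := by positivity
    linarith
  | succ n ih =>
    simp only [sbs]
    have hcn : |(sbs a c n).2| ≤ |c| := le_trans (sbs_c a c hc n) (by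
      rw [pow_succ]
      exact mul_le_of_le_one_left h0 (pow_le_one₀ h0 hc.le))
    calc |1 - (sbs a c n).1 * (sbs a c n).2| ≤ |(1 : ℝ)| + |(sbs a c n).1 * (sbs a c n).2| :=
          abs_sub _ _
      _ = 1 + |(sbs a c n).1| * |(sbs a c n).2| := by rw [abs_one, abs_mul]
      _ ≤ 1 + (|a| + 1 / (1 - |c|)) * |c| := by
          have := mul_le_mul ih hcn (abs_nonneg _) (by positivity)
          linarith
      _ = 1 + |a| * |c| + |c| / (1 - |c|) := by ring
      _ ≤ |a| + 1 / (1 - |c|) := by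
          have e : 1 / (1 - |c|) = 1 + |c| / (1 - |c|) := by field_simp; ring
          rw [e]
          have : |a| * |c| ≤ |a| := mul_le_of_le_one_right (abs_nonneg a) hc.le
          linarith

theorem sbs_c_lim (a c : ℝ) (hc : |c| < 1) :
    Tendsto (fun n => (sbs a c n).2) atTop (𝓝 0) := by
  refine squeeze_zero_norm (fun n => ?_)
    ((tendsto_add_atTop_iff_nat 1).mpr
      (tendsto_pow_atTop_nhds_zero_of_lt_one (abs_nonneg c) hc))
  rw [Real.norm_eq_abs]
  exact sbs_c a c hc n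

theorem sbs_a_lim (a c : ℝ) (hc : |c| < 1) :
    Tendsto (fun n => (sbs a c n).1) atTop (𝓝 1) := by
  rw [← tendsto_add_atTop_iff_nat 1]
  have h1 : Tendsto (fun n => (sbs a c n).1 * (sbs a c n).2) atTop (𝓝 0) := by
    have hb : ∀ n, |(sbs a c n).1 * (sbs a c n).2| ≤ (|a| + 1 / (1 - |c|)) * |(sbs a c n).2| := by
      intro n
      rw [abs_mul]
      exact mul_le_mul_of_nonneg_right (sbs_a a c hc n) (abs_nonneg _)
    refine squeeze_zero_norm (fun n => (Real.norm_eq_abs _).trans_le (hb n)) ?_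
    have := ((sbs_c_lim a c hc).abs).const_mul (|a| + 1 / (1 - |c|))
    simpa using this
  have h2 := h1.const_sub 1
  simpa [sbs] using h2

theorem shb : ShbStmt := by
  intro k G a b c d hG hper hIM hc0 hc1 u hu
  have hopen : IsOpen {z : ℂ | 0 < z.im} := isOpen_lt continuous_const Complex.continuous_im
  have hda : HasDerivAt G (deriv G u) u :=
    (hG.differentiableAt (hopen.mem_nhds hu)).hasDerivAt
  -- the three functions of the pair
  let P : ℝ × ℝ → ℂ := fun p => 1 - (p.1 : ℂ) * p.2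
  let Q : ℝ × ℝ → ℂ := fun p => -(p.2 : ℂ) ^ 4 * u + 1 - P p * p.2 ^ 2
  let R : ℝ × ℝ → ℂ := fun p => (-2 * (p.1 : ℂ) + p.1 ^ 2 * p.2 + P p * p.2 + 2 * P p * p.2 * u +
    p.2 ^ 3 * u + p.2 ^ 3 * u ^ 2) / Q p
  let S : ℝ × ℝ → ℂ := fun p => (p.2 : ℂ) * (-(p.2 : ℂ) ^ 2 * u - P p) *
    ∑ i ∈ Finset.range k, Q p ^ i
  have hP : Continuous P := by fun_prop
  have hQ : Continuous Q := by fun_prop
  have hQ1 : Q (1, 0) = 1 := by simp [Q]
  have hR : ContinuousAt R (1, 0) := by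
    refine ContinuousAt.div (by fun_prop) hQ.continuousAt ?_
    rw [hQ1]; exact one_ne_zero
  have hR1 : R (1, 0) = -2 := by simp [R, hQ1]
  have hS : Continuous S := by fun_prop
  have hS1 : S (1, 0) = 0 := by simp [S]
  have hlim : Tendsto (fun n => sbs a c n) atTop (𝓝 ((1 : ℝ), (0 : ℝ))) :=
    (sbs_a_lim a c hc1).prodMk_nhds (sbs_c_lim a c hc1)
  have hQl : Tendsto (fun n => Q (sbs a c n)) atTop (𝓝 1) := by
    have := (hQ.tendsto (1, 0)).comp hlim
    rwa [hQ1] at this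
  have hRl : Tendsto (fun n => R (sbs a c n)) atTop (𝓝 (-2)) := by
    have := hR.tendsto.comp hlim
    rwa [hR1] at this
  have hSl : Tendsto (fun n => S (sbs a c n)) atTop (𝓝 0) := by
    have := (hS.tendsto (1, 0)).comp hlim
    rwa [hS1] at this
  have hcl : Tendsto (fun n => (((sbs a c n).2 : ℝ) : ℂ)) atTop (𝓝 0) := by
    have := (Complex.continuous_ofReal.tendsto 0).comp (sbs_c_lim a c hc1)
    rwa [Complex.ofReal_zero] at this
  have htl : Tendsto (fun n => (((sbs a c n).2 : ℝ) : ℂ) * R (sbs a c n)) atTop (𝓝 0) := by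
    have := hcl.mul hRl
    simpa using this
  have hRne : ∀ᶠ n in atTop, R (sbs a c n) ≠ 0 :=
    hRl.eventually_ne (by norm_num)
  have hQne : ∀ᶠ n in atTop, Q (sbs a c n) ≠ 0 :=
    hQl.eventually_ne one_ne_zero
  have htne : ∀ᶠ n in atTop, (((sbs a c n).2 : ℝ) : ℂ) * R (sbs a c n) ∈ ({0}ᶜ : Set ℂ) := by
    filter_upwards [hRne] with n hn
    exact mul_ne_zero (by exact_mod_cast sbs_ne a c hc0 n) hn
  have hslope := hda.tendsto_slope_zero.comp
    (tendsto_nhdsWithin_iff.mpr ⟨htl, htne⟩)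
  have hval : ∀ᶠ n in atTop,
      (fun n => S (sbs a c n) / R (sbs a c n) * G u) n =
        ((fun t : ℂ => t⁻¹ • (G (u + t) - G u)) ∘
          fun n => (((sbs a c n).2 : ℝ) : ℂ) * R (sbs a c n)) n := by
    filter_upwards [hRne, hQne] with n hn hq
    have hcn : (((sbs a c n).2 : ℝ) : ℂ) ≠ 0 := by exact_mod_cast sbs_ne a c hc0 n
    have hIM1 := (sbs_IM hper hIM (n + 1)).2 u hu
    have hdet1 := (sbs_IM hper hIM (n + 1)).1
    have him := shb_im hdet1 hu
    have eQ : (((-((sbs a c (n + 1)).2 ^ 2) : ℝ) : ℂ) * u +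
        ((1 + (sbs a c (n + 1)).1 * (sbs a c (n + 1)).2 : ℝ) : ℂ)) = Q (sbs a c n) := by
      simp only [sbs, Q, P]
      push_cast
      ring
    have eT : (((1 - (sbs a c (n + 1)).1 * (sbs a c (n + 1)).2 : ℝ) : ℂ) * u +
        (((sbs a c (n + 1)).1 ^ 2 : ℝ) : ℂ)) / Q (sbs a c n) =
        (u + (((sbs a c n).2 : ℝ) : ℂ) * R (sbs a c n)) + 1 := by
      rw [div_eq_iff hq]
      have : (u + (((sbs a c n).2 : ℝ) : ℂ) * R (sbs a c n) + 1) * Q (sbs a c n) =
          (u + 1) * Q (sbs a c n) + (((sbs a c n).2 : ℝ) : ℂ) *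
            (R (sbs a c n) * Q (sbs a c n)) := by ring
      rw [this]
      have hRQ : R (sbs a c n) * Q (sbs a c n) =
          (-2 * ((sbs a c n).1 : ℂ) + (sbs a c n).1 ^ 2 * (sbs a c n).2 +
            P (sbs a c n) * (sbs a c n).2 + 2 * P (sbs a c n) * (sbs a c n).2 * u +
            (sbs a c n).2 ^ 3 * u + (sbs a c n).2 ^ 3 * u ^ 2) := by
        simp only [R]
        rw [div_mul_cancel₀ _ hq]
      rw [hRQ]
      simp only [sbs, Q, P]
      push_cast
      ring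
    rw [eQ, eT] at hIM1 him
    have him' : 0 < (u + (((sbs a c n).2 : ℝ) : ℂ) * R (sbs a c n)).im := by
      simpa using him
    rw [hper _ him'] at hIM1
    simp only [Function.comp_apply, smul_eq_mul]
    rw [hIM1]
    have hgeo : Q (sbs a c n) ^ k - 1 = (((sbs a c n).2 : ℝ) : ℂ) * S (sbs a c n) := by
      rw [← mul_geom_sum]
      simp only [S]
      have : Q (sbs a c n) - 1 = (((sbs a c n).2 : ℝ) : ℂ) * ((((sbs a c n).2 : ℝ) : ℂ) *
          (-(((sbs a c n).2 : ℝ) : ℂ) ^ 2 * u - P (sbs a c n))) := by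
        simp only [Q]
        ring
      rw [this]
      ring
    have : Q (sbs a c n) ^ k * G u - G u = (((sbs a c n).2 : ℝ) : ℂ) * S (sbs a c n) * G u := by
      rw [← hgeo]; ring
    rw [this]
    field_simp
  have hlim2 : Tendsto (fun n => S (sbs a c n) / R (sbs a c n) * G u) atTop
      (𝓝 (0 / (-2) * G u)) :=
    (hSl.div hRl (by norm_num)).mul_const _
  have hlim3 := hslope.congr' (hval.mono fun n hn => hn.symm)
  have := tendsto_nhds_unique hlim3 hlim2
  rw [this]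
  simp

end

end Pool.Agent.H99.NR
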