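import Pool.Agent.H99.NR.Sha
import Pool.Agent.H99.NR.Shb

/-!
[H99 NR Shi] Module of THEOREM NR (MP_8e9775_nt, think 1126 of helper99).

PROOF. G of sha; shb with c = y0 (rho - xi)^2 x (0 < c < 1): deriv G = 0 on the half plane, so G is
constant = K there (convex open set: IsOpen.is_const_of_deriv_eq_zero or
Convex.is_const_of_fderivWithin_eq_zero). For z in the half plane u = -1/(y0 (z - xi)):
f(z) = u^k G(u) = K u^k, hence (y0 (z - xi))^k f(z) = K (-1)^k. From f(z+1) = f(z) at z = xi + i: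
(1 + i)^k K' = i^k K' : norms sqrt 2^k and 1, k >= 1: K = 0, f = 0.
-/

namespace Pool.Agent.H99.NR

open Complex NumberField Pool.Agent.H97.ICA

noncomputable section

theorem shi : ShiStmt := by
  intro k f xi y0 rho x hk hf hper hy hx hrx hsm h1 h2
  obtain ⟨hGd, hGp, hGI⟩ := sha k f xi y0 rho x hf hy h1 h2
    (fun u => (u ^ k)⁻¹ * f (xi - 1 / (y0 * u))) (fun u => rfl)
  set G : ℂ → ℂ := fun u => (u ^ k)⁻¹ * f (xi - 1 / (y0 * u)) with hG
  have hyc : (y0 : ℂ) ≠ 0 := by exact_mod_cast hy.ne'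
  have hδ : rho - xi ≠ 0 := sub_ne_zero.mpr hrx
  have hc : 0 < y0 * (rho - xi) ^ 2 * x := by positivity
  have hc1 : |y0 * (rho - xi) ^ 2 * x| < 1 := by
    rw [abs_of_pos hc]
    nlinarith
  have hder := shb k G _ _ _ _ hGd hGp hGI hc.ne' hc1
  have hopen : IsOpen {z : ℂ | 0 < z.im} := isOpen_lt continuous_const Complex.continuous_im
  have hconv : Convex ℝ {z : ℂ | 0 < z.im} := convex_halfSpace_im_gt 0
  have hconst : ∀ u v : ℂ, 0 < u.im → 0 < v.im → G u = G v := by
    intro u v hu hv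
    exact hopen.is_const_of_deriv_eq_zero hconv.isPreconnected hGd
      (fun w hw => hder w hw) hu hv
  have hne : ∀ u : ℂ, 0 < u.im → u ≠ 0 := by
    rintro u hu rfl
    simp at hu
  have him : ∀ z : ℂ, 0 < z.im → 0 < (-1 / ((y0 : ℂ) * (z - xi))).im := by
    intro z hz
    exact sha_im hy (by simpa using hz)
  -- the formula for `f`
  have hform : ∀ z : ℂ, 0 < z.im → (z - xi) ^ k * f z = (-1 / (y0 : ℂ)) ^ k * G I := by
    intro z hz
    have hz0 : z - xi ≠ 0 := hne _ (by simpa using hz)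
    have e0 := hconst _ I (him z hz) (by simp)
    have e1 : (xi : ℂ) - 1 / (y0 * (-1 / ((y0 : ℂ) * (z - xi)))) = z := by
      field_simp
      ring
    have e2 : G (-1 / ((y0 : ℂ) * (z - xi))) = ((-1 / ((y0 : ℂ) * (z - xi))) ^ k)⁻¹ * f z := by
      simp only [hG]
      rw [e1]
    rw [← e0, e2, div_pow, div_pow, mul_pow]
    have hk0 := pow_ne_zero k hz0
    have hk1 := pow_ne_zero k hyc
    have hk2 : ((-1 : ℂ)) ^ k ≠ 0 := pow_ne_zero k (by norm_num)
    field_simp
  have hf1 : f (xi + I) = 0 := by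
    have h3 := hform (xi + I) (by simp)
    have h4 := hform (xi + I + 1) (by simp)
    rw [hper (xi + I) (by simp)] at h4
    have e1 : (xi : ℂ) + I - xi = I := by ring
    have e2 : (xi : ℂ) + I + 1 - xi = 1 + I := by ring
    rw [e1] at h3
    rw [e2, ← h3] at h4
    by_contra hne0
    have h5 := mul_right_cancel₀ hne0 h4
    have h6 := congrArg Complex.normSq h5
    rw [map_pow, map_pow] at h6
    have e3 : Complex.normSq (1 + I) = 2 := by
      rw [Complex.normSq_apply]; simp; norm_num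
    rw [e3, Complex.normSq_I, one_pow] at h6
    have : (1 : ℝ) < 2 ^ k := one_lt_pow₀ (by norm_num) (by omega)
    linarith
  have hK : (-1 / (y0 : ℂ)) ^ k * G I = 0 := by
    rw [← hform (xi + I) (by simp), hf1, mul_zero]
  intro z hz
  have h5 := hform z hz
  rw [hK] at h5
  have hz0 : z - xi ≠ 0 := hne _ (by simpa using hz)
  exact (mul_eq_zero.mp h5).resolve_left (pow_ne_zero k hz0)

end

end Pool.Agent.H99.NR
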