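import Pool.Agent.H99.NR.Defs

/-!
[H99 NR Tra] Module of THEOREM NR (MP_8e9775_nt, think 1126 of helper99).

PROOF. (i) z = -1/(Nw) for w in the half plane: f(w) = (sqrt N z)^k g(z); w/(Nw+1) = -1/(N (z-1)):
f(w/(Nw+1)) = (sqrt N (z-1))^k g(z-1) = (sqrt N (z-1))^k g(z) and (z-1)/z = 1 + Nw.
(ii) put -1/(Nz) for z in the hypothesis: f(z) = (sqrt N (-1/(Nz)))^k g(-1/(Nz)), and
sqrt N (-1/(Nz)) = -1/(sqrt N z).
(iii) ξ = -1/(N r), y = N r^2 x. For w in the half plane put v = N r^2 w/(1 - N r w) (im > 0),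
r + v = r/(1 - N r w) = -1/(N (ξ + w)); w' = w/(y w + 1) has v' = v/(x v + 1). So
f(ξ + w') = (sqrt N (r + v'))^k g(r + v') = (sqrt N (r+v'))^k (x v + 1)^k g(r + v) and
f(ξ + w) = (sqrt N (r + v))^k g(r + v); ((r+v')/(r+v)) (x v + 1) = y w + 1 (field_simp, ring).
-/

namespace Pool.Agent.H99.NR

open Complex NumberField Pool.Agent.H97.ICA

noncomputable section

private theorem ne1 {w : ℂ} (hw : 0 < w.im) (a : ℝ) : (a : ℂ) * w + 1 ≠ 0 := by
  intro h
  have h1 := congrArg Complex.im h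
  have h2 := congrArg Complex.re h
  simp at h1 h2
  rcases h1 with h1 | h1
  · rw [h1] at h2
    simp at h2
  · exact hw.ne' h1

private theorem im1 {w : ℂ} (hw : 0 < w.im) (a : ℝ) : 0 < (w / ((a : ℂ) * w + 1)).im := by
  have h1 : 0 < Complex.normSq ((a : ℂ) * w + 1) := Complex.normSq_pos.mpr (ne1 hw a)
  rw [Complex.div_im]
  have h2 : ((a : ℂ) * w + 1).re = a * w.re + 1 := by simp
  have h3 : ((a : ℂ) * w + 1).im = a * w.im := by simp
  rw [h2, h3, ← sub_div]
  apply div_pos _ h1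
  nlinarith

private theorem im2 {w : ℂ} (hw : 0 < w.im) {N : ℝ} (hN : 0 < N) : 0 < (-1 / ((N : ℂ) * w)).im := by
  have hw0 : w ≠ 0 := by
    intro h
    rw [h] at hw
    simp at hw
  have hN0 : (N : ℂ) ≠ 0 := by exact_mod_cast hN.ne'
  have h1 : 0 < Complex.normSq ((N : ℂ) * w) := Complex.normSq_pos.mpr (mul_ne_zero hN0 hw0)
  rw [Complex.div_im]
  have h2 : ((N : ℂ) * w).re = N * w.re := by simp
  have h3 : ((N : ℂ) * w).im = N * w.im := by simp
  have h4 : (-1 : ℂ).re = -1 := by simp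
  have h5 : (-1 : ℂ).im = 0 := by simp
  rw [h2, h3, h4, h5, ← sub_div]
  apply div_pos _ h1
  nlinarith [mul_pos hN hw]

theorem tra : TraStmt := by
  intro k N f g hN hfg
  have hN0 : (N : ℂ) ≠ 0 := by exact_mod_cast hN.ne'
  have hs : ((Real.sqrt N : ℝ) : ℂ) ^ 2 = (N : ℂ) := by
    rw [← Complex.ofReal_pow, Real.sq_sqrt hN.le]
  have hs0 : ((Real.sqrt N : ℝ) : ℂ) ≠ 0 := by
    exact_mod_cast (Real.sqrt_pos.mpr hN).ne'
  have hne : ∀ {w : ℂ}, 0 < w.im → w ≠ 0 := by
    intro w hw h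
    rw [h] at hw
    simp at hw
  refine ⟨?_, ?_, ?_⟩
  · intro hg w hw
    have hw0 := hne hw
    have hw1 := ne1 hw N
    set z : ℂ := -1 / ((N : ℂ) * w) with hz
    have hzi : 0 < z.im := im2 hw hN
    have hz0 := hne hzi
    have hz1i : 0 < (z - 1).im := by simpa using hzi
    have hz10 := hne hz1i
    have e1 : -1 / ((N : ℂ) * z) = w := by
      rw [hz]
      field_simp
    have e2 : -1 / ((N : ℂ) * (z - 1)) = w / ((N : ℂ) * w + 1) := by
      have h1 : (N : ℂ) * (z - 1) = -((N : ℂ) * w + 1) / w := by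
        rw [hz]
        field_simp
        ring
      rw [h1]
      field_simp
    have h1 := hfg z hzi
    have h2 := hfg (z - 1) hz1i
    have h3 := hg (z - 1) hz1i
    rw [e1] at h1
    rw [e2] at h2
    rw [sub_add_cancel] at h3
    rw [Complex.ofReal_zero, zero_add, zero_add, h2, h1, h3, ← mul_assoc, ← mul_pow]
    congr 2
    have h4 : z - 1 = ((N : ℂ) * w + 1) * z := by
      rw [hz]
      field_simp
      ring
    rw [h4]
    ring
  · intro z hz
    have hz0 := hne hz
    set z' : ℂ := -1 / ((N : ℂ) * z) with hz'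
    have hzi : 0 < z'.im := im2 hz hN
    have e1 : -1 / ((N : ℂ) * z') = z := by
      rw [hz']
      field_simp
    have h1 := hfg z' hzi
    rw [e1] at h1
    rw [h1, ← mul_assoc, ← mul_assoc, ← mul_pow, ← mul_pow]
    have h2 : ((Real.sqrt N : ℝ) : ℂ) * z * -1 * (((Real.sqrt N : ℝ) : ℂ) * z') = 1 := by
      rw [hz']
      field_simp
      rw [hs]
    rw [h2, one_pow, one_mul]
  · intro r x hr hx hI w hw
    have hr0 : (r : ℂ) ≠ 0 := by exact_mod_cast hr
    have hw0 := hne hw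
    have hd : (1 : ℂ) - N * r * w ≠ 0 := by
      have h := ne1 hw (-(N * r))
      push_cast at h
      intro h1
      apply h
      rw [← h1]
      ring
    set v : ℂ := N * r ^ 2 * w / (1 - N * r * w) with hv
    have hvi : 0 < v.im := by
      have h1 : v = ((N * r ^ 2 : ℝ) : ℂ) * (w / (((-(N * r) : ℝ) : ℂ) * w + 1)) := by
        rw [hv]
        push_cast
        rw [show -((N : ℂ) * r) * w + 1 = 1 - N * r * w by ring]
        ring
      rw [h1, Complex.im_ofReal_mul]
      exact mul_pos (by positivity) (im1 hw _)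
    have hxv := ne1 hvi x
    have hv' : 0 < (v / ((x : ℂ) * v + 1)).im := im1 hvi x
    have hrv : 0 < ((r : ℂ) + v).im := by simpa using hvi
    have hrv' : 0 < ((r : ℂ) + v / ((x : ℂ) * v + 1)).im := by simpa using hv'
    have h1 := hfg _ hrv
    have h2 := hfg _ hrv'
    have h3 := hI v hvi
    have hyw := ne1 hw (N * r ^ 2 * x)
    have e0 : (r : ℂ) + v = r / (1 - N * r * w) := by
      rw [hv, eq_div_iff hd, add_mul, div_mul_cancel₀ _ hd]
      ring
    have e3 : (x : ℂ) * v + 1 = (1 - N * r * w + N * r ^ 2 * x * w) / (1 - N * r * w) := by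
      rw [hv]
      field_simp
      ring
    have hD : (1 : ℂ) - N * r * w + N * r ^ 2 * x * w ≠ 0 := by
      intro h
      rw [h, zero_div] at e3
      exact hxv e3
    have e4 : (r : ℂ) + v / ((x : ℂ) * v + 1) =
        r * (((N * r ^ 2 * x : ℝ) : ℂ) * w + 1) / (1 - N * r * w + N * r ^ 2 * x * w) := by
      rw [e3, hv, div_div_div_cancel_right₀ hd, eq_div_iff hD, add_mul, div_mul_cancel₀ _ hD]
      push_cast
      ring
    have e1 : -1 / ((N : ℂ) * (r + v)) = ((-1 / (N * r) : ℝ) : ℂ) + w := by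
      rw [e0]
      push_cast
      field_simp
      ring
    have e2 : -1 / ((N : ℂ) * (r + v / ((x : ℂ) * v + 1))) =
        ((-1 / (N * r) : ℝ) : ℂ) + w / (((N * r ^ 2 * x : ℝ) : ℂ) * w + 1) := by
      rw [e4]
      push_cast at hyw ⊢
      field_simp
      ring
    rw [e1] at h1
    rw [e2] at h2
    rw [h2, h1, h3, ← mul_assoc, ← mul_assoc, ← mul_pow, ← mul_pow]
    congr 2
    rw [e4, e3, e0]
    generalize (1 : ℂ) - N * r * w + N * r ^ 2 * x * w = D at hD
    generalize (1 : ℂ) - N * r * w = d at hd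
    field_simp

end

end Pool.Agent.H99.NR
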