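import Pool.Agent.H99.NR.Run
import Pool.Agent.H99.NR.Cus
import Pool.Agent.H99.NR.Tra
import Pool.Agent.H99.NR.Shi
import Pool.Agent.H99.NR.Dio
import Pool.Agent.H99.NR.Dif
import Pool.Agent.H97.ICA.Cau

/-!
[H99 NR NR] Assembly of THEOREM NR (MP_8e9775_nt, think 1126 of helper99).

PROOF. Suppose N irrational. a = s0 A, f = Fn a, b = c conj a; s0' = conj s0 (another embedding),
g = Fn (s0' A) = Fn (conj a). Tra (i) for f (with c g periodic: exa) : Inv k f 0 N. Tra (ii):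
c g(-1/(Nz)) = (sqrt N z)^k (-1)^k f(z), so g(-1/(Nz)) = (sqrt N z)^k Fn (c^(-1) (-1)^k a)(z): run for
(L, A, s0') with ε = 1: m = m1, T, p; Tra (i) for g; cus for g with r = 1: Inv k g (1/m) x0, x0 > 0.
Then Inv k (c g) too and Tra (iii): Inv k f ξ y0, ξ = -1/(N (1/m)) = -m/N irrational, y0 = N (1/m)^2 x0.
run for f with ε = 1/(4 N y0): m1'; dio: m >= m1', r/m; run, cus: Inv k f (r/m) x with
x <= 2 m N T <= 2 N ε m^4, y0 x (r/m - ξ)^2 <= y0 2 N ε = 1/2 < 1. shi: f = 0 on the half plane,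
so a = 0 (cau with B = 0), A = 0, contradiction.
-/

namespace Pool.Agent.H99.NR

open Complex NumberField Pool.Agent.H97.ICA

noncomputable section

private theorem inv_const (k : ℕ) (f : ℂ → ℂ) (c : ℂ) (r x : ℝ) (h : Inv k f r x) :
    Inv k (fun z => c * f z) r x := by
  intro w hw
  simp only
  rw [h w hw]
  ring

private theorem Fn_const (c : ℂ) (a : ℕ → ℂ) (z : ℂ) : Fn (fun n => c * a n) z = c * Fn a z := by
  unfold Fn
  rw [← tsum_mul_left]
  refine tsum_congr fun n => ?_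
  ring

private theorem Cv_const (c : ℂ) (a : ℕ → ℂ) (h : Cv a) : Cv (fun n => c * a n) := by
  intro r hr0 hr1
  refine ((h r hr0 hr1).mul_left ‖c‖).congr fun n => ?_
  rw [norm_mul]
  ring

private theorem Fn_per (a : ℕ → ℂ) (h : Cv a) (z : ℂ) (hz : 0 < z.im) : Fn a (z + 1) = Fn a z :=
  (exa a h z z.im hz le_rfl).2.2

private theorem Fn_eq_zero (a : ℕ → ℂ) (h : Cv a) (h0 : ∀ z : ℂ, 0 < z.im → Fn a z = 0) :
    ∀ n, a n = 0 := by
  intro n
  have h1 := cau exa a h 1 0 one_pos (fun x _ => by rw [h0 _ (by simp), norm_zero]) n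
  rw [zero_mul] at h1
  exact norm_le_zero_iff.1 h1

private theorem gr_conj (C : ℝ) (q : ℕ) (a : ℕ → ℂ) (h : Gr C q a) :
    Gr C q (fun n => (starRingEnd ℂ) (a n)) := by
  intro n
  rw [Complex.norm_conj]
  exact h n

theorem nr : NRStmt := by
  intro L _ _ k N C q A s0 c hk hN hA0 hA hG hc hfe
  by_contra hirr
  have hirrN : Irrational N := by
    rintro ⟨r, hr⟩
    exact hirr ⟨r, hr⟩
  obtain ⟨C1, _, hbdd⟩ := bdd C q
  -- the two functions
  obtain ⟨a, ha⟩ : ∃ a : ℕ → ℂ, a = fun n => s0 (A n : L) := ⟨_, rfl⟩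
  obtain ⟨s1, hs1⟩ : ∃ s1 : L →+* ℂ, s1 = (starRingEnd ℂ).comp s0 := ⟨_, rfl⟩
  obtain ⟨b, hb⟩ : ∃ b : ℕ → ℂ, b = fun n => s1 (A n : L) := ⟨_, rfl⟩
  have hb' : b = fun n => (starRingEnd ℂ) (s0 (A n : L)) := by
    rw [hb, hs1]
    rfl
  rw [← ha, ← hb'] at hfe
  have hGa : Gr C q a := by rw [ha]; exact hG s0
  have hGb : Gr C q b := by rw [hb]; exact hG s1
  have hCa : Cv a := (hbdd a hGa).1
  have hCb : Cv b := (hbdd b hGb).1
  obtain ⟨n0, hn0⟩ : ∃ n, A n ≠ 0 := by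
    by_contra h
    push Not at h
    exact hA (funext h)
  have hemb : ∀ s : L →+* ℂ, s (A n0 : L) ≠ 0 := by
    intro s
    rw [Ne, map_eq_zero_iff s s.injective]
    exact fun h => hn0 (by exact_mod_cast h)
  have ha0 : a ≠ 0 := fun h => hemb s0 (by rw [ha] at h; exact congrFun h n0)
  have hb0 : b ≠ 0 := fun h => hemb s1 (by rw [hb] at h; exact congrFun h n0)
  have ha00 : a 0 = 0 := by rw [ha]; simp [hA0]
  have hb00 : b 0 = 0 := by rw [hb]; simp [hA0]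
  -- the functional equations
  have T1 := tra k N (Fn a) (fun z => c * Fn b z) hN hfe
  have hia : Inv k (Fn a) 0 N := T1.1 fun z hz => by
    rw [Fn_per b hCb z hz]
  have hfb : ∀ z : ℂ, 0 < z.im → Fn b (-1 / ((N : ℂ) * z)) =
      ((Real.sqrt N : ℂ) * z) ^ k * Fn (fun n => (c⁻¹ * (-1) ^ k) * a n) z := by
    intro z hz
    have h1 := T1.2.1 z hz
    rw [Fn_const]
    have h2 : Fn b (-1 / ((N : ℂ) * z)) = c⁻¹ * (c * Fn b (-1 / ((N : ℂ) * z))) := by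
      rw [← mul_assoc, inv_mul_cancel₀ hc, one_mul]
    rw [h2, h1]
    ring
  have hCa' : Cv (fun n => (c⁻¹ * (-1) ^ k) * a n) := Cv_const _ _ hCa
  have T2 := tra k N (Fn b) (Fn (fun n => (c⁻¹ * (-1) ^ k) * a n)) hN hfb
  have hib : Inv k (Fn b) 0 N := T2.1 fun z hz => Fn_per _ hCa' z hz
  -- a rational point for b
  obtain ⟨m, hm1, hm⟩ := run L k N C q A s1 (fun n => (c⁻¹ * (-1) ^ k) * a n) hN hG hCa'
    (by rw [← hb]; exact hfb) 1 one_pos
  obtain ⟨lam, hlam, -, p, hp0, hp⟩ := hm m le_rfl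
  rw [← hb] at hp
  obtain ⟨x0, hx0, -, hx0i⟩ := cus k N b hN hCb hb00 hb0 hib m (2 * lam) hm1 p hp0 hp 1
  have hmR : (0 : ℝ) < m := by exact_mod_cast hm1
  have hr0 : ((1 : ℤ) : ℝ) / m ≠ 0 := by
    push_cast
    positivity
  have hxi := T1.2.2 (((1 : ℤ) : ℝ) / m) x0 hr0 hx0 (inv_const k (Fn b) c _ _ hx0i)
  obtain ⟨xi, hxidef⟩ : ∃ xi : ℝ, xi = -1 / (N * (((1 : ℤ) : ℝ) / m)) := ⟨_, rfl⟩
  obtain ⟨y0, hy0def⟩ : ∃ y0 : ℝ, y0 = N * (((1 : ℤ) : ℝ) / m) ^ 2 * x0 := ⟨_, rfl⟩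
  rw [← hxidef, ← hy0def] at hxi
  have hy0 : 0 < y0 := by rw [hy0def]; positivity
  have hxirr : Irrational xi := by
    have h1 : xi = -((m : ℝ) / N) := by
      rw [hxidef]
      push_cast
      field_simp
    rw [h1]
    apply Irrational.neg
    have h2 : Irrational ((m : ℝ) / N) := by
      have := hirrN.natCast_div (m := m) (by omega)
      exact this
    exact h2
  -- rational points for a
  obtain ⟨ε, hε⟩ : ∃ ε : ℝ, ε = 1 / (4 * N * y0) := ⟨_, rfl⟩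
  have hε0 : 0 < ε := by rw [hε]; positivity
  obtain ⟨m1, hm11, hm1'⟩ := run L k N C q A s0 (fun n => c * b n) hN hG (Cv_const c b hCb)
    (by
      intro z hz
      rw [← ha, hfe z hz, Fn_const]) ε hε0
  obtain ⟨m2, r, hm2, hne, hab⟩ := dio xi hxirr m1 hm11
  obtain ⟨lam2, hlam2, hlam2e, p2, hp20, hp2⟩ := hm1' m2 hm2
  rw [← ha] at hp2
  obtain ⟨x, hx0', hxle, hxinv⟩ := cus k N a hN hCa ha00 ha0 hia m2 (2 * lam2) (hm11.trans hm2) p2
    hp20 hp2 r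
  have hm2R : (0 : ℝ) < m2 := by exact_mod_cast (hm11.trans hm2)
  have hsmall : y0 * x * ((r : ℝ) / m2 - xi) ^ 2 < 1 := by
    have h1 : x ≤ 2 * m2 * N * (ε * m2 ^ 3) := by
      refine hxle.trans ?_
      push_cast
      exact mul_le_mul_of_nonneg_left hlam2e (by positivity)
    have h2 : ((r : ℝ) / m2 - xi) ^ 2 ≤ (1 / (m2 : ℝ) ^ 2) ^ 2 := by
      rw [← sq_abs]
      exact pow_le_pow_left₀ (abs_nonneg _) hab 2
    calc y0 * x * ((r : ℝ) / m2 - xi) ^ 2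
        ≤ y0 * (2 * m2 * N * (ε * m2 ^ 3)) * (1 / (m2 : ℝ) ^ 2) ^ 2 := by gcongr
      _ = 1 / 2 := by
          rw [hε]
          field_simp
          norm_num
      _ < 1 := by norm_num
  have hdiff : DifferentiableOn ℂ (Fn a) {z | 0 < z.im} := Fn_diff a hCa
  have hz := shi k (Fn a) xi y0 ((r : ℝ) / m2) x hk hdiff (fun z hz => Fn_per a hCa z hz) hy0 hx0'
    hne hsmall hxi hxinv
  exact ha0 (funext (Fn_eq_zero a hCa hz))

end

end Pool.Agent.H99.NR
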