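import Mathlib
import Pool.Agent.H13.IC.Fj
import Pool.Agent.H97.ICB.Fj1
import Pool.Agent.H99.NR.NR

/-!
# THEOREM NR in the setting of THEOREM IC (MP_8e9775_nt): the conductor is rational

`a(n) = σ(A(n)) n ^ (-(k-1)/2)`, `m A(n)` integral in the number field `L`, all conjugates of `A(n)` of
polynomial growth; functional equation of degree two and holomorphic type with `N > 0` real. Then
`N` is rational; hence THEOREM IC for every real `N > 0`.
-/

set_option autoImplicit false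

namespace Pool.Agent.H99.NR

open Complex NumberField Pool.Agent.H11.Selberg Pool.Agent.H11.SC Pool.Agent.H13.IC
open Pool.Agent.H97.ICB

/-- all conjugates of `A(n)` grow at most polynomially -/
def PolG {L : Type} [Field L] (A : ℕ → L) : Prop :=
  ∃ (C : ℝ) (q : ℕ), ∀ (τ : L →+* ℂ) (n : ℕ), 1 ≤ n → ‖τ (A n)‖ ≤ C * (n : ℝ) ^ q

/-- the integral sequence -/
private noncomputable def Bs {L : Type} [Field L] [NumberField L] (A : ℕ → L) (m : ℕ)
    (hA : ∀ n, 1 ≤ n → IsIntegral ℤ ((m : L) * A n)) : ℕ → 𝓞 L :=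
  fun n => if h : n = 0 then (0 : 𝓞 L) else
    (⟨(m : L) * A n, hA n (Nat.one_le_iff_ne_zero.mpr h)⟩ : 𝓞 L)

private theorem ee_pow (z : ℂ) (n : ℕ) :
    ee z ^ n = Complex.exp (2 * Real.pi * Complex.I * n * z) := by
  unfold ee
  rw [← Complex.exp_nat_mul]
  congr 1
  ring

private theorem Fn_ev (k : ℕ) (c : ℂ) (a b : ℕ → ℂ) (z : ℂ)
    (hb : ∀ n, b n = c * PowerSeries.coeff n (fser k a)) :
    Pool.Agent.H97.ICA.Fn b z = c * ev (fser k a) z := by
  unfold Pool.Agent.H97.ICA.Fn ev evq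
  rw [← tsum_mul_left]
  refine tsum_congr fun n => ?_
  rw [hb, ee_pow]
  ring

theorem rational_conductor {L : Type} [Field L] [NumberField L] (σ : L →+* ℂ) (k : ℕ) (hk : 1 ≤ k)
    (N : ℝ) (hN : 0 < N) (A : ℕ → L) (m : ℕ) (hm : 1 ≤ m)
    (hA : ∀ n, 1 ≤ n → IsIntegral ℤ ((m : L) * A n)) (hs : PolG A) (G : ℂ → ℂ) (ε : ℂ)
    (hε : ‖ε‖ = 1)
    (h : FEq (acl k A σ) G (Real.sqrt N / (2 * Real.pi)) (fun _ : Fin 1 => (1 : ℝ))
      (fun _ => ((k : ℂ) - 1) / 2) ε) : ∃ q : ℚ, (q : ℝ) = N := by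
  obtain ⟨C, q, hC⟩ := hs
  have hm0 : (m : ℂ) ≠ 0 := by exact_mod_cast (by omega : m ≠ 0)
  have hc0 : ∀ (τ : L →+* ℂ) (n : ℕ), n ≠ 0 → τ (Bs A m hA n : L) = (m : ℂ) * τ (A n) := by
    intro τ n hn
    unfold Bs
    rw [dif_neg hn]
    change τ ((m : L) * A n) = _
    rw [map_mul, map_natCast]
  have hB0 : Bs A m hA 0 = 0 := by unfold Bs; rw [dif_pos rfl]
  have hone : acl k A σ 1 = 1 := h.one
  have hA1 : A 1 ≠ 0 := by
    intro h0
    unfold acl at hone
    rw [h0, map_zero, zero_mul] at hone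
    exact zero_ne_one hone
  have hBne : Bs A m hA ≠ 0 := by
    intro h0
    have h1 := hc0 σ 1 one_ne_zero
    rw [h0] at h1
    have h2 : σ (A 1) = 0 := by
      have h3 : (m : ℂ) * σ (A 1) = 0 := by
        rw [← h1]
        simp
      exact (mul_eq_zero.1 h3).resolve_left hm0
    exact hA1 ((map_eq_zero_iff σ σ.injective).1 h2)
  have hG : ∀ τ : L →+* ℂ, Gr (m * |C|) q (fun n => τ (Bs A m hA n : L)) := by
    intro τ n
    by_cases hn : n = 0
    · simp only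
      rw [hn, hB0]
      simp only [map_zero, norm_zero]
      positivity
    · simp only
      rw [hc0 τ n hn, norm_mul, Complex.norm_natCast, mul_assoc]
      refine mul_le_mul_of_nonneg_left ?_ (Nat.cast_nonneg m)
      refine (hC τ n (Nat.one_le_iff_ne_zero.2 hn)).trans ?_
      have h1 : (n : ℝ) ^ q ≤ ((n : ℝ) + 1) ^ q :=
        pow_le_pow_left₀ (Nat.cast_nonneg n) (by linarith) q
      calc C * (n : ℝ) ^ q ≤ |C| * (n : ℝ) ^ q :=
            mul_le_mul_of_nonneg_right (le_abs_self C) (by positivity)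
        _ ≤ |C| * ((n : ℝ) + 1) ^ q := mul_le_mul_of_nonneg_left h1 (abs_nonneg C)
  have hpw : ∀ n : ℕ, n ≠ 0 → (n : ℂ) ^ (-(((k : ℂ) - 1) / 2)) * (n : ℂ) ^ (((k : ℂ) - 1) / 2) = 1 := by
    intro n hn
    have h0 : (n : ℂ) ≠ 0 := by exact_mod_cast hn
    rw [← Complex.cpow_add _ _ h0, neg_add_cancel, Complex.cpow_zero]
  have hf1 : ∀ n, σ (Bs A m hA n : L) = (m : ℂ) * PowerSeries.coeff n (fser k (acl k A σ)) := by
    intro n
    unfold fser
    rw [PowerSeries.coeff_mk]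
    by_cases hn : n = 0
    · rw [hn, hB0, if_pos rfl]
      simp
    · rw [if_neg hn, hc0 σ n hn]
      unfold acl
      rw [mul_assoc (σ (A n)), hpw n hn, mul_one]
  have hreal : ∀ n : ℕ, (starRingEnd ℂ) ((n : ℂ) ^ (((k : ℂ) - 1) / 2)) =
      (n : ℂ) ^ (((k : ℂ) - 1) / 2) := by
    intro n
    have h2 : (n : ℂ) ^ (((k : ℂ) - 1) / 2) = (((n : ℝ) ^ (((k : ℝ) - 1) / 2) : ℝ) : ℂ) := by
      rw [Complex.ofReal_cpow (Nat.cast_nonneg n)]
      push_cast
      rfl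
    rw [h2, Complex.conj_ofReal]
  have hf2 : ∀ n, (starRingEnd ℂ) (σ (Bs A m hA n : L)) =
      (m : ℂ) * PowerSeries.coeff n (fser k (cj (acl k A σ))) := by
    intro n
    rw [hf1 n, map_mul, Complex.conj_natCast]
    congr 1
    unfold fser cj
    rw [PowerSeries.coeff_mk, PowerSeries.coeff_mk]
    by_cases hn : n = 0
    · rw [if_pos hn, if_pos hn, map_zero]
    · rw [if_neg hn, if_neg hn, map_mul, hreal]
  have hε0 : ε ≠ 0 := by
    intro h0
    rw [h0, norm_zero] at hε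
    exact zero_ne_one hε
  refine nr L k N (m * |C|) q (Bs A m hA) σ (ε * (-I) ^ k) hk hN hB0 hBne hG
    (mul_ne_zero hε0 (pow_ne_zero _ (neg_ne_zero.2 Complex.I_ne_zero))) ?_
  intro z hz
  rw [Fn_ev k m (acl k A σ) _ _ hf1, Fn_ev k m (cj (acl k A σ)) _ _ hf2,
    hecke k hk N hN (acl k A σ) G ε h z hz]
  ring

theorem sub_of_pol {L : Type} [Field L] (A : ℕ → L) (hs : PolG A) : Sub A := by
  obtain ⟨C, q, hC⟩ := hs
  intro τ δ hδ
  refine ⟨|C| * ((q.factorial : ℝ) * (1 / δ) ^ q) + ‖τ (A 0)‖, fun n => ?_⟩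
  have hK : 0 ≤ |C| * ((q.factorial : ℝ) * (1 / δ) ^ q) := by positivity
  by_cases hn : n = 0
  · subst hn
    simp only [Nat.cast_zero, mul_zero, Real.exp_zero, mul_one]
    linarith
  · refine (hC τ n (Nat.one_le_iff_ne_zero.2 hn)).trans ?_
    have h1 := Real.pow_div_factorial_le_exp (δ * n) (by positivity) q
    rw [div_le_iff₀ (by positivity)] at h1
    have h2 : (n : ℝ) ^ q = (δ * n) ^ q * (1 / δ) ^ q := by
      rw [← mul_pow]
      congr 1
      field_simp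
    calc C * (n : ℝ) ^ q ≤ |C| * (n : ℝ) ^ q :=
          mul_le_mul_of_nonneg_right (le_abs_self C) (by positivity)
      _ = |C| * ((δ * n) ^ q * (1 / δ) ^ q) := by rw [← h2]
      _ ≤ |C| * ((Real.exp (δ * n) * q.factorial) * (1 / δ) ^ q) := by gcongr
      _ = |C| * ((q.factorial : ℝ) * (1 / δ) ^ q) * Real.exp (δ * n) := by ring
      _ ≤ (|C| * ((q.factorial : ℝ) * (1 / δ) ^ q) + ‖τ (A 0)‖) * Real.exp (δ * n) := by
          refine mul_le_mul_of_nonneg_right ?_ (Real.exp_pos _).le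
          have := norm_nonneg (τ (A 0))
          linarith

/-- THEOREM IC, weight at least two, REAL conductor, one embedding, bounded denominators. -/
theorem main_real {L : Type} [Field L] [NumberField L] (σ : L →+* ℂ) (k : ℕ) (hk : 2 ≤ k) (N : ℝ)
    (hN : 0 < N)
    (A : ℕ → L) (m : ℕ) (hm : 1 ≤ m) (hA : ∀ n, 1 ≤ n → IsIntegral ℤ ((m : L) * A n))
    (hs : PolG A) (F : ℂ → ℂ) (ε : ℂ)
    (hS : IsSelberg (acl k A σ) F) (hε : ‖ε‖ = 1)
    (hfe : ∀ s : ℂ, 0 < s.re → s.re < 1 →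
      completed (Real.sqrt N / (2 * Real.pi)) (fun _ : Fin 1 => (1 : ℝ))
          (fun _ => ((k : ℂ) - 1) / 2) F s =
        ε * (starRingEnd ℂ) (completed (Real.sqrt N / (2 * Real.pi))
          (fun _ : Fin 1 => (1 : ℝ)) (fun _ => ((k : ℂ) - 1) / 2) F
          (1 - (starRingEnd ℂ) s))) :
    (∃ q : ℚ, (q : ℝ) = N) ∧
    ∃ C : ℝ, ∀ x : ℝ, 2 ≤ x → |S (acl k A σ) x - Real.log (Real.log x)| ≤ C := by
  obtain ⟨G, _, hG⟩ := entire_of_weight k hk N hN (acl k A σ) F ε hS hε hfe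
  obtain ⟨q, hq⟩ := rational_conductor σ k (by omega) N hN A m hm hA hs G ε hε hG
  refine ⟨⟨q, hq⟩, ?_⟩
  have hq0 : 0 < q := by
    have : (0 : ℝ) < (q : ℝ) := by rw [hq]; exact hN
    exact_mod_cast this
  rw [← hq] at hfe
  exact main3 σ k hk q hq0 A m hm hA (sub_of_pol A hs) F ε hS hε hfe

end Pool.Agent.H99.NR
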