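import Mathlib
import Pool.Agent.H13.IC.Fk
import Pool.Agent.H99.NR.Asm

/-!
# THEOREM IC for every real conductor, final form (MP_8e9775_nt)

`main5`: one embedding `σ`, `m A(n)` integral, the other conjugates of polynomial growth, `k ≥ 2`,
`N > 0` real: `N` is rational and `S_F(x) = log log x + O(1)`. `main6`: the same with
`N` rational or the other conjugates of polynomial growth (subexponential growth in the first case).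
-/

set_option autoImplicit false

namespace Pool.Agent.H99.NR

open Complex NumberField Pool.Agent.H11.Selberg Pool.Agent.H11.SC Pool.Agent.H13.IC
open Pool.Agent.H97.ICB

/-- the given embedding has polynomial growth -/
theorem pol_self {L : Type} [Field L] [NumberField L] (σ : L →+* ℂ) (A : ℕ → L) (k : ℕ)
    (hk : 1 ≤ k) (a : ℕ → ℂ)
    (ha : ∀ δ : ℝ, 0 < δ → ∃ C : ℝ, ∀ n : ℕ, 1 ≤ n → ‖a n‖ ≤ C * (n : ℝ) ^ δ)
    (hA : ∀ n : ℕ, 1 ≤ n → σ (A n) = a n * (n : ℂ) ^ (((k : ℂ) - 1) / 2)) :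
    ∃ C : ℝ, ∀ n : ℕ, 1 ≤ n → ‖σ (A n)‖ ≤ C * (n : ℝ) ^ (k + 1) := by
  obtain ⟨C, hC⟩ := ha 1 one_pos
  refine ⟨C, fun n hn => ?_⟩
  have hn0 : (0 : ℝ) < (n : ℝ) := by exact_mod_cast hn
  have hn1 : (1 : ℝ) ≤ (n : ℝ) := by exact_mod_cast hn
  have h1 : ‖(n : ℂ) ^ (((k : ℂ) - 1) / 2)‖ ≤ (n : ℝ) ^ k := by
    have h2 : (((k : ℂ) - 1) / 2) = ((((k : ℝ) - 1) / 2 : ℝ) : ℂ) := by push_cast; ring
    rw [norm_natCast_cpow_of_pos (by omega), h2, Complex.ofReal_re, ← Real.rpow_natCast]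
    refine Real.rpow_le_rpow_of_exponent_le hn1 ?_
    have : (1 : ℝ) ≤ (k : ℝ) := by exact_mod_cast hk
    linarith
  calc ‖σ (A n)‖ = ‖a n‖ * ‖(n : ℂ) ^ (((k : ℂ) - 1) / 2)‖ := by rw [hA n hn, norm_mul]
    _ ≤ (C * (n : ℝ) ^ (1 : ℝ)) * (n : ℝ) ^ k :=
        mul_le_mul (hC n hn) h1 (norm_nonneg _) ((norm_nonneg _).trans (hC n hn))
    _ = C * (n : ℝ) ^ (k + 1) := by rw [Real.rpow_one, pow_succ]; ring

/-- polynomial growth of all conjugates from that of the others -/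
theorem polG_of {L : Type} [Field L] [NumberField L] (σ : L →+* ℂ) (A : ℕ → L) (k : ℕ)
    (hk : 1 ≤ k) (a : ℕ → ℂ)
    (ha : ∀ δ : ℝ, 0 < δ → ∃ C : ℝ, ∀ n : ℕ, 1 ≤ n → ‖a n‖ ≤ C * (n : ℝ) ^ δ)
    (hA : ∀ n : ℕ, 1 ≤ n → σ (A n) = a n * (n : ℂ) ^ (((k : ℂ) - 1) / 2))
    (hs : ∀ τ : L →+* ℂ, τ ≠ σ → ∃ (C : ℝ) (c : ℕ), ∀ n : ℕ, 1 ≤ n → ‖τ (A n)‖ ≤ C * (n : ℝ) ^ c) :
    PolG A := by
  classical
  have h1 : ∀ τ : L →+* ℂ, ∃ (C : ℝ) (c : ℕ), ∀ n : ℕ, 1 ≤ n → ‖τ (A n)‖ ≤ C * (n : ℝ) ^ c := by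
    intro τ
    by_cases h : τ = σ
    · rw [h]
      obtain ⟨C, hC⟩ := pol_self σ A k hk a ha hA
      exact ⟨C, k + 1, hC⟩
    · exact hs τ h
  choose C c hC using h1
  refine ⟨∑ τ, |C τ|, ∑ τ, c τ, fun τ n hn => (hC τ n hn).trans ?_⟩
  have hn1 : (1 : ℝ) ≤ (n : ℝ) := by exact_mod_cast hn
  have e1 : C τ ≤ ∑ τ, |C τ| := (le_abs_self _).trans
    (Finset.single_le_sum (f := fun τ => |C τ|) (fun _ _ => abs_nonneg _) (Finset.mem_univ τ))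
  have e2 : c τ ≤ ∑ τ, c τ :=
    Finset.single_le_sum (f := fun τ => c τ) (fun _ _ => Nat.zero_le _) (Finset.mem_univ τ)
  have e3 : (n : ℝ) ^ (c τ) ≤ (n : ℝ) ^ (∑ τ, c τ) := pow_le_pow_right₀ hn1 e2
  exact mul_le_mul e1 e3 (by positivity) (Finset.sum_nonneg fun _ _ => abs_nonneg _)

theorem main5 {L : Type} [Field L] [NumberField L] (σ : L →+* ℂ) (A : ℕ → L) (m : ℕ)
    (hm : 1 ≤ m) (hA : ∀ n, 1 ≤ n → IsIntegral ℤ ((m : L) * A n))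
    (hs : ∀ τ : L →+* ℂ, τ ≠ σ → ∃ (C : ℝ) (c : ℕ), ∀ n : ℕ, 1 ≤ n → ‖τ (A n)‖ ≤ C * (n : ℝ) ^ c)
    (k : ℕ) (hk : 2 ≤ k) (N : ℝ) (hN : 0 < N) (a : ℕ → ℂ) (F : ℂ → ℂ)
    (hS : IsSelberg a F)
    (ha : ∀ n : ℕ, 1 ≤ n → σ (A n) = a n * (n : ℂ) ^ (((k : ℂ) - 1) / 2)) (ε : ℂ)
    (hε : ‖ε‖ = 1)
    (hfe : ∀ s : ℂ, 0 < s.re → s.re < 1 →
      completed (Real.sqrt N / (2 * Real.pi)) (fun _ : Fin 1 => (1 : ℝ))
          (fun _ => ((k : ℂ) - 1) / 2) F s =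
        ε * (starRingEnd ℂ) (completed (Real.sqrt N / (2 * Real.pi))
          (fun _ : Fin 1 => (1 : ℝ)) (fun _ => ((k : ℂ) - 1) / 2) F
          (1 - (starRingEnd ℂ) s))) :
    (∃ q : ℚ, (q : ℝ) = N) ∧
    ∃ C : ℝ, ∀ x : ℝ, 2 ≤ x → |S a x - Real.log (Real.log x)| ≤ C := by
  have h1 : ∀ n : ℕ, 1 ≤ n → a n = acl k A σ n := by
    intro n hn
    have h0 : (n : ℂ) ≠ 0 := by exact_mod_cast (by omega : n ≠ 0)
    have h2 : (n : ℂ) ^ (((k : ℂ) - 1) / 2) ≠ 0 := by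
      rw [Ne, Complex.cpow_eq_zero_iff]
      exact fun h => h0 h.1
    unfold acl
    rw [ha n hn, Complex.cpow_neg, mul_assoc, mul_inv_cancel₀ h2, mul_one]
  have hS' := selberg_congr h1 hS
  have hP := polG_of σ A k (by omega) a hS.ramanujan ha hs
  obtain ⟨hq, C, hC⟩ := main_real σ k hk N hN A m hm hA hP F ε hS' hε hfe
  refine ⟨hq, C, fun x hx => ?_⟩
  rw [S_congr h1]
  exact hC x hx

/-- the final form: `N` rational and subexponential growth, or `N` real and polynomial growth -/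
theorem main6 {L : Type} [Field L] [NumberField L] (σ : L →+* ℂ) (A : ℕ → L) (m : ℕ)
    (hm : 1 ≤ m) (hA : ∀ n, 1 ≤ n → IsIntegral ℤ ((m : L) * A n))
    (k : ℕ) (hk : 2 ≤ k) (N : ℝ) (hN : 0 < N)
    (hs : (∀ τ : L →+* ℂ, τ ≠ σ → ∃ (C : ℝ) (c : ℕ), ∀ n : ℕ, 1 ≤ n →
        ‖τ (A n)‖ ≤ C * (n : ℝ) ^ c) ∨
      ((∃ q : ℚ, (q : ℝ) = N) ∧ ∀ τ : L →+* ℂ, τ ≠ σ → ∀ δ : ℝ, 0 < δ →
        ∃ C : ℝ, ∀ n : ℕ, 1 ≤ n → ‖τ (A n)‖ ≤ C * Real.exp (δ * n)))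
    (a : ℕ → ℂ) (F : ℂ → ℂ)
    (hS : IsSelberg a F)
    (ha : ∀ n : ℕ, 1 ≤ n → σ (A n) = a n * (n : ℂ) ^ (((k : ℂ) - 1) / 2)) (ε : ℂ)
    (hε : ‖ε‖ = 1)
    (hfe : ∀ s : ℂ, 0 < s.re → s.re < 1 →
      completed (Real.sqrt N / (2 * Real.pi)) (fun _ : Fin 1 => (1 : ℝ))
          (fun _ => ((k : ℂ) - 1) / 2) F s =
        ε * (starRingEnd ℂ) (completed (Real.sqrt N / (2 * Real.pi))
          (fun _ : Fin 1 => (1 : ℝ)) (fun _ => ((k : ℂ) - 1) / 2) F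
          (1 - (starRingEnd ℂ) s))) :
    (∃ q : ℚ, (q : ℝ) = N) ∧
    ∃ C : ℝ, ∀ x : ℝ, 2 ≤ x → |S a x - Real.log (Real.log x)| ≤ C := by
  rcases hs with hs | ⟨⟨q, hq⟩, hs⟩
  · exact main5 σ A m hm hA hs k hk N hN a F hS ha ε hε hfe
  · refine ⟨⟨q, hq⟩, ?_⟩
    have hq0 : 0 < q := by
      have : (0 : ℝ) < (q : ℝ) := by rw [hq]; exact hN
      exact_mod_cast this
    rw [← hq] at hfe
    exact main4 σ A m hm hA hs k hk q hq0 a F hS ha ε hε hfe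

end Pool.Agent.H99.NR
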