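import Pool.Agent.H99.NR.Defs
import Pool.Agent.H97.ICA.Exa

/-!
[H99 NR Bdd] Module of THEOREM NR (MP_8e9775_nt, think 1126 of helper99).

PROOF. With t = pi y in (0, pi]: (n+1)^q <= q! t^(-q) exp (t (n+1)) (Real.pow_div_factorial_le_exp at
t (n+1)), so norm (a n) exp (-2 pi n y) <= |C| q! t^(-q) exp pi exp (-t n); the sum over n is
|C| q! t^(-q) exp pi / (1 - exp (-t)) and 1/(1 - exp (-t)) <= 1 + 1/t <= (1 + pi)/t <= 5/t
(exp t >= 1 + t). So C1 = 1 + |C| q! exp pi * 5 works (t >= y). Then the second part of exa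
(norm (Fn a z) <= the majorant at height y). Cv a: n^q r^n is summable
(summable_pow_mul_geometric_of_norm_lt_one) or the same estimate.
-/

namespace Pool.Agent.H99.NR

open Complex NumberField Pool.Agent.H97.ICA

noncomputable section

private theorem cv_of_gr {C : ℝ} {q : ℕ} {a : ℕ → ℂ} (ha : Gr C q a) : Cv a := by
  intro r hr0 hr1
  obtain ⟨s, hrs, hs0, hs1⟩ : ∃ s : ℝ, r ≤ s ∧ 0 < s ∧ s < 1 :=
    ⟨max r (1 / 2), le_max_left _ _, lt_of_lt_of_le (by norm_num) (le_max_right _ _),
      max_lt hr1 (by norm_num)⟩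
  have h1 : Summable (fun n : ℕ => (n : ℝ) ^ q * s ^ n) :=
    summable_pow_mul_geometric_of_norm_lt_one q (by rw [Real.norm_of_nonneg hs0.le]; exact hs1)
  have h2 : Summable (fun n : ℕ => ((n + 1 : ℕ) : ℝ) ^ q * s ^ (n + 1)) := (summable_nat_add_iff 1).2 h1
  have h3 := h2.mul_left (|C| / s)
  refine Summable.of_nonneg_of_le (fun n => by positivity) (fun n => ?_) h3
  have h4 : ‖a n‖ ≤ |C| * ((n : ℝ) + 1) ^ q :=
    (ha n).trans (mul_le_mul_of_nonneg_right (le_abs_self C) (by positivity))
  calc ‖a n‖ * r ^ n ≤ (|C| * ((n : ℝ) + 1) ^ q) * s ^ n :=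
        mul_le_mul h4 (pow_le_pow_left₀ hr0 hrs n) (by positivity) (by positivity)
    _ = |C| / s * (((n + 1 : ℕ) : ℝ) ^ q * s ^ (n + 1)) := by
        push_cast
        rw [pow_succ s]
        field_simp

theorem bdd : BddStmt := by
  intro C q
  have hpi := Real.pi_pos
  refine ⟨1 + |C| * q.factorial * Real.exp Real.pi * 5, ?_, fun a ha => ⟨cv_of_gr ha, ?_⟩⟩
  · have : 0 ≤ |C| * q.factorial * Real.exp Real.pi * 5 := by positivity
    linarith
  · intro y hy hy1 z hz
    have hcv := cv_of_gr ha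
    refine ((exa a hcv z y hy hz).2.1).trans ?_
    set t : ℝ := Real.pi * y with ht
    have ht0 : 0 < t := by positivity
    have htpi : t ≤ Real.pi := by
      rw [ht]
      exact mul_le_of_le_one_right hpi.le hy1
    have hyt : y ≤ t := by
      rw [ht]
      have := Real.pi_gt_three
      nlinarith
    have h2 : ∀ n : ℕ, ‖a n‖ * Real.exp (-(2 * Real.pi * y * n)) ≤
        (|C| * q.factorial * (1 / t) ^ q * Real.exp Real.pi) * Real.exp (-t) ^ n := by
      intro n
      have h4 : ‖a n‖ ≤ |C| * ((n : ℝ) + 1) ^ q :=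
        (ha n).trans (mul_le_mul_of_nonneg_right (le_abs_self C) (by positivity))
      have h5 : (t * ((n : ℝ) + 1)) ^ q / q.factorial ≤ Real.exp (t * ((n : ℝ) + 1)) :=
        Real.pow_div_factorial_le_exp _ (by positivity) q
      have h6 : ((n : ℝ) + 1) ^ q ≤ q.factorial * (1 / t) ^ q * Real.exp (t * ((n : ℝ) + 1)) := by
        rw [div_le_iff₀ (by positivity), mul_pow] at h5
        calc ((n : ℝ) + 1) ^ q = (1 / t) ^ q * (t ^ q * ((n : ℝ) + 1) ^ q) := by
              rw [← mul_assoc, ← mul_pow, one_div, inv_mul_cancel₀ ht0.ne', one_pow, one_mul]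
          _ ≤ (1 / t) ^ q * (Real.exp (t * ((n : ℝ) + 1)) * q.factorial) :=
              mul_le_mul_of_nonneg_left h5 (by positivity)
          _ = q.factorial * (1 / t) ^ q * Real.exp (t * ((n : ℝ) + 1)) := by ring
      have h7 : Real.exp (t * ((n : ℝ) + 1)) * Real.exp (-(2 * Real.pi * y * n)) ≤
          Real.exp Real.pi * Real.exp (-t) ^ n := by
        rw [← Real.exp_nat_mul, ← Real.exp_add, ← Real.exp_add]
        refine Real.exp_le_exp.2 ?_
        have : t * ((n : ℝ) + 1) + -(2 * Real.pi * y * n) = t + n * -t := by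
          rw [ht]
          ring
        rw [this]
        linarith
      calc ‖a n‖ * Real.exp (-(2 * Real.pi * y * n))
          ≤ (|C| * ((n : ℝ) + 1) ^ q) * Real.exp (-(2 * Real.pi * y * n)) :=
            mul_le_mul_of_nonneg_right h4 (Real.exp_pos _).le
        _ ≤ (|C| * (q.factorial * (1 / t) ^ q * Real.exp (t * ((n : ℝ) + 1)))) *
            Real.exp (-(2 * Real.pi * y * n)) :=
            mul_le_mul_of_nonneg_right (mul_le_mul_of_nonneg_left h6 (abs_nonneg C)) (Real.exp_pos _).le
        _ = (|C| * q.factorial * (1 / t) ^ q) *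
            (Real.exp (t * ((n : ℝ) + 1)) * Real.exp (-(2 * Real.pi * y * n))) := by ring
        _ ≤ (|C| * q.factorial * (1 / t) ^ q) * (Real.exp Real.pi * Real.exp (-t) ^ n) :=
            mul_le_mul_of_nonneg_left h7 (by positivity)
        _ = (|C| * q.factorial * (1 / t) ^ q * Real.exp Real.pi) * Real.exp (-t) ^ n := by ring
    have he0 : 0 ≤ Real.exp (-t) := (Real.exp_pos _).le
    have he1 : Real.exp (-t) < 1 := by
      rw [Real.exp_lt_one_iff]
      linarith
    have hs2 : Summable fun n : ℕ =>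
        (|C| * q.factorial * (1 / t) ^ q * Real.exp Real.pi) * Real.exp (-t) ^ n :=
      (summable_geometric_of_lt_one he0 he1).mul_left _
    have hs1 : Summable fun n : ℕ => ‖a n‖ * Real.exp (-(2 * Real.pi * y * n)) :=
      Summable.of_nonneg_of_le (fun n => by positivity) h2 hs2
    refine (Summable.tsum_le_tsum h2 hs1 hs2).trans ?_
    rw [tsum_mul_left, tsum_geometric_of_lt_one he0 he1]
    have h8 : (1 - Real.exp (-t))⁻¹ ≤ 5 * (1 / t) := by
      have h9 : Real.exp (-t) ≤ 1 / (1 + t) := by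
        rw [Real.exp_neg, one_div]
        exact inv_anti₀ (by linarith) (by linarith [Real.add_one_le_exp t])
      have h10 : t / (1 + t) ≤ 1 - Real.exp (-t) := by
        have : t / (1 + t) = 1 - 1 / (1 + t) := by
          field_simp
          ring
        linarith
      have h11 : 1 + t ≤ 5 := by linarith [Real.pi_le_four]
      calc (1 - Real.exp (-t))⁻¹ ≤ (t / (1 + t))⁻¹ := inv_anti₀ (by positivity) h10
        _ = (1 + t) * (1 / t) := by
            rw [inv_div]
            ring
        _ ≤ 5 * (1 / t) := mul_le_mul_of_nonneg_right h11 (by positivity)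
    calc |C| * q.factorial * (1 / t) ^ q * Real.exp Real.pi * (1 - Real.exp (-t))⁻¹
        ≤ |C| * q.factorial * (1 / t) ^ q * Real.exp Real.pi * (5 * (1 / t)) :=
          mul_le_mul_of_nonneg_left h8 (by positivity)
      _ = |C| * q.factorial * Real.exp Real.pi * 5 * (1 / t) ^ (q + 1) := by ring
      _ ≤ |C| * q.factorial * Real.exp Real.pi * 5 * (1 / y) ^ (q + 1) :=
          mul_le_mul_of_nonneg_left (pow_le_pow_left₀ (by positivity)
            (one_div_le_one_div_of_le hy hyt) (q + 1)) (by positivity)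
      _ ≤ (1 + |C| * q.factorial * Real.exp Real.pi * 5) * (1 / y) ^ (q + 1) :=
          mul_le_mul_of_nonneg_right (by linarith) (by positivity)

end

end Pool.Agent.H99.NR
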