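import Pool.Agent.H99.NR.Defs
import Pool.Agent.H97.ICA.Evb
import Pool.Agent.H97.ICA.Eva
import Pool.Agent.H97.ICA.Cau
import Pool.Agent.H97.ICA.Exa

/-!
[H99 NR Coe] Module of THEOREM NR (MP_8e9775_nt, think 1126 of helper99).

PROOF. Copy H97/ICA/Coe.lean with hB = evb eva, hC = cau exa and height y instead of 1.
-/

namespace Pool.Agent.H99.NR

open Complex NumberField Pool.Agent.H97.ICA

noncomputable section

theorem coq : CoeStmt := by
  have hB := evb eva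
  have hC := cau exa
  intro v hv y B hy hB1 hb t l n
  set P : MvPolynomial (Fin 3) ℂ := MvPolynomial.X 0 ^ (l.1 : ℕ) * MvPolynomial.X 1 ^ (l.2 : ℕ) *
      MvPolynomial.X 2 ^ (2 * t - (l.1 : ℕ) - (l.2 : ℕ)) with hP
  have hMo : MvPolynomial.aeval (fun i => PowerSeries.mk (v i)) P = Mo t v l := by
    simp [hP, Mo]
  obtain ⟨h1, h2⟩ := hB v hv P
  rw [hMo] at h1 h2
  have hl1 : (l.1 : ℕ) ≤ t := Nat.lt_succ_iff.mp l.1.2
  have hl2 : (l.2 : ℕ) ≤ t := Nat.lt_succ_iff.mp l.2.2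
  have hdeg : (l.1 : ℕ) + (l.2 : ℕ) + (2 * t - (l.1 : ℕ) - (l.2 : ℕ)) = 2 * t := by omega
  refine hC _ h1 y (B ^ (2 * t)) hy ?_ n
  intro x _
  have him : ((x : ℂ) + (y : ℂ) * Complex.I).im = y := by simp
  have hx := h2 ((x : ℂ) + (y : ℂ) * Complex.I) (by rw [him]; exact hy)
  rw [hx, hP]
  simp only [map_mul, map_pow, MvPolynomial.eval_X, norm_mul, norm_pow]
  have hbi : ∀ i, ‖Fn (v i) ((x : ℂ) + (y : ℂ) * Complex.I)‖ ≤ B := fun i =>
    hb i _ (by rw [him])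
  calc _ ≤ B ^ (l.1 : ℕ) * B ^ (l.2 : ℕ) * B ^ (2 * t - (l.1 : ℕ) - (l.2 : ℕ)) := by
        gcongr
        · exact hbi 0
        · exact hbi 1
        · exact hbi 2
    _ = B ^ (2 * t) := by rw [← pow_add, ← pow_add, hdeg]

end

end Pool.Agent.H99.NR
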