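import Pool.Agent.H99.NR.Defs

/-!
[H99 NR Ctr] Module of THEOREM NR (MP_8e9775_nt, think 1126 of helper99).

PROOF. Copy H13/IC/Ho.lean (finite_roots, with e = 1) for functions on {z | 0 < im z}. By contradiction: for all
i < j a point where F i and F j differ. The finite product of all F i - F j (i < j) and of the nonzero
c i0 is not identically zero (identity theorem: the ring of holomorphic functions on the connected
open half plane is a domain: AnalyticOnNhd.eqOn_zero_of_preconnected_of_frequently_eq_zero or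
eqOn_zero_or_eventually_ne_zero_of_preconnected). At a good point τ the polynomial
sum c i τ X^i is nonzero of degree <= T with T + 1 distinct roots F j τ (Polynomial.card_roots').
-/

namespace Pool.Agent.H99.NR

open Complex NumberField Pool.Agent.H97.ICA

noncomputable section

private theorem up_open : IsOpen {z : ℂ | 0 < z.im} := isOpen_lt continuous_const Complex.continuous_im

private theorem up_pre : IsPreconnected {z : ℂ | 0 < z.im} :=
  (convex_halfSpace_im_gt 0).isPreconnected

private theorem mul_ne' {f g : ℂ → ℂ} (hf : DifferentiableOn ℂ f {z | 0 < z.im})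
    (hg : DifferentiableOn ℂ g {z | 0 < z.im}) (hf0 : ∃ z : ℂ, 0 < z.im ∧ f z ≠ 0)
    (hg0 : ∃ z : ℂ, 0 < z.im ∧ g z ≠ 0) : ∃ z : ℂ, 0 < z.im ∧ f z * g z ≠ 0 := by
  by_contra hcon
  push Not at hcon
  obtain ⟨z0, hz0, hgz⟩ := hg0
  obtain ⟨z1, hz1, hfz⟩ := hf0
  have hfa : AnalyticOnNhd ℂ f {z | 0 < z.im} := hf.analyticOnNhd up_open
  have hgc : ContinuousAt g z0 := hg.continuousOn.continuousAt (up_open.mem_nhds hz0)
  have h2 : ∀ᶠ z in nhds z0, g z ≠ 0 := hgc.eventually_ne hgz
  have h3 : f =ᶠ[nhds z0] 0 := by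
    filter_upwards [h2, up_open.mem_nhds hz0] with z hz hz'
    exact (mul_eq_zero.1 (hcon z hz')).resolve_right hz
  have h4 := hfa.eqOn_zero_of_preconnected_of_eventuallyEq_zero up_pre hz0 h3
  exact hfz (h4 hz1)

private theorem prod_ne' {ι : Type} (s : Finset ι) (F : ι → ℂ → ℂ)
    (hF : ∀ i ∈ s, DifferentiableOn ℂ (F i) {z | 0 < z.im})
    (h0 : ∀ i ∈ s, ∃ z : ℂ, 0 < z.im ∧ F i z ≠ 0) :
    DifferentiableOn ℂ (fun z => ∏ i ∈ s, F i z) {z | 0 < z.im} ∧
      ∃ z : ℂ, 0 < z.im ∧ ∏ i ∈ s, F i z ≠ 0 := by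
  classical
  induction s using Finset.induction_on with
  | empty =>
    simp only [Finset.prod_empty]
    exact ⟨differentiableOn_const _, ⟨Complex.I, by simp, one_ne_zero⟩⟩
  | insert a s ha ih =>
    obtain ⟨h1, h2⟩ := ih (fun i hi => hF i (Finset.mem_insert_of_mem hi))
      (fun i hi => h0 i (Finset.mem_insert_of_mem hi))
    simp only [Finset.prod_insert ha]
    exact ⟨(hF a (Finset.mem_insert_self a s)).mul h1,
      mul_ne' (hF a (Finset.mem_insert_self a s)) h1 (h0 a (Finset.mem_insert_self a s)) h2⟩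

theorem ctr : CtrStmt := by
  classical
  intro T c F hc hF hne hE
  by_contra hcon
  push Not at hcon
  obtain ⟨i0, z', hz', hi0⟩ := hne
  have hdiff : ∀ q ∈ (Finset.univ : Finset (Fin (T + 1))).offDiag,
      ∃ z : ℂ, 0 < z.im ∧ F q.1 z - F q.2 z ≠ 0 := by
    rintro ⟨i, j⟩ hq
    rw [Finset.mem_offDiag] at hq
    rcases lt_or_gt_of_ne hq.2.2 with h | h
    · obtain ⟨z, hz, h1⟩ := hcon i j h
      exact ⟨z, hz, sub_ne_zero.2 h1⟩
    · obtain ⟨z, hz, h1⟩ := hcon j i h
      exact ⟨z, hz, sub_ne_zero.2 (Ne.symm h1)⟩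
  obtain ⟨h1, h2⟩ := prod_ne' (Finset.univ : Finset (Fin (T + 1))).offDiag
    (fun q z => F q.1 z - F q.2 z) (fun q _ => (hF q.1).sub (hF q.2)) hdiff
  obtain ⟨z, hz, hτ⟩ := mul_ne' h1 (hc i0) h2 ⟨z', hz', hi0⟩
  have h3 : ∏ q ∈ (Finset.univ : Finset (Fin (T + 1))).offDiag, (F q.1 z - F q.2 z) ≠ 0 :=
    left_ne_zero_of_mul hτ
  have h4 : c i0 z ≠ 0 := right_ne_zero_of_mul hτ
  have hinj : Function.Injective (fun i : Fin (T + 1) => F i z) := by
    intro i j he
    by_contra hne
    rw [Finset.prod_ne_zero_iff] at h3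
    exact h3 (i, j) (Finset.mem_offDiag.2 ⟨Finset.mem_univ _, Finset.mem_univ _, hne⟩)
      (sub_eq_zero.2 he)
  obtain ⟨p, hp⟩ : ∃ p : Polynomial ℂ, p = ∑ i : Fin (T + 1),
    Polynomial.monomial (i : ℕ) (c i z) := ⟨_, rfl⟩
  have hp0 : p ≠ 0 := by
    intro h0
    have h5 : p.coeff (i0 : ℕ) = c i0 z := by
      rw [hp, Polynomial.finsetSum_coeff, Finset.sum_eq_single i0]
      · rw [Polynomial.coeff_monomial, if_pos rfl]
      · intro i _ hi
        rw [Polynomial.coeff_monomial, if_neg]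
        intro h6
        exact hi (Fin.ext h6)
      · intro h6
        exact absurd (Finset.mem_univ i0) h6
    rw [h0, Polynomial.coeff_zero] at h5
    exact h4 h5.symm
  have hdeg : p.natDegree ≤ T := by
    rw [hp]
    refine Polynomial.natDegree_sum_le_of_forall_le _ _ fun i _ => ?_
    refine (Polynomial.natDegree_monomial_le _).trans ?_
    exact Nat.lt_succ_iff.1 i.2
  have hroots : (Finset.univ.image fun i : Fin (T + 1) => F i z) ⊆ p.roots.toFinset := by
    intro w hw
    obtain ⟨j, _, rfl⟩ := Finset.mem_image.1 hw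
    rw [Multiset.mem_toFinset, Polynomial.mem_roots hp0, Polynomial.IsRoot.def, hp,
      Polynomial.eval_finsetSum]
    rw [← hE j z hz]
    refine Finset.sum_congr rfl fun i _ => ?_
    rw [Polynomial.eval_monomial]
  have h6 := Finset.card_le_card hroots
  rw [Finset.card_image_of_injective _ hinj, Finset.card_univ, Fintype.card_fin] at h6
  have h7 := (Multiset.toFinset_card_le p.roots).trans (Polynomial.card_roots' p)
  omega

end

end Pool.Agent.H99.NR
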