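import Pool.Agent.H97.ICA.Defs

/-!
THEOREM NR (MP_8e9775_nt, think 1126 of helper99): under the hypotheses of THEOREM IC the conductor
`N > 0`, a priori real, is rational.

Definitions and the statements of the modules. `Fn`, `Cv`, `Pr`, `PP`, `Mo` are those of H97/ICA.
-/

namespace Pool.Agent.H99.NR

open Complex NumberField Pool.Agent.H97.ICA

noncomputable section

/-- The sequence of the dilated series: `sum a n q^(d n)`. -/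
def dl {R : Type*} [Zero R] (d : ℕ) (a : ℕ → R) : ℕ → R := fun n => if d ∣ n then a (n / d) else 0

/-- Polynomial growth. -/
def Gr (C : ℝ) (q : ℕ) (a : ℕ → ℂ) : Prop := ∀ n : ℕ, ‖a n‖ ≤ C * ((n : ℝ) + 1) ^ q

/-- `f` is invariant, in weight `k`, under the parabolic element `T^r (1 0; x 1) T^(-r)`. -/
def Inv (k : ℕ) (f : ℂ → ℂ) (r x : ℝ) : Prop :=
  ∀ w : ℂ, 0 < w.im → f (r + w / (x * w + 1)) = ((x : ℂ) * w + 1) ^ k * f (r + w)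

theorem dl_map {R S : Type*} [Zero R] [Zero S] (f : R → S) (h0 : f 0 = 0) (d : ℕ) (a : ℕ → R) :
    (fun n => f (dl d a n)) = dl d (fun n => f (a n)) := by
  funext n
  unfold dl
  split_ifs
  · rfl
  · exact h0

/-! ### Part 1: the relation -/

/-- [REF] the reflection lemma, quantitative in `M`. -/
def RefStmt : Prop :=
  ∀ (M : ℝ), 4 ≤ M → ∀ (K : ℕ) (h hs : ℕ → ℂ), Pr M K h hs →
    ∀ (y B : ℝ), 0 < y → y ≤ 1 / (2 * M) → 0 ≤ B →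
    (∀ z : ℂ, y ≤ z.im → ‖Fn h z‖ ≤ B) →
    ∀ n : ℕ, (∀ j < n, h j = 0) →
      ‖h n‖ ≤ B * (2 * Real.sqrt M) ^ K *
        Real.exp (2 * Real.pi * y * n - Real.pi * n / (2 * M ^ 2))

/-- [BDD] series with coefficients of polynomial growth. -/
def BddStmt : Prop :=
  ∀ (C : ℝ) (q : ℕ), ∃ C1 : ℝ, 1 ≤ C1 ∧ ∀ a : ℕ → ℂ, Gr C q a → Cv a ∧
    ∀ y : ℝ, 0 < y → y ≤ 1 → ∀ z : ℂ, y ≤ z.im → ‖Fn a z‖ ≤ C1 * (1 / y) ^ (q + 1)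

/-- [DIL] dilation. -/
def DilStmt : Prop :=
  ∀ (a : ℕ → ℂ) (d : ℕ), 1 ≤ d → Cv a → Cv (dl d a) ∧ ∀ z : ℂ, 0 < z.im →
    Fn (dl d a) z = Fn a (d * z)

/-- [SIE] Siegel's lemma with exponent at most one. -/
def SieStmt : Prop :=
  ∀ (L : Type) [Field L] [NumberField L], ∃ c1 : ℝ, 1 ≤ c1 ∧
    ∀ (lam : ℕ) (A : ℝ), 1 ≤ lam → 1 ≤ A →
    ∀ a : Matrix (Fin (lam * (2 * lam))) (Fin (2 * lam + 1) × Fin (2 * lam + 1)) (𝓞 L),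
      (∀ n l, house ((a n l : 𝓞 L) : L) ≤ A) →
      ∃ xi : Fin (2 * lam + 1) × Fin (2 * lam + 1) → 𝓞 L, xi ≠ 0 ∧ a.mulVec xi = 0 ∧
        ∀ l, house ((xi l : 𝓞 L) : L) ≤ c1 * (2 * (lam : ℝ) + 1) ^ 2 * A

/-- [COE] bound of the coefficients of the monomials, any height. -/
def CoeStmt : Prop :=
  ∀ (v : Fin 3 → ℕ → ℂ), (∀ i, Cv (v i)) → ∀ (y B : ℝ), 0 < y → 1 ≤ B →
    (∀ i, ∀ z : ℂ, y ≤ z.im → ‖Fn (v i) z‖ ≤ B) →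
    ∀ (t : ℕ) (l : Fin (t + 1) × Fin (t + 1)) (n : ℕ),
      ‖PowerSeries.coeff n (Mo t v l)‖ ≤ B ^ (2 * t) * Real.exp (2 * Real.pi * y * n)

/-- [REL] the relation, quantitative. -/
def RelStmt : Prop :=
  ∀ (L : Type) [Field L] [NumberField L], ∃ c1 : ℝ, 1 ≤ c1 ∧
    ∀ (M B : ℝ) (w lam : ℕ) (s0 : L →+* ℂ) (u : Fin 3 → ℕ → 𝓞 L) (v : Fin 3 → ℕ → ℂ),
      4 ≤ M → 1 ≤ B → 1 ≤ lam →
      (∀ (s : L →+* ℂ) (i : Fin 3), Cv (fun n => s (u i n : L))) →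
      (∀ i, Cv (v i)) →
      (∀ (s : L →+* ℂ) (i : Fin 3) (z : ℂ),
        1 / (16 * (Module.finrank ℚ L : ℝ) * M ^ 2) ≤ z.im → ‖Fn (fun n => s (u i n : L)) z‖ ≤ B) →
      (∀ (i : Fin 3) (z : ℂ), 0 < z.im →
        Fn (fun n => s0 (u i n : L)) (-1 / ((M : ℂ) * z)) =
          ((Real.sqrt M : ℂ) * z) ^ w * Fn (v i) z) →
      ((Module.finrank ℚ L : ℝ) * (4 + Real.log c1 + 4 * Real.log B) +
        2 * w * Real.log (2 * Real.sqrt M) < Real.pi * lam / (4 * M ^ 2)) →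
      ∃ xi : Fin (2 * lam + 1) × Fin (2 * lam + 1) → 𝓞 L, xi ≠ 0 ∧
        ∀ z : ℂ, 0 < z.im → MvPolynomial.eval (fun i => Fn (fun n => s0 (u i n : L)) z)
          (MvPolynomial.map (s0.comp (algebraMap (𝓞 L) L)) (PP (2 * lam) xi)) = 0

/-- [LAM] the choice of the parameter. -/
def LamStmt : Prop :=
  ∀ (D k q : ℕ) (N c1 C1 ε : ℝ), 1 ≤ D → 0 < N → 1 ≤ c1 → 1 ≤ C1 → 0 < ε →
    ∃ m1 : ℕ, 1 ≤ m1 ∧ ∀ m : ℕ, m1 ≤ m → 4 ≤ 2 * m * N ∧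
      ∃ lam : ℕ, 1 ≤ lam ∧ 2 * (lam : ℝ) ≤ ε * m ^ 3 ∧
      (D : ℝ) * (4 + Real.log c1 +
          4 * Real.log (C1 * (16 * D * (2 * m * N) ^ 2) ^ (q + 1))) +
        2 * k * Real.log (2 * Real.sqrt (2 * m * N)) < Real.pi * lam / (4 * (2 * m * N) ^ 2)

/-- [RUN] the relation between `f(z)`, `f(mz)`, `f(2mz)`, of degree at most `ε m ^ 3`. -/
def RunStmt : Prop :=
  ∀ (L : Type) [Field L] [NumberField L] (k : ℕ) (N C : ℝ) (q : ℕ) (A : ℕ → 𝓞 L) (s0 : L →+* ℂ)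
    (b : ℕ → ℂ), 0 < N → (∀ s : L →+* ℂ, Gr C q (fun n => s (A n : L))) → Cv b →
    (∀ z : ℂ, 0 < z.im → Fn (fun n => s0 (A n : L)) (-1 / ((N : ℂ) * z)) =
      ((Real.sqrt N : ℂ) * z) ^ k * Fn b z) →
    ∀ ε : ℝ, 0 < ε → ∃ m1 : ℕ, 1 ≤ m1 ∧ ∀ m : ℕ, m1 ≤ m →
      ∃ lam : ℕ, 1 ≤ lam ∧ 2 * (lam : ℝ) ≤ ε * m ^ 3 ∧
      ∃ p : Fin (2 * lam + 1) × Fin (2 * lam + 1) → ℂ, p ≠ 0 ∧
        ∀ z : ℂ, 0 < z.im → MvPolynomial.eval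
          ![Fn (fun n => s0 (A n : L)) z, Fn (fun n => s0 (A n : L)) (m * z),
            Fn (fun n => s0 (A n : L)) (2 * m * z)] (PP (2 * lam) p) = 0

/-! ### Part 2: cusps -/

/-- [CTR] `T + 1` holomorphic roots of a nonzero polynomial of degree at most `T`: two coincide. -/
def CtrStmt : Prop :=
  ∀ (T : ℕ) (c F : Fin (T + 1) → ℂ → ℂ),
    (∀ i, DifferentiableOn ℂ (c i) {z | 0 < z.im}) →
    (∀ i, DifferentiableOn ℂ (F i) {z | 0 < z.im}) →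
    (∃ i, ∃ z : ℂ, 0 < z.im ∧ c i z ≠ 0) →
    (∀ j, ∀ z : ℂ, 0 < z.im → ∑ i : Fin (T + 1), c i z * F j z ^ (i : ℕ) = 0) →
    ∃ i j : Fin (T + 1), i < j ∧ ∀ z : ℂ, 0 < z.im → F i z = F j z

/-- [NVA] `f(mz)` and `f(2mz)` are algebraically independent in the homogeneous sense. -/
def NvaStmt : Prop :=
  ∀ (a : ℕ → ℂ), Cv a → a 0 = 0 → a ≠ 0 → ∀ (m T D : ℕ), 1 ≤ m → T ≤ D →
    ∀ p : Fin (T + 1) → ℂ, p ≠ 0 → ∃ z : ℂ, 0 < z.im ∧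
      ∑ j : Fin (T + 1), p j * (Fn a (m * z) ^ (j : ℕ) * Fn a (2 * m * z) ^ (D - (j : ℕ))) ≠ 0

/-- [CUS] invariance at the rational points with denominator `m`. -/
def CusStmt : Prop :=
  ∀ (k : ℕ) (N : ℝ) (a : ℕ → ℂ), 0 < N → Cv a → a 0 = 0 → a ≠ 0 → Inv k (Fn a) 0 N →
    ∀ (m T : ℕ), 1 ≤ m → ∀ p : Fin (T + 1) × Fin (T + 1) → ℂ, p ≠ 0 →
      (∀ z : ℂ, 0 < z.im → MvPolynomial.eval ![Fn a z, Fn a (m * z), Fn a (2 * m * z)]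
        (PP T p) = 0) →
      ∀ r : ℤ, ∃ x : ℝ, 0 < x ∧ x ≤ 2 * m * N * T ∧ Inv k (Fn a) ((r : ℝ) / m) x

/-- [TRA] transport by the reflection. -/
def TraStmt : Prop :=
  ∀ (k : ℕ) (N : ℝ) (f g : ℂ → ℂ), 0 < N →
    (∀ z : ℂ, 0 < z.im → f (-1 / ((N : ℂ) * z)) = ((Real.sqrt N : ℂ) * z) ^ k * g z) →
    ((∀ z : ℂ, 0 < z.im → g (z + 1) = g z) → Inv k f 0 N) ∧
    (∀ z : ℂ, 0 < z.im →
      g (-1 / ((N : ℂ) * z)) = ((Real.sqrt N : ℂ) * z) ^ k * ((-1) ^ k * f z)) ∧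
    (∀ r x : ℝ, r ≠ 0 → 0 < x → Inv k g r x → Inv k f (-1 / (N * r)) (N * r ^ 2 * x))

/-! ### Part 3: Shimizu's lemma and the end -/

/-- `G` is invariant under the matrix `(a b; c d)` in weight `k`. -/
def IM (k : ℕ) (G : ℂ → ℂ) (a b c d : ℝ) : Prop :=
  a * d - b * c = 1 ∧ ∀ u : ℂ, 0 < u.im →
    G (((a : ℂ) * u + b) / ((c : ℂ) * u + d)) = ((c : ℂ) * u + d) ^ k * G u

/-- [SHA] moving `xi` to infinity. -/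
def ShaStmt : Prop :=
  ∀ (k : ℕ) (f : ℂ → ℂ) (xi y0 rho x : ℝ), DifferentiableOn ℂ f {z | 0 < z.im} → 0 < y0 →
    Inv k f xi y0 → Inv k f rho x → ∀ G : ℂ → ℂ,
    (∀ u : ℂ, G u = (u ^ k)⁻¹ * f (xi - 1 / (y0 * u))) →
    DifferentiableOn ℂ G {z | 0 < z.im} ∧ (∀ u : ℂ, 0 < u.im → G (u + 1) = G u) ∧
    IM k G (1 - (rho - xi) * x) (-(x / y0)) (y0 * (rho - xi) ^ 2 * x) (1 + (rho - xi) * x)

/-- [SHB] Shimizu's lemma: `G(z+1) = G(z)`, `G|(a b; c d) = G` and `0 < |c| < 1` imply `G' = 0`. -/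
def ShbStmt : Prop :=
  ∀ (k : ℕ) (G : ℂ → ℂ) (a b c d : ℝ), DifferentiableOn ℂ G {z | 0 < z.im} →
    (∀ u : ℂ, 0 < u.im → G (u + 1) = G u) → IM k G a b c d → c ≠ 0 → |c| < 1 →
    ∀ u : ℂ, 0 < u.im → deriv G u = 0

/-- [SHI] two parabolic elements with different fixed points and small product. -/
def ShiStmt : Prop :=
  ∀ (k : ℕ) (f : ℂ → ℂ) (xi y0 rho x : ℝ), 1 ≤ k → DifferentiableOn ℂ f {z | 0 < z.im} →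
    (∀ z : ℂ, 0 < z.im → f (z + 1) = f z) → 0 < y0 → 0 < x → rho ≠ xi →
    y0 * x * (rho - xi) ^ 2 < 1 → Inv k f xi y0 → Inv k f rho x → ∀ z : ℂ, 0 < z.im → f z = 0

/-- [DIO] Dirichlet's theorem with large denominators. -/
def DioStmt : Prop :=
  ∀ xi : ℝ, Irrational xi → ∀ m1 : ℕ, 1 ≤ m1 → ∃ (m : ℕ) (r : ℤ), m1 ≤ m ∧
    (r : ℝ) / m ≠ xi ∧ |(r : ℝ) / m - xi| ≤ 1 / (m : ℝ) ^ 2

/-- THEOREM NR. -/
def NRStmt : Prop :=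
  ∀ (L : Type) [Field L] [NumberField L] (k : ℕ) (N C : ℝ) (q : ℕ) (A : ℕ → 𝓞 L) (s0 : L →+* ℂ)
    (c : ℂ), 1 ≤ k → 0 < N → A 0 = 0 → A ≠ 0 →
    (∀ s : L →+* ℂ, Gr C q (fun n => s (A n : L))) → c ≠ 0 →
    (∀ z : ℂ, 0 < z.im → Fn (fun n => s0 (A n : L)) (-1 / ((N : ℂ) * z)) =
      ((Real.sqrt N : ℂ) * z) ^ k * (c * Fn (fun n => (starRingEnd ℂ) (s0 (A n : L))) z)) →
    ∃ r : ℚ, (r : ℝ) = N

end

end Pool.Agent.H99.NR
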