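import Pool.Agent.H99.NR.Defs
import Pool.Agent.H97.ICA.Exa

/-!
[H99 NR Dil] Module of THEOREM NR (MP_8e9775_nt, think 1126 of helper99).

PROOF. dl d a is supported on the multiples of d; the map m to d m is injective
(Function.Injective.tsum_eq, Function.Injective.summable_iff). Cv: the terms norm (a m) r^(d m) =
norm (a m) (r^d)^m with r^d < 1 (d >= 1). Fn: exp (2 pi i (d m) z) = exp (2 pi i m (d z)).
-/

namespace Pool.Agent.H99.NR

open Complex NumberField Pool.Agent.H97.ICA

noncomputable section

private theorem dl_mul (a : ℕ → ℂ) {d : ℕ} (hd : 1 ≤ d) (m : ℕ) : dl d a (d * m) = a m := by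
  unfold dl
  rw [if_pos (Dvd.intro m rfl), Nat.mul_div_cancel_left m (by omega)]

private theorem dl_zero (a : ℕ → ℂ) {d n : ℕ} (h : n ∉ Set.range fun m : ℕ => d * m) :
    dl d a n = 0 := by
  unfold dl
  rw [if_neg]
  rintro ⟨m, rfl⟩
  exact h ⟨m, rfl⟩

theorem dil : DilStmt := by
  intro a d hd ha
  have hinj : Function.Injective fun m : ℕ => d * m := fun m m' h =>
    Nat.eq_of_mul_eq_mul_left (by omega) h
  refine ⟨fun r hr0 hr1 => ?_, fun z _ => ?_⟩
  · rw [← hinj.summable_iff (f := fun n : ℕ => ‖dl d a n‖ * r ^ n)]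
    · refine (ha (r ^ d) (pow_nonneg hr0 d) (pow_lt_one₀ hr0 hr1 (by omega))).congr fun m => ?_
      simp only [Function.comp_apply]
      rw [dl_mul a hd, pow_mul]
    · intro n hn
      rw [dl_zero a hn, norm_zero, zero_mul]
  · unfold Fn
    rw [← hinj.tsum_eq]
    · refine tsum_congr fun m => ?_
      rw [dl_mul a hd]
      congr 2
      push_cast
      ring
    · intro n hn
      by_contra h
      apply hn
      simp only
      rw [dl_zero a h, zero_mul]

end

end Pool.Agent.H99.NR
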