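import Pool.Agent.H99.NR.Defs

/-!
[H99 NR Lam] Module of THEOREM NR (MP_8e9775_nt, think 1126 of helper99).

PROOF. Let R(m) be the left side (of the last inequality). log (C1 (16 D (2mN)^2)^(q+1)) =
log C1 + (q+1)(log (64 D N^2) + 2 log m), log (2 sqrt (2mN)) = log 2 + (log (2N) + log m)/2: so
R(m) = α + β log m with constants α, β. Take lam = floor (ε m^3/2) (Nat.floor): for m large
lam >= ε m^3/4 >= 1, 2 lam <= ε m^3 and pi lam/(4 (2mN)^2) >= pi ε m/(64 N^2) > α + β log m for m large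
(Real.isLittleO_log_id_atTop or: log m / m tends to 0). 4 <= 2mN for m large.
-/

namespace Pool.Agent.H99.NR

open Complex NumberField Pool.Agent.H97.ICA

noncomputable section

private theorem lin_log (α β γ : ℝ) (hγ : 0 < γ) :
    ∀ᶠ m : ℕ in Filter.atTop, α + β * Real.log m < γ * m := by
  have hδ : 0 < γ / (4 * (|β| + 1)) := by positivity
  have h1 : ∀ᶠ x : ℝ in Filter.atTop, ‖Real.log x‖ ≤ γ / (4 * (|β| + 1)) * ‖id x‖ :=
    Real.isLittleO_log_id_atTop.def hδ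
  have h2 : ∀ᶠ x : ℝ in Filter.atTop, 4 * |α| / γ + 1 ≤ x := Filter.eventually_ge_atTop _
  have h3 := (tendsto_natCast_atTop_atTop (R := ℝ)).eventually (h1.and h2)
  refine h3.mono fun m hm => ?_
  obtain ⟨hm1, hm2⟩ := hm
  rw [Real.norm_eq_abs, Real.norm_eq_abs] at hm1
  have hm0 : (0 : ℝ) ≤ (m : ℝ) := Nat.cast_nonneg m
  simp only [id] at hm1
  rw [abs_of_nonneg hm0] at hm1
  have h5 : β * Real.log m ≤ γ / 4 * m := by
    calc β * Real.log m ≤ |β * Real.log m| := le_abs_self _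
      _ = |β| * |Real.log m| := abs_mul _ _
      _ ≤ |β| * (γ / (4 * (|β| + 1)) * m) := mul_le_mul_of_nonneg_left hm1 (abs_nonneg _)
      _ = γ / 4 * m * (|β| / (|β| + 1)) := by
          have : |β| + 1 ≠ 0 := by positivity
          field_simp
      _ ≤ γ / 4 * m * 1 := by
          refine mul_le_mul_of_nonneg_left ?_ (by positivity)
          rw [div_le_one (by positivity)]
          linarith
      _ = γ / 4 * m := mul_one _
  have h6 : |α| + γ / 4 ≤ γ / 4 * m := by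
    have h7 : γ / 4 * (4 * |α| / γ + 1) ≤ γ / 4 * m :=
      mul_le_mul_of_nonneg_left hm2 (by positivity)
    have h8 : γ / 4 * (4 * |α| / γ + 1) = |α| + γ / 4 := by
      field_simp
    linarith
  have h9 := le_abs_self α
  have h10 : 0 ≤ γ * m := by positivity
  nlinarith

theorem lam_exists : LamStmt := by
  intro D k q N c1 C1 ε hD hN hc1 hC1 hε
  have hDr : (1 : ℝ) ≤ (D : ℝ) := by exact_mod_cast hD
  have hD0 : (0 : ℝ) < (D : ℝ) := by linarith
  have hC0 : 0 < C1 := by linarith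
  obtain ⟨α, hα⟩ : ∃ α : ℝ, α = (D : ℝ) * (4 + Real.log c1 + 4 * (Real.log C1 +
      ((q : ℝ) + 1) * Real.log (64 * D * N ^ 2))) +
      2 * k * (Real.log 2 + 1 / 2 * Real.log (2 * N)) := ⟨_, rfl⟩
  obtain ⟨β, hβ⟩ : ∃ β : ℝ, β = (D : ℝ) * (8 * ((q : ℝ) + 1)) + k := ⟨_, rfl⟩
  obtain ⟨γ, hγ⟩ : ∃ γ : ℝ, γ = Real.pi * ε / (64 * N ^ 2) := ⟨_, rfl⟩
  have hγ0 : 0 < γ := by
    rw [hγ]
    have := Real.pi_pos
    positivity
  have e1 : ∀ᶠ m : ℕ in Filter.atTop, 2 / N ≤ (m : ℝ) :=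
    (tendsto_natCast_atTop_atTop (R := ℝ)).eventually (Filter.eventually_ge_atTop _)
  have e2 : ∀ᶠ m : ℕ in Filter.atTop, 4 / ε ≤ (m : ℝ) :=
    (tendsto_natCast_atTop_atTop (R := ℝ)).eventually (Filter.eventually_ge_atTop _)
  have e3 := lin_log α β γ hγ0
  have e4 : ∀ᶠ m : ℕ in Filter.atTop, 1 ≤ m := Filter.eventually_ge_atTop _
  obtain ⟨m1, hm1⟩ := Filter.eventually_atTop.1 (e1.and (e2.and (e3.and e4)))
  refine ⟨max m1 1, le_max_right _ _, fun m hm => ?_⟩
  obtain ⟨g1, g2, g3, g4⟩ := hm1 m ((le_max_left _ _).trans hm)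
  have hmr : (1 : ℝ) ≤ (m : ℝ) := by exact_mod_cast g4
  have hm0 : (0 : ℝ) < (m : ℝ) := by linarith
  have k1 : 4 ≤ 2 * (m : ℝ) * N := by
    rw [div_le_iff₀ hN] at g1
    linarith
  refine ⟨k1, ⌊ε * (m : ℝ) ^ 3 / 2⌋₊, ?_, ?_, ?_⟩
  · rw [Nat.one_le_floor_iff]
    rw [div_le_iff₀ hε] at g2
    have : (m : ℝ) ≤ (m : ℝ) ^ 3 := le_self_pow₀ hmr (by norm_num)
    nlinarith
  · have := Nat.floor_le (show 0 ≤ ε * (m : ℝ) ^ 3 / 2 by positivity)
    linarith
  · have k2 : ε * (m : ℝ) ^ 3 / 4 ≤ (⌊ε * (m : ℝ) ^ 3 / 2⌋₊ : ℝ) := by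
      have h1 := Nat.lt_floor_add_one (ε * (m : ℝ) ^ 3 / 2)
      have h2 : 4 ≤ ε * (m : ℝ) ^ 3 := by
        rw [div_le_iff₀ hε] at g2
        have : (m : ℝ) ≤ (m : ℝ) ^ 3 := le_self_pow₀ hmr (by norm_num)
        nlinarith
      linarith
    have k3 : γ * m ≤ Real.pi * (⌊ε * (m : ℝ) ^ 3 / 2⌋₊ : ℝ) / (4 * (2 * m * N) ^ 2) := by
      calc γ * m = Real.pi * (ε * (m : ℝ) ^ 3 / 4) / (4 * (2 * m * N) ^ 2) := by
            rw [hγ]
            field_simp
            ring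
        _ ≤ _ := by
            have := Real.pi_pos
            gcongr
    have k4 : (D : ℝ) * (4 + Real.log c1 +
          4 * Real.log (C1 * (16 * D * (2 * m * N) ^ 2) ^ (q + 1))) +
        2 * k * Real.log (2 * Real.sqrt (2 * m * N)) = α + β * Real.log m := by
      have h1 : Real.log (C1 * (16 * D * (2 * m * N) ^ 2) ^ (q + 1)) = Real.log C1 +
          ((q : ℝ) + 1) * (Real.log (64 * D * N ^ 2) + 2 * Real.log m) := by
        have h2 : (16 : ℝ) * D * (2 * m * N) ^ 2 = (64 * D * N ^ 2) * (m : ℝ) ^ 2 := by ring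
        rw [Real.log_mul (by positivity) (by positivity), Real.log_pow, h2,
          Real.log_mul (by positivity) (by positivity), Real.log_pow]
        push_cast
        ring
      have h3 : Real.log (2 * Real.sqrt (2 * m * N)) = Real.log 2 +
          1 / 2 * (Real.log (2 * N) + Real.log m) := by
        have h4 : (2 : ℝ) * m * N = (2 * N) * m := by ring
        rw [Real.log_mul (by norm_num) (by positivity), Real.log_sqrt (by positivity), h4,
          Real.log_mul (by positivity) (by positivity)]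
        ring
      rw [h1, h3, hα, hβ]
      ring
    rw [k4]
    exact lt_of_lt_of_le g3 k3

end

end Pool.Agent.H99.NR
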