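import Pool.Agent.H99.NR.Defs
import Pool.Agent.H97.ICA.Main

/-!
[H99 NR Ref] Module of THEOREM NR (MP_8e9775_nt, think 1126 of helper99).

PROOF. Write mx for mxp exa (MaxStmt), st for stc exa (StcStmt), per for the third part of exa (period 1, also
all integer translations by induction). E0 = exp (-2 pi n (1/M - y)).
(a) mx at height y, order n: norm (Fn h w) <= B exp (-2 pi (im w - y) n) for im w >= y.
(b) z = x + i/2 with |x| <= 1/2: normSq z <= 1/2, w = -1/(Mz) has im w = (1/2)/(M normSq z) >= 1/M >= y,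
    so norm (Fn h w) <= B E0; by the functional equation (Pr.fe) Fn h w = (sqrt M z)^K Fn hs z with
    norm (sqrt M z) >= sqrt M/2 >= 1: norm (Fn hs z) <= B E0. By periodicity the same for all real x;
    mx with order 0 for hs at height 1/2: norm (Fn hs z) <= B E0 for im z >= 1/2.
(c) z = x + i/(2M), |x| <= 1/(2M): w = -1/(Mz), normSq z <= 1/(2M^2), im w = (1/(2M))/(M normSq z) >= 1,
    norm (sqrt M w) = 1/(sqrt M norm z) <= 2 sqrt M (norm z >= 1/(2M)), z = -1/(Mw): Pr.fe at w and (b):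
    norm (Fn h z) <= (2 sqrt M)^K B E0 =: E.
(d) st with height 1/(2M), B' = B exp (-2 pi (1/(2M) - y) n) (from (a)), E, x1 = 1/(2M), J = ceil M
    (M <= J <= 2M): norm (h n)^J <= B'^(J-1) E exp (2 pi (1/(2M)) n J)
    = B^J (2 sqrt M)^K exp (2 pi n y J - pi n/M) <= X^J with X the right side of the claim, because
    (2 sqrt M)^K <= (2 sqrt M)^(K J) and - pi n/M <= - pi n J/(2 M^2) (J <= 2M). Then
    pow_le_pow_left_iff (J >= 1).
-/

namespace Pool.Agent.H99.NR

open Complex NumberField Pool.Agent.H97.ICA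

noncomputable section

private theorem im_w' (M : ℝ) (hM : 0 < M) (z : ℂ) :
    (-1 / ((M : ℂ) * z)).im = z.im / (M * Complex.normSq z) := by
  have h1 : (-1 : ℂ) / ((M : ℂ) * z) = -(((M : ℂ) * z)⁻¹) := by
    rw [neg_div, one_div]
  rw [h1, Complex.neg_im, Complex.inv_im, Complex.normSq_mul, Complex.normSq_ofReal]
  have h2 : ((M : ℂ) * z).im = M * z.im := by
    simp [Complex.mul_im]
  rw [h2]
  have : M ≠ 0 := hM.ne'
  rw [neg_div, neg_neg]
  rw [div_eq_mul_inv, div_eq_mul_inv, mul_inv, mul_inv, mul_inv]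
  calc M * z.im * (M⁻¹ * M⁻¹ * (Complex.normSq z)⁻¹)
      = (M * M⁻¹) * (z.im * (M⁻¹ * (Complex.normSq z)⁻¹)) := by ring
    _ = z.im * (M⁻¹ * (Complex.normSq z)⁻¹) := by rw [mul_inv_cancel₀ this, one_mul]

private theorem per_int (h : ℕ → ℂ) (hc : Cv h) (z : ℂ) (hz : 0 < z.im) (k : ℤ) :
    Fn h (z + k) = Fn h z := by
  have hp : ∀ w : ℂ, 0 < w.im → Fn h (w + 1) = Fn h w := fun w hw =>
    (exa h hc w w.im hw le_rfl).2.2
  induction k using Int.induction_on with
  | zero => simp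
  | succ i ih =>
    have h1 : z + ((i : ℤ) + 1 : ℤ) = (z + ((i : ℤ) : ℂ)) + 1 := by push_cast; ring
    rw [h1, hp _ (by simpa using hz)]
    exact ih
  | pred i ih =>
    have h1 : z + ((-(i : ℤ) : ℤ) : ℂ) = (z + ((-(i : ℤ) - 1 : ℤ) : ℂ)) + 1 := by push_cast; ring
    rw [h1, hp _ (by simpa using hz)] at ih
    exact ih

theorem refq : RefStmt := by
  intro M hM K h hs hP y B hy hyM hB hbd n hn
  have hM0 : 0 < M := by linarith
  have hpi := Real.pi_pos
  have hn0 : (0 : ℝ) ≤ n := Nat.cast_nonneg n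
  have hsq : 0 < Real.sqrt M := Real.sqrt_pos.2 hM0
  have hs2 : 2 ≤ Real.sqrt M := by
    rw [Real.le_sqrt' (by norm_num)]
    linarith
  have hMs : Real.sqrt M * Real.sqrt M = M := Real.mul_self_sqrt hM0.le
  -- (a)
  have ha : ∀ w : ℂ, y ≤ w.im → ‖Fn h w‖ ≤ B * Real.exp (-(2 * Real.pi * (w.im - y) * n)) :=
    mxp exa h hP.ch y B hy (fun x => hbd _ (by simp)) n hn
  have hyM' : y ≤ 1 / M := by
    refine hyM.trans (one_div_le_one_div_of_le hM0 (by linarith))
  -- (b)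
  set E0 : ℝ := Real.exp (-(2 * Real.pi * (1 / M - y) * n)) with hE0
  have hE0p : 0 < E0 := Real.exp_pos _
  have hb1 : ∀ x : ℝ, |x| ≤ 1 / 2 → ‖Fn hs (x + ((1 / 2 : ℝ) : ℂ) * Complex.I)‖ ≤ B * E0 := by
    intro x hx
    set z : ℂ := (x : ℂ) + ((1 / 2 : ℝ) : ℂ) * Complex.I with hzdef
    have hzim : z.im = 1 / 2 := by simp [hzdef]
    have hzre : z.re = x := by simp [hzdef]
    have hns : Complex.normSq z = x ^ 2 + 1 / 4 := by
      rw [Complex.normSq_apply, hzim, hzre]; ring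
    have hx2 : x ^ 2 ≤ 1 / 4 := by
      have := sq_le_sq' (abs_le.1 hx).1 (abs_le.1 hx).2
      linarith
    have hw := im_w' M hM0 z
    rw [hns, hzim] at hw
    have hwim : 1 / M ≤ (-1 / ((M : ℂ) * z)).im := by
      rw [hw, div_le_div_iff₀ hM0 (by positivity)]
      nlinarith
    have h1 := ha _ (hyM'.trans hwim)
    have h2 : B * Real.exp (-(2 * Real.pi * ((-1 / ((M : ℂ) * z)).im - y) * n)) ≤ B * E0 := by
      refine mul_le_mul_of_nonneg_left (Real.exp_le_exp.2 ?_) hB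
      have h3 : 2 * Real.pi * (1 / M - y) * n ≤ 2 * Real.pi * ((-1 / ((M : ℂ) * z)).im - y) * n := by
        refine mul_le_mul_of_nonneg_right (mul_le_mul_of_nonneg_left (by linarith) (by positivity)) hn0
      linarith
    have h3 := h1.trans h2
    rw [hP.fe z (by rw [hzim]; norm_num), norm_mul, norm_pow, norm_mul, Complex.norm_real,
      Real.norm_of_nonneg hsq.le] at h3
    have h4 : (1 / 2 : ℝ) ≤ ‖z‖ := by
      have := Complex.abs_im_le_norm z
      rw [hzim, abs_of_pos (by norm_num)] at this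
      exact this
    have h5 : 1 ≤ Real.sqrt M * ‖z‖ := by nlinarith [norm_nonneg z]
    have h6 : 1 ≤ (Real.sqrt M * ‖z‖) ^ K := one_le_pow₀ h5
    calc ‖Fn hs z‖ = 1 * ‖Fn hs z‖ := (one_mul _).symm
      _ ≤ (Real.sqrt M * ‖z‖) ^ K * ‖Fn hs z‖ := mul_le_mul_of_nonneg_right h6 (norm_nonneg _)
      _ ≤ B * E0 := h3
  have hb2 : ∀ x : ℝ, ‖Fn hs (x + ((1 / 2 : ℝ) : ℂ) * Complex.I)‖ ≤ B * E0 := by
    intro x
    have h1 := hb1 (x - round x) (abs_sub_round x)
    have h2 := per_int hs hP.cs (((x - round x : ℝ) : ℂ) + ((1 / 2 : ℝ) : ℂ) * Complex.I) (by simp) (round x)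
    have h3 : (((x - round x : ℝ) : ℂ) + ((1 / 2 : ℝ) : ℂ) * Complex.I) + ((round x : ℤ) : ℂ) =
        (x : ℂ) + ((1 / 2 : ℝ) : ℂ) * Complex.I := by
      push_cast
      ring
    rw [h3] at h2
    rw [h2]
    exact h1
  have hb3 : ∀ w : ℂ, 1 / 2 ≤ w.im → ‖Fn hs w‖ ≤ B * E0 := by
    intro w hw
    have h1 := mxp exa hs hP.cs (1 / 2) (B * E0) (by norm_num) hb2 0 (fun j hj => absurd hj (by omega)) w hw
    simpa using h1
  -- (c)
  set η : ℝ := 1 / (2 * M) with hη
  have hη0 : 0 < η := by positivity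
  have hηM : M * η = 1 / 2 := by
    rw [hη]
    field_simp
  have hc : ∀ x : ℝ, |x| ≤ η → ‖Fn h (x + (η : ℂ) * Complex.I)‖ ≤
      (2 * Real.sqrt M) ^ K * (B * E0) := by
    intro x hx
    set z : ℂ := (x : ℂ) + (η : ℂ) * Complex.I with hzdef
    have hzim : z.im = η := by simp [hzdef]
    have hzre : z.re = x := by simp [hzdef]
    have hz0 : z ≠ 0 := by
      intro h0
      rw [h0] at hzim
      simp at hzim
      linarith
    have hMC : (M : ℂ) ≠ 0 := by exact_mod_cast hM0.ne'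
    have hns : Complex.normSq z = x ^ 2 + η ^ 2 := by
      rw [Complex.normSq_apply, hzim, hzre]; ring
    have hx2 : x ^ 2 ≤ η ^ 2 := sq_le_sq' (abs_le.1 hx).1 (abs_le.1 hx).2
    set w : ℂ := -1 / ((M : ℂ) * z) with hwdef
    have hw := im_w' M hM0 z
    rw [hns, hzim] at hw
    have hwim : 1 ≤ w.im := by
      rw [hw, le_div_iff₀ (by positivity), one_mul]
      calc M * (x ^ 2 + η ^ 2) ≤ M * (η ^ 2 + η ^ 2) :=
            mul_le_mul_of_nonneg_left (by linarith) hM0.le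
        _ = 2 * (M * η) * η := by ring
        _ = η := by rw [hηM]; ring
    have hwz : -1 / ((M : ℂ) * w) = z := by
      rw [hwdef]
      field_simp
    have hfe := hP.fe w (by linarith)
    rw [hwz] at hfe
    have hny : η ≤ ‖z‖ := by
      have : |z.im| ≤ ‖z‖ := Complex.abs_im_le_norm z
      rw [hzim, abs_of_pos hη0] at this
      exact this
    have hnw : Real.sqrt M * ‖w‖ ≤ 2 * Real.sqrt M := by
      rw [hwdef, norm_div, norm_neg, norm_one, norm_mul, Complex.norm_real, Real.norm_of_nonneg hM0.le]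
      have hzpos : 0 < ‖z‖ := lt_of_lt_of_le hη0 hny
      have h3 : 1 / (M * ‖z‖) ≤ 2 := by
        rw [div_le_iff₀ (by positivity)]
        have h4 : M * η ≤ M * ‖z‖ := mul_le_mul_of_nonneg_left hny hM0.le
        linarith
      calc Real.sqrt M * (1 / (M * ‖z‖)) ≤ Real.sqrt M * 2 := mul_le_mul_of_nonneg_left h3 hsq.le
        _ = 2 * Real.sqrt M := by ring
    rw [hfe, norm_mul, norm_pow, norm_mul, Complex.norm_real, Real.norm_of_nonneg hsq.le]
    exact mul_le_mul (pow_le_pow_left₀ (by positivity) hnw K) (hb3 w (by linarith)) (norm_nonneg _)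
      (by positivity)
  -- (d)
  have hyη : y ≤ η := hyM
  obtain ⟨J, hJ1, hJM, hJ2⟩ : ∃ J : ℕ, 1 ≤ J ∧ M ≤ J ∧ (J : ℝ) ≤ 2 * M := by
    refine ⟨⌈M⌉₊, Nat.one_le_ceil_iff.2 hM0, Nat.le_ceil M, ?_⟩
    have := (Nat.ceil_lt_add_one hM0.le).le
    linarith
  set B' : ℝ := B * Real.exp (-(2 * Real.pi * (η - y) * n)) with hB'
  have hd1 : ∀ x : ℝ, ‖Fn h (x + (η : ℂ) * Complex.I)‖ ≤ B' := by
    intro x
    have h1 : ((x : ℂ) + (η : ℂ) * Complex.I).im = η := by simp
    have h2 := ha ((x : ℂ) + (η : ℂ) * Complex.I) (by rw [h1]; exact hyη)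
    rw [h1] at h2
    exact h2
  have hx1 : 1 / (2 * (J : ℝ)) ≤ η := by
    rw [hη]
    exact one_div_le_one_div_of_le (by positivity) (by linarith)
  have hst := stc exa h hP.ch η B' ((2 * Real.sqrt M) ^ K * (B * E0)) η J hη0 (by positivity)
    (by positivity) hJ1 hx1 hd1 hc n hn
  have hJ0 : J ≠ 0 := by omega
  have hX0 : 0 ≤ B * (2 * Real.sqrt M) ^ K *
      Real.exp (2 * Real.pi * y * n - Real.pi * n / (2 * M ^ 2)) := by positivity
  rw [← pow_le_pow_iff_left₀ (norm_nonneg _) hX0 hJ0]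
  refine hst.trans ?_
  have hJr : (1 : ℝ) ≤ J := by exact_mod_cast hJ1
  have hS1 : 1 ≤ 2 * Real.sqrt M := by linarith
  have e1 : B' ^ (J - 1) * ((2 * Real.sqrt M) ^ K * (B * E0)) * Real.exp (2 * Real.pi * η * n * J) =
      B ^ J * (2 * Real.sqrt M) ^ K * Real.exp (2 * Real.pi * y * n * J - Real.pi * n / M) := by
    obtain ⟨J', rfl⟩ : ∃ J' : ℕ, J = J' + 1 := ⟨J - 1, by omega⟩
    rw [Nat.add_sub_cancel, hB', mul_pow, ← Real.exp_nat_mul, hE0, pow_succ B]
    have e2 : Real.exp (2 * Real.pi * y * n * ((J' + 1 : ℕ) : ℝ) - Real.pi * n / M) =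
        Real.exp ((J' : ℝ) * -(2 * Real.pi * (η - y) * n)) * Real.exp (-(2 * Real.pi * (1 / M - y) * n)) *
          Real.exp (2 * Real.pi * η * n * ((J' + 1 : ℕ) : ℝ)) := by
      rw [← Real.exp_add, ← Real.exp_add]
      congr 1
      rw [hη]
      push_cast
      field_simp
      ring
    rw [e2]
    ring
  have e3 : (B * (2 * Real.sqrt M) ^ K * Real.exp (2 * Real.pi * y * n - Real.pi * n / (2 * M ^ 2))) ^ J =
      B ^ J * (2 * Real.sqrt M) ^ (K * J) *
        Real.exp ((J : ℝ) * (2 * Real.pi * y * n - Real.pi * n / (2 * M ^ 2))) := by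
    rw [Real.exp_nat_mul, pow_mul, ← mul_pow, ← mul_pow]
  rw [e1, e3]
  refine mul_le_mul (mul_le_mul_of_nonneg_left (pow_le_pow_right₀ hS1 (Nat.le_mul_of_pos_right K (by omega)))
    (by positivity)) (Real.exp_le_exp.2 ?_) (Real.exp_pos _).le (by positivity)
  have h7 : (J : ℝ) * (Real.pi * n / (2 * M ^ 2)) ≤ Real.pi * n / M := by
    calc (J : ℝ) * (Real.pi * n / (2 * M ^ 2)) ≤ (2 * M) * (Real.pi * n / (2 * M ^ 2)) :=
          mul_le_mul_of_nonneg_right hJ2 (by positivity)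
      _ = Real.pi * n / M := by field_simp
  have h8 : (J : ℝ) * (2 * Real.pi * y * n - Real.pi * n / (2 * M ^ 2)) =
      2 * Real.pi * y * n * J - (J : ℝ) * (Real.pi * n / (2 * M ^ 2)) := by ring
  rw [h8]
  linarith

end

end Pool.Agent.H99.NR
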