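import Pool.Agent.H99.NR.Defs
import Pool.Agent.H97.ICA.Sie

/-!
[H99 NR Sie] Module of THEOREM NR (MP_8e9775_nt, think 1126 of helper99).

PROOF. Copy H97/ICA/Sie.lean (its private theorem aux packages Mathlib's constant c). C1 = max 1 |c|,
c1 = C1^2. p = lam (2 lam) equations, q = (2 lam + 1)^2 unknowns, e = p/(q - p) satisfies 0 <= e <= 1,
base C1 q A >= 1, so |c| |(c q A)^e| <= C1 (C1 q A)^1 = C1^2 q A. If a = 0 take xi = 1.
-/

namespace Pool.Agent.H99.NR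

open Complex NumberField Pool.Agent.H97.ICA

noncomputable section

private theorem aux (L : Type) [Field L] [NumberField L] : ∃ c : ℝ,
    ∀ (α β : Type) [Fintype α] [Fintype β] (a : Matrix α β (𝓞 L)) (p q : ℕ) (A : ℝ), a ≠ 0 →
      0 < p → p < q → Fintype.card β = q → Fintype.card α = p →
      (∀ k l, house (algebraMap (𝓞 L) L (a k l)) ≤ A) →
      ∃ ξ : β → 𝓞 L, ξ ≠ 0 ∧ a.mulVec ξ = 0 ∧
        ∀ l, house ((ξ l : 𝓞 L) : L) ≤ c * ((c * q * A) ^ ((p : ℝ) / (q - p))) := by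
  classical
  refine ⟨?_, ?_⟩
  rotate_left
  · intro α β _ _ a p q A ha h0p hpq hβ hα habs
    exact NumberField.house.exists_ne_zero_int_vec_house_le L a ha h0p hpq hβ habs hα

theorem siq : SieStmt := by
  classical
  intro L _ _
  obtain ⟨c, hc⟩ := aux L
  obtain ⟨C1, hC1⟩ : ∃ C1 : ℝ, C1 = max 1 |c| := ⟨_, rfl⟩
  have h1 : 1 ≤ C1 := hC1 ▸ le_max_left _ _
  have h2 : |c| ≤ C1 := hC1 ▸ le_max_right _ _
  refine ⟨C1 ^ 2, one_le_pow₀ h1, fun lam A hlam hA a ha => ?_⟩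
  have hlam' : (1 : ℝ) ≤ lam := by exact_mod_cast hlam
  by_cases ha0 : a = 0
  · subst ha0
    refine ⟨fun _ => 1, fun h0 => one_ne_zero (congrFun h0 (0, 0)), by simp, fun l => ?_⟩
    have h3 : house ((((1 : 𝓞 L)) : 𝓞 L) : L) = 1 := by
      have := house_intCast (K := L) 1
      simpa using this
    simp only [h3]
    have e1 : (1 : ℝ) ≤ C1 ^ 2 := one_le_pow₀ h1
    have e2 : (1 : ℝ) ≤ (2 * (lam : ℝ) + 1) ^ 2 := one_le_pow₀ (by linarith)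
    exact one_le_mul_of_one_le_of_one_le (one_le_mul_of_one_le_of_one_le e1 e2) hA
  have hp : 0 < lam * (2 * lam) := Nat.mul_pos hlam (by omega)
  have hpq : lam * (2 * lam) < (2 * lam + 1) ^ 2 := by nlinarith
  obtain ⟨ξ, h3, h4, h5⟩ := hc (Fin (lam * (2 * lam))) (Fin (2 * lam + 1) × Fin (2 * lam + 1)) a
    (lam * (2 * lam)) ((2 * lam + 1) ^ 2) A ha0 hp hpq (by simp [pow_two]) (by simp) ha
  refine ⟨ξ, h3, h4, fun l => (h5 l).trans ?_⟩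
  obtain ⟨e, he⟩ : ∃ e : ℝ, e = ((lam * (2 * lam) : ℕ) : ℝ) /
      ((((2 * lam + 1) ^ 2 : ℕ) : ℝ) - ((lam * (2 * lam) : ℕ) : ℝ)) := ⟨_, rfl⟩
  rw [← he]
  have hden : ((lam * (2 * lam) : ℕ) : ℝ) ≤
      (((2 * lam + 1) ^ 2 : ℕ) : ℝ) - ((lam * (2 * lam) : ℕ) : ℝ) := by
    push_cast
    nlinarith
  have hden0 : (0 : ℝ) < (((2 * lam + 1) ^ 2 : ℕ) : ℝ) - ((lam * (2 * lam) : ℕ) : ℝ) := by
    push_cast
    nlinarith
  have he0 : 0 ≤ e := by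
    rw [he]
    exact div_nonneg (Nat.cast_nonneg _) hden0.le
  have he1 : e ≤ 1 := by
    rw [he, div_le_one hden0]
    exact hden
  have eq0 : (1 : ℝ) ≤ (((2 * lam + 1) ^ 2 : ℕ) : ℝ) := by
    exact_mod_cast Nat.one_le_pow _ _ (Nat.succ_pos _)
  have hA0 : 0 ≤ A := by linarith
  have hb1 : 1 ≤ C1 * (((2 * lam + 1) ^ 2 : ℕ) : ℝ) * A :=
    one_le_mul_of_one_le_of_one_le (one_le_mul_of_one_le_of_one_le h1 eq0) hA
  have hb : |(c * (((2 * lam + 1) ^ 2 : ℕ) : ℝ) * A) ^ e| ≤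
      (C1 * (((2 * lam + 1) ^ 2 : ℕ) : ℝ) * A) ^ e := by
    refine (Real.abs_rpow_le_abs_rpow _ _).trans ?_
    refine Real.rpow_le_rpow (abs_nonneg _) ?_ he0
    rw [abs_mul, abs_mul, abs_of_nonneg (by positivity : (0 : ℝ) ≤ (((2 * lam + 1) ^ 2 : ℕ) : ℝ)),
      abs_of_nonneg hA0]
    gcongr
  have hb2 : (C1 * (((2 * lam + 1) ^ 2 : ℕ) : ℝ) * A) ^ e ≤
      C1 * (((2 * lam + 1) ^ 2 : ℕ) : ℝ) * A := by
    calc (C1 * (((2 * lam + 1) ^ 2 : ℕ) : ℝ) * A) ^ e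
        ≤ (C1 * (((2 * lam + 1) ^ 2 : ℕ) : ℝ) * A) ^ (1 : ℝ) :=
          Real.rpow_le_rpow_of_exponent_le hb1 he1
      _ = _ := Real.rpow_one _
  calc c * (c * (((2 * lam + 1) ^ 2 : ℕ) : ℝ) * A) ^ e
      ≤ |c| * |(c * (((2 * lam + 1) ^ 2 : ℕ) : ℝ) * A) ^ e| := by
        rw [← abs_mul]
        exact le_abs_self _
    _ ≤ C1 * (C1 * (((2 * lam + 1) ^ 2 : ℕ) : ℝ) * A) := by
        refine mul_le_mul h2 (hb.trans hb2) (abs_nonneg _) (by linarith)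
    _ = C1 ^ 2 * (2 * (lam : ℝ) + 1) ^ 2 * A := by
        push_cast
        ring

end

end Pool.Agent.H99.NR
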