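import Pool.Agent.H99.NR.Ref
import Pool.Agent.H99.NR.Sie
import Pool.Agent.H99.NR.Coe
import Pool.Agent.H97.ICA.Main

/-!
[H99 NR Rel] Module of THEOREM NR (MP_8e9775_nt, think 1126 of helper99).

PROOF. Copy the proof of thmA1 in H97/ICA/FinOne.lean (same objects). c1 from siq L. Put D = finrank,
y = 1/(16 D M^2), T = 2 lam (= the t of PP), matrix a n l = coeff n (Mo T u l), n < lam T, with bound
A = B^(2T) exp (2 pi y lam T) (coq for every embedding, height y; house = sup of the embeddings).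
xi with house <= Hx = c1 (T+1)^2 A. hfirst: the first lam T coefficients of H = aeval (mk u) (PP T xi)
vanish. If H is not 0 let n be the first nonzero index, n >= lam T. For every embedding s and
im z >= y: norm (value) <= (T+1)^2 Hx B^(2T) =: R (pol.2.2), so by cau exa at height y:
house (coeff n H) <= R exp (2 pi y n). For s0: refq with K = w (2T), B := R (y <= 1/(2M)):
norm (s0 (coeff n H)) <= R (2 sqrt M)^K exp (2 pi y n - pi n/(2M^2)). Product (norm_norm_le_norm_mul_house_pow,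
norm of the norm >= 1): 1 <= R^D (2 sqrt M)^K exp (2 pi y D n - pi n/(2M^2)). Logarithm:
R = c1 (T+1)^4 B^(4T) exp (2 pi y lam T), log (T+1) <= T, log c1 <= T log c1, lam T <= n,
4 pi y D = pi/(4M^2): 0 <= T (D (4 + log c1 + 4 log B) + 2 w log (2 sqrt M)) - pi n/(4M^2) < T pi lam/(4M^2)
- pi n/(4M^2) <= 0, contradiction. So H = 0 and the conclusion follows as at the end of thmA1.
-/

namespace Pool.Agent.H99.NR

open Complex NumberField Pool.Agent.H97.ICA

noncomputable section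

private theorem map_mk {R : Type} [CommRing R] (f : R →+* ℂ) (u : ℕ → R) :
    PowerSeries.map f (PowerSeries.mk u) = PowerSeries.mk (fun m => f (u m)) := by
  ext n
  simp

private theorem map_Mo {R : Type} [CommRing R] (f : R →+* ℂ) (t : ℕ) (u : Fin 3 → ℕ → R)
    (l : Fin (t + 1) × Fin (t + 1)) (n : ℕ) :
    f (PowerSeries.coeff n (Mo t u l)) = PowerSeries.coeff n (Mo t (fun i m => f (u i m)) l) := by
  rw [← PowerSeries.coeff_map]
  simp only [Mo, map_mul, map_pow, map_mk]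

private theorem im_pos {M : ℝ} (hM : 0 < M) {z : ℂ} (hz : 0 < z.im) :
    0 < (-1 / ((M : ℂ) * z)).im := by
  have h1 : (-1 / ((M : ℂ) * z)) = ((-(1 / M) : ℝ) : ℂ) * z⁻¹ := by
    push_cast
    field_simp
  have hz0 : z ≠ 0 := by
    rintro rfl
    simp at hz
  rw [h1, Complex.im_ofReal_mul, Complex.inv_im]
  have h2 : 0 < Complex.normSq z := Complex.normSq_pos.2 hz0
  have h3 : -(1 / M) * (-z.im / Complex.normSq z) = (1 / M) * (z.im / Complex.normSq z) := by ring
  rw [h3]
  positivity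

private theorem Fn_zero (z : ℂ) : Fn (fun _ => 0) z = 0 := by
  simp [Fn]

/-- the final inequality -/
private theorem fin_ineq (c1 B M y R A : ℝ) (w lam t n D : ℕ) (hc1 : 1 ≤ c1) (hB : 1 ≤ B)
    (hM : 4 ≤ M) (hlam : 1 ≤ lam) (ht : t = 2 * lam) (hD : 1 ≤ D)
    (hy : y = 1 / (16 * (D : ℝ) * M ^ 2))
    (hA : A = B ^ (2 * t) * Real.exp (2 * Real.pi * y * (lam * t)))
    (hR : R = ((t : ℝ) + 1) ^ 2 * (c1 * ((t : ℝ) + 1) ^ 2 * A) * B ^ (2 * t))
    (hcond : (D : ℝ) * (4 + Real.log c1 + 4 * Real.log B) +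
        2 * w * Real.log (2 * Real.sqrt M) < Real.pi * lam / (4 * M ^ 2))
    (hn : lam * t ≤ n) :
    R * (2 * Real.sqrt M) ^ (w * (2 * t)) *
        Real.exp (2 * Real.pi * y * n - Real.pi * n / (2 * M ^ 2)) *
      (R * Real.exp (2 * Real.pi * y * n)) ^ (D - 1) < 1 := by
  have hM0 : 0 < M := by linarith
  have hc0 : 0 < c1 := by linarith
  have hB0 : 0 < B := by linarith
  have hD0 : (0 : ℝ) < D := by exact_mod_cast hD
  have hpi := Real.pi_pos
  have hs0 : 0 < 2 * Real.sqrt M := by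
    have := Real.sqrt_pos.2 hM0
    linarith
  have htR : (t : ℝ) = 2 * lam := by rw [ht]; push_cast; ring
  have hlamR : (1 : ℝ) ≤ lam := by exact_mod_cast hlam
  have ht1 : (1 : ℝ) ≤ t := by rw [htR]; linarith
  have ht0 : (0 : ℝ) < (t : ℝ) + 1 := by positivity
  have pw : ∀ (x : ℝ) (m : ℕ), 0 < x → x ^ m = Real.exp (m * Real.log x) := by
    intro x m hx
    rw [Real.exp_nat_mul, Real.exp_log hx]
  obtain ⟨r, hr⟩ : ∃ r : ℝ, r = Real.log c1 + 4 * Real.log ((t : ℝ) + 1) + 4 * t * Real.log B +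
      2 * Real.pi * y * (lam * t) := ⟨_, rfl⟩
  have hRr : R = Real.exp r := by
    rw [hR, hA, hr, Real.exp_add, Real.exp_add, Real.exp_add, Real.exp_log hc0]
    have e1 : Real.exp (4 * Real.log ((t : ℝ) + 1)) = ((t : ℝ) + 1) ^ 2 * ((t : ℝ) + 1) ^ 2 := by
      rw [← pow_add, pw _ _ ht0]
      push_cast
      norm_num
    have e2 : Real.exp (4 * t * Real.log B) = B ^ (2 * t) * B ^ (2 * t) := by
      rw [← pow_add, pw _ _ hB0]
      push_cast
      ring_nf
    rw [e1, e2]
    ring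
  rw [hRr, pw _ _ hs0, ← Real.exp_add, ← Real.exp_add, ← Real.exp_add, ← Real.exp_nat_mul,
    ← Real.exp_add, Real.exp_lt_one_iff]
  have hDc : ((D - 1 : ℕ) : ℝ) = D - 1 := by
    rw [Nat.cast_sub hD, Nat.cast_one]
  rw [hDc]
  push_cast
  have e3 : r + w * (2 * t) * Real.log (2 * Real.sqrt M) +
      (2 * Real.pi * y * n - Real.pi * n / (2 * M ^ 2)) + (D - 1) * (r + 2 * Real.pi * y * n) =
      D * r + 2 * w * Real.log (2 * Real.sqrt M) * t + 2 * Real.pi * (y * D) * n -
        Real.pi * n / (2 * M ^ 2) := by ring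
  rw [e3]
  have hyD : y * D = 1 / (16 * M ^ 2) := by
    rw [hy]
    field_simp
  have e4 : D * r = D * (Real.log c1 + 4 * Real.log ((t : ℝ) + 1) + 4 * t * Real.log B) +
      2 * Real.pi * (y * D) * (lam * t) := by
    rw [hr]
    ring
  rw [e4, hyD]
  have hl1 : Real.log ((t : ℝ) + 1) ≤ t := by
    have := Real.log_le_sub_one_of_pos ht0
    linarith
  have hl2 : Real.log c1 ≤ t * Real.log c1 :=
    le_mul_of_one_le_left (Real.log_nonneg hc1) ht1
  have h5 : D * (Real.log c1 + 4 * Real.log ((t : ℝ) + 1) + 4 * t * Real.log B) ≤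
      D * (4 + Real.log c1 + 4 * Real.log B) * t := by
    have : Real.log c1 + 4 * Real.log ((t : ℝ) + 1) + 4 * t * Real.log B ≤
      (4 + Real.log c1 + 4 * Real.log B) * t := by linarith
    calc _ ≤ D * ((4 + Real.log c1 + 4 * Real.log B) * t) := by gcongr
      _ = _ := by ring
  have h6 : (D * (4 + Real.log c1 + 4 * Real.log B) +
        2 * w * Real.log (2 * Real.sqrt M)) * t < Real.pi * lam / (4 * M ^ 2) * t :=
    mul_lt_mul_of_pos_right hcond (by linarith)
  obtain ⟨Q, hQ⟩ : ∃ Q : ℝ, Q = Real.pi / (8 * M ^ 2) := ⟨_, rfl⟩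
  have hQ0 : 0 < Q := by rw [hQ]; positivity
  have e5 : Real.pi * lam / (4 * M ^ 2) * t = 2 * Q * (lam * t) := by
    rw [hQ]; field_simp; ring
  have e6 : 2 * Real.pi * (1 / (16 * M ^ 2)) * (lam * t) = Q * (lam * t) := by
    rw [hQ]; field_simp; ring
  have e7 : 2 * Real.pi * (1 / (16 * M ^ 2)) * n = Q * n := by
    rw [hQ]; field_simp; ring
  have e8 : Real.pi * n / (2 * M ^ 2) = 4 * Q * n := by
    rw [hQ]; field_simp; ring
  have hn' : (lam : ℝ) * t ≤ n := by exact_mod_cast hn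
  rw [e6, e7, e8]
  rw [e5] at h6
  have h7 : Q * (lam * t) ≤ Q * n := mul_le_mul_of_nonneg_left hn' hQ0.le
  nlinarith

theorem rel : RelStmt := by
  classical
  have hB := evb eva
  have hMp := mp
  have hP := pol
  have hCa := cau exa
  intro L _ _
  obtain ⟨c1, hc1, hS⟩ := siq L
  refine ⟨c1, hc1, ?_⟩
  intro M B w lam s0 u v hM hB1 hlam hcu hcv hbdd hfe hcond
  obtain ⟨D, hDdef⟩ : ∃ D : ℕ, D = Module.finrank ℚ L := ⟨_, rfl⟩
  rw [← hDdef] at hbdd hcond
  have hD1 : 1 ≤ D := by rw [hDdef]; exact Module.finrank_pos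
  have hpi := Real.pi_pos
  have hD0 : (0 : ℝ) < D := by exact_mod_cast hD1
  have hD1R : (1 : ℝ) ≤ D := by exact_mod_cast hD1
  have hM0 : 0 < M := by linarith
  have hB0 : 0 < B := by linarith
  obtain ⟨y, hy⟩ : ∃ y : ℝ, y = 1 / (16 * (D : ℝ) * M ^ 2) := ⟨_, rfl⟩
  rw [← hy] at hbdd
  have hy0 : 0 < y := by rw [hy]; positivity
  have hyM : y ≤ 1 / (2 * M) := by
    rw [hy]
    apply one_div_le_one_div_of_le (by positivity)
    nlinarith
  obtain ⟨t, ht⟩ : ∃ t : ℕ, t = 2 * lam := ⟨_, rfl⟩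
  have htR : (t : ℝ) = 2 * lam := by rw [ht]; push_cast; ring
  obtain ⟨A, hA⟩ : ∃ A : ℝ, A = B ^ (2 * t) * Real.exp (2 * Real.pi * y * (lam * t)) := ⟨_, rfl⟩
  have hA1 : 1 ≤ A := by
    rw [hA]
    exact one_le_mul_of_one_le_of_one_le (one_le_pow₀ hB1) (Real.one_le_exp (by positivity))
  have hS' := hS lam A hlam hA1
  rw [← htR, ← ht] at hS'
  rw [← ht]
  obtain ⟨Hx, hHx⟩ : ∃ Hx : ℝ, Hx = c1 * ((t : ℝ) + 1) ^ 2 * A := ⟨_, rfl⟩
  have hHx0 : 0 ≤ Hx := by rw [hHx]; positivity
  rw [← hHx] at hS'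
  obtain ⟨xi, hxi0, hxim, hxih⟩ := hS'
    (fun n l => PowerSeries.coeff (n : ℕ) (Mo t u l)) (by
      intro n l
      have hnn : 0 ≤ A := by linarith
      rw [house, pi_norm_le_iff_of_nonneg hnn]
      intro s
      have h1 := coq (fun i m => s (u i m : L)) (fun i => hcu s i) y B hy0 hB1
        (fun i z hz => hbdd s i z hz) t l n
      have h2 := map_Mo (s.comp (algebraMap (𝓞 L) L)) t u l n
      have h3 : (canonicalEmbedding L) ((PowerSeries.coeff (n : ℕ) (Mo t u l) : 𝓞 L) : L) s =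
          PowerSeries.coeff (n : ℕ) (Mo t (fun i m => s (u i m : L)) l) := h2
      rw [h3]
      refine h1.trans ?_
      rw [hA]
      apply mul_le_mul_of_nonneg_left _ (by positivity)
      apply Real.exp_le_exp.2
      have h4 : ((n : ℕ) : ℝ) ≤ lam * t := by exact_mod_cast n.2.le
      exact mul_le_mul_of_nonneg_left h4 (by positivity))
  have hP1 := hP.1 (𝓞 L) t xi
  refine ⟨xi, hxi0, ?_⟩
  -- the first coefficients vanish
  have hfirst : ∀ j < lam * t, PowerSeries.coeff j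
      (MvPolynomial.aeval (fun i => PowerSeries.mk (u i)) (PP t xi)) = 0 := by
    intro j hj
    rw [hP1.2.2.2 u, map_sum]
    have h1 := congrFun hxim ⟨j, hj⟩
    simp only [Matrix.mulVec, dotProduct, Pi.zero_apply] at h1
    rw [← h1]
    refine Finset.sum_congr rfl fun l _ => ?_
    rw [PowerSeries.coeff_C_mul, mul_comm]
  -- bound of the values for every embedding
  have hxb : ∀ (s : L →+* ℂ) l, ‖(s.comp (algebraMap (𝓞 L) L)) (xi l)‖ ≤ Hx := fun s l =>
    (norm_embedding_le_house ((xi l : 𝓞 L) : L) s).trans (hxih l)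
  obtain ⟨R, hR⟩ : ∃ R : ℝ, R = ((t : ℝ) + 1) ^ 2 * Hx * B ^ (2 * t) := ⟨_, rfl⟩
  have hR0 : 0 ≤ R := by rw [hR]; positivity
  have hbd : ∀ (s : L →+* ℂ) (x : Fin 3 → ℂ), (∀ i, ‖x i‖ ≤ B) →
      ‖MvPolynomial.eval x (MvPolynomial.map (s.comp (algebraMap (𝓞 L) L)) (PP t xi))‖ ≤ R := by
    intro s x hx
    rw [hP1.2.2.1 (s.comp (algebraMap (𝓞 L) L)), hR]
    exact hP.2.2 t (fun l => (s.comp (algebraMap (𝓞 L) L)) (xi l)) x Hx B
      hHx0 hB1 (hxb s) hx
  -- the house of a coefficient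
  have hhouse : ∀ n, house ((PowerSeries.coeff n
      (MvPolynomial.aeval (fun i => PowerSeries.mk (u i)) (PP t xi)) : 𝓞 L) : L) ≤
      R * Real.exp (2 * Real.pi * y * n) := by
    intro n
    rw [house, pi_norm_le_iff_of_nonneg (by positivity)]
    intro s
    have q1 := hB (fun i m => s (u i m : L)) (fun i => hcu s i)
      (MvPolynomial.map (s.comp (algebraMap (𝓞 L) L)) (PP t xi))
    have q2 := hMp (𝓞 L) (s.comp (algebraMap (𝓞 L) L)) u (PP t xi) n
    have q3 : (canonicalEmbedding L) ((PowerSeries.coeff n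
        (MvPolynomial.aeval (fun i => PowerSeries.mk (u i)) (PP t xi)) : 𝓞 L) : L) s =
        PowerSeries.coeff n (MvPolynomial.aeval (fun i => PowerSeries.mk (fun m => s (u i m : L)))
          (MvPolynomial.map (s.comp (algebraMap (𝓞 L) L)) (PP t xi))) := q2
    rw [q3]
    refine hCa _ q1.1 y _ hy0 ?_ n
    intro x _
    have him : ((x : ℂ) + (y : ℂ) * Complex.I).im = y := by simp
    rw [q1.2 _ (by rw [him]; exact hy0)]
    exact hbd s _ fun i => hbdd s i _ (by rw [him])
  -- all coefficients vanish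
  have hall : ∀ n, PowerSeries.coeff n
      (MvPolynomial.aeval (fun i => PowerSeries.mk (u i)) (PP t xi)) = 0 := by
    by_contra hcon
    push Not at hcon
    set n := Nat.find hcon with hn
    have hn0 := Nat.find_spec hcon
    rw [← hn] at hn0
    have hmin : ∀ j < n, PowerSeries.coeff j
        (MvPolynomial.aeval (fun i => PowerSeries.mk (u i)) (PP t xi)) = 0 := by
      intro j hj
      by_contra h
      exact Nat.find_min hcon hj h
    have hnl : lam * t ≤ n := by
      by_contra h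
      exact hn0 (hfirst n (not_le.1 h))
    set f : 𝓞 L →+* ℂ := s0.comp (algebraMap (𝓞 L) L) with hf
    have hmapP : MvPolynomial.map f (PP t xi) = PP t (fun l => f (xi l)) := hP1.2.2.1 f
    set h : ℕ → ℂ := fun m => PowerSeries.coeff m (MvPolynomial.aeval
      (fun i => PowerSeries.mk (fun m => f (u i m))) (MvPolynomial.map f (PP t xi))) with hh
    set hs' : ℕ → ℂ := fun m => PowerSeries.coeff m (MvPolynomial.aeval
      (fun i => PowerSeries.mk (v i)) (MvPolynomial.map f (PP t xi))) with hhs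
    have hhc : ∀ m, f (PowerSeries.coeff m
        (MvPolynomial.aeval (fun i => PowerSeries.mk (u i)) (PP t xi))) = h m :=
      fun m => hMp (𝓞 L) f u (PP t xi) m
    have q1 := hB (fun i m => f (u i m)) (fun i => hcu s0 i) (MvPolynomial.map f (PP t xi))
    have q2 := hB v hcv (MvPolynomial.map f (PP t xi))
    have hpr : Pr M (w * (2 * t)) h hs' := by
      refine ⟨q1.1, q2.1, fun z hz => ?_⟩
      rw [hh, hhs, q1.2 _ (im_pos hM0 hz), q2.2 z hz, hmapP]
      have h1 : (fun i => Fn (fun m => f (u i m)) (-1 / ((M : ℂ) * z))) =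
          fun i => ((Real.sqrt M : ℂ) * z) ^ w * Fn (v i) z := by
        funext i
        exact hfe i z hz
      rw [h1, hP.2.1, ← pow_mul]
    have key := refq M hM (w * (2 * t)) h hs' hpr y R hy0 hyM hR0
      (by
        intro z hz
        rw [hh, q1.2 z (hy0.trans_le hz)]
        exact hbd s0 _ fun i => hbdd s0 i z hz)
      n
      (by
        intro j hj
        rw [← hhc j, hmin j hj, map_zero])
    -- the norm
    set al : 𝓞 L := PowerSeries.coeff n
        (MvPolynomial.aeval (fun i => PowerSeries.mk (u i)) (PP t xi)) with hal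
    have hnorm : 1 ≤ ‖Algebra.norm ℚ (al : L)‖ := by
      have h0 : Algebra.norm ℤ al ≠ 0 := Algebra.norm_ne_zero_iff.2 hn0
      have h1 : ((Algebra.norm ℤ al : ℤ) : ℚ) = Algebra.norm ℚ (al : L) := Algebra.coe_norm_int al
      rw [← h1]
      have h2 : (1 : ℤ) ≤ |Algebra.norm ℤ al| := Int.one_le_abs h0
      have h3 : ‖((Algebra.norm ℤ al : ℤ) : ℚ)‖ = ((|Algebra.norm ℤ al| : ℤ) : ℝ) := by
        rw [← Rat.norm_cast_real, Real.norm_eq_abs]
        push_cast
        rfl
      rw [h3]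
      exact_mod_cast h2
    have h2 := norm_norm_le_norm_mul_house_pow (al : L) s0
    rw [← hDdef] at h2
    have h3 : ‖s0 (al : L)‖ ≤ R * (2 * Real.sqrt M) ^ (w * (2 * t)) *
        Real.exp (2 * Real.pi * y * n - Real.pi * n / (2 * M ^ 2)) := by
      have : s0 (al : L) = h n := hhc n
      rw [this]
      exact key
    have h4 : house (al : L) ^ (D - 1) ≤ (R * Real.exp (2 * Real.pi * y * n)) ^ (D - 1) :=
      pow_le_pow_left₀ (house_nonneg _) (hhouse n) _
    have h5 := fin_ineq c1 B M y R A w lam t n D hc1 hB1 hM hlam ht hD1 hy hA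
      (by rw [hR, hHx]) hcond hnl
    have h6 : ‖s0 (al : L)‖ * house (al : L) ^ (D - 1) ≤ R * (2 * Real.sqrt M) ^ (w * (2 * t)) *
        Real.exp (2 * Real.pi * y * n - Real.pi * n / (2 * M ^ 2)) *
        (R * Real.exp (2 * Real.pi * y * n)) ^ (D - 1) :=
      mul_le_mul h3 h4 (pow_nonneg (house_nonneg _) _) (by positivity)
    linarith
  -- conclusion
  intro z hz
  set f : 𝓞 L →+* ℂ := s0.comp (algebraMap (𝓞 L) L) with hf
  have q1 := hB (fun i m => f (u i m)) (fun i => hcu s0 i) (MvPolynomial.map f (PP t xi))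
  have q2 := q1.2 z hz
  have q3 : (fun n => PowerSeries.coeff n (MvPolynomial.aeval
      (fun i => PowerSeries.mk (fun m => f (u i m))) (MvPolynomial.map f (PP t xi)))) =
      fun _ => (0 : ℂ) := by
    funext n
    rw [← hMp (𝓞 L) f u (PP t xi) n, hall n, map_zero]
  rw [q3, Fn_zero] at q2
  exact q2.symm

end

end Pool.Agent.H99.NR
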