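import Pool.Agent.H99.NR.Rel
import Pool.Agent.H99.NR.Lam
import Pool.Agent.H99.NR.Bdd
import Pool.Agent.H99.NR.Dil
import Pool.Agent.H97.ICA.Pol

/-!
[H99 NR Run] Module of THEOREM NR (MP_8e9775_nt, think 1126 of helper99).

PROOF. c1 from rel L, C1 from bdd C q, m1 from lam_exists D k q N c1 C1 ε. For m >= m1 take M = 2mN,
B = C1 (16 D M^2)^(q+1), w = k, u = ![A, dl m A, dl (2m) A],
v = ![(sqrt (2m))^k b_(2m), (2/sqrt (2m))^k b_2, (1/sqrt (2m))^k b] with b_d = dl d b (constants times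
sequences: fun n => const * dl d b n; Fn of a constant times a sequence: tsum_mul_left). dl_map, dil:
Fn (s u_i) z = Fn (s A) (d z), d = 1, m, 2m, im (d z) >= im z >= y = 1/(16 D M^2): bdd gives the bound B.
Functional equations: f(-1/(Mz)) = f(-1/(N (2mz))) = (sqrt N 2m z)^k b(2mz), sqrt M = sqrt N sqrt (2m);
f(-m/(Mz)) = f(-1/(N (2z))) = (sqrt N 2 z)^k b(2z); f(-2m/(Mz)) = f(-1/(Nz)) = (sqrt N z)^k b(z).
p l = s0 (xi l), not 0 because s0 composed with algebraMap is injective; pol.1 (map of PP). 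
-/

namespace Pool.Agent.H99.NR

open Complex NumberField Pool.Agent.H97.ICA

noncomputable section

private theorem im_refl {M : ℝ} (hM : 0 < M) {z : ℂ} (hz : 0 < z.im) :
    0 < (-1 / ((M : ℂ) * z)).im := by
  have h1 : ((M : ℂ) * z).im = M * z.im := by
    rw [Complex.mul_im, Complex.ofReal_re, Complex.ofReal_im, zero_mul, add_zero]
  have h2 : (M : ℂ) * z ≠ 0 := by
    intro h0
    rw [h0, Complex.zero_im] at h1
    have := mul_pos hM hz
    linarith
  rw [Complex.div_im, h1]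
  simp only [Complex.neg_im, Complex.one_im, neg_zero, zero_mul, zero_div, Complex.neg_re,
    Complex.one_re, zero_sub]
  have h3 : 0 < Complex.normSq ((M : ℂ) * z) := Complex.normSq_pos.2 h2
  have h4 : 0 < M * z.im / Complex.normSq ((M : ℂ) * z) := div_pos (mul_pos hM hz) h3
  have h5 : -(-1 * (M * z.im) / Complex.normSq ((M : ℂ) * z)) =
      M * z.im / Complex.normSq ((M : ℂ) * z) := by ring
  rw [h5]
  exact h4

private theorem im_nat {d : ℕ} {z : ℂ} : ((d : ℂ) * z).im = d * z.im := by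
  rw [Complex.mul_im, Complex.natCast_re, Complex.natCast_im, zero_mul, add_zero]

private theorem cv_const (c : ℂ) {a : ℕ → ℂ} (ha : Cv a) : Cv (fun n => c * a n) := by
  intro r hr hr1
  refine ((ha r hr hr1).mul_left ‖c‖).congr fun n => ?_
  rw [norm_mul, mul_assoc]

private theorem fn_const (c : ℂ) (a : ℕ → ℂ) (z : ℂ) :
    Fn (fun n => c * a n) z = c * Fn a z := by
  unfold Fn
  rw [← tsum_mul_left]
  refine tsum_congr fun n => ?_
  ring

private theorem dl_coe {L : Type} [Field L] [NumberField L] (s : L →+* ℂ) (d : ℕ) (A : ℕ → 𝓞 L) :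
    (fun n => s ((dl d A n : 𝓞 L) : L)) = dl d (fun n => s (A n : L)) :=
  dl_map (fun x : 𝓞 L => s (x : L)) (by simp) d A

theorem run : RunStmt := by
  intro L _ _ k N C q A s0 b hN hGr hb hfe ε hε
  obtain ⟨c1, hc1, hrel⟩ := rel L
  obtain ⟨C1, hC1, hbdd⟩ := bdd C q
  obtain ⟨D, hD⟩ : ∃ D : ℕ, D = Module.finrank ℚ L := ⟨_, rfl⟩
  have hD1 : 1 ≤ D := by
    rw [hD]
    exact Module.finrank_pos
  obtain ⟨m1, hm1, hlam⟩ := lam_exists D k q N c1 C1 ε hD1 hN hc1 hC1 hε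
  refine ⟨m1, hm1, fun m hm => ?_⟩
  have hm0 : 1 ≤ m := hm1.trans hm
  obtain ⟨h4, lam, hlam1, hlam2, hineq⟩ := hlam m hm
  refine ⟨lam, hlam1, hlam2, ?_⟩
  obtain ⟨M, hMdef⟩ : ∃ M : ℝ, M = 2 * m * N := ⟨_, rfl⟩
  rw [← hMdef] at h4 hineq
  have hM0 : 0 < M := by linarith
  have hmR : (1 : ℝ) ≤ m := by exact_mod_cast hm0
  have hDR : (1 : ℝ) ≤ D := by exact_mod_cast hD1
  have hDM : 1 ≤ 16 * (D : ℝ) * M ^ 2 := by
    have h1 : (16 : ℝ) ≤ M ^ 2 := by nlinarith
    nlinarith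
  obtain ⟨B, hB⟩ : ∃ B : ℝ, B = C1 * (16 * D * M ^ 2) ^ (q + 1) := ⟨_, rfl⟩
  rw [← hB] at hineq
  have hB1 : 1 ≤ B := by
    rw [hB]
    have h1 : (1 : ℝ) ≤ (16 * D * M ^ 2) ^ (q + 1) := one_le_pow₀ hDM
    nlinarith
  obtain ⟨y, hy⟩ : ∃ y : ℝ, y = 1 / (16 * D * M ^ 2) := ⟨_, rfl⟩
  have hy0 : 0 < y := by
    rw [hy]
    positivity
  have hy1 : y ≤ 1 := by
    rw [hy, div_le_one (by linarith)]
    exact hDM
  have hyinv : 1 / y = 16 * D * M ^ 2 := by
    rw [hy, one_div_one_div]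
  -- growth
  have hG : ∀ s : L →+* ℂ, Cv (fun n => s (A n : L)) ∧
      ∀ z : ℂ, y ≤ z.im → ‖Fn (fun n => s (A n : L)) z‖ ≤ B := by
    intro s
    obtain ⟨h1, h2⟩ := hbdd _ (hGr s)
    refine ⟨h1, fun z hz => ?_⟩
    have h3 := h2 y hy0 hy1 z hz
    rw [hyinv, ← hB] at h3
    exact h3
  have hdl : ∀ (s : L →+* ℂ) (d : ℕ), 1 ≤ d → Cv (fun n => s ((dl d A n : 𝓞 L) : L)) ∧
      (∀ z : ℂ, 0 < z.im → Fn (fun n => s ((dl d A n : 𝓞 L) : L)) z =
        Fn (fun n => s (A n : L)) (d * z)) ∧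
      ∀ z : ℂ, y ≤ z.im → ‖Fn (fun n => s ((dl d A n : 𝓞 L) : L)) z‖ ≤ B := by
    intro s d hd
    rw [dl_coe]
    obtain ⟨h1, h2⟩ := dil _ d hd (hG s).1
    refine ⟨h1, h2, fun z hz => ?_⟩
    rw [h2 z (hy0.trans_le hz)]
    apply (hG s).2
    rw [im_nat]
    have h3 : (1 : ℝ) ≤ d := by exact_mod_cast hd
    nlinarith
  have hsm : (0 : ℝ) < Real.sqrt (2 * m) := Real.sqrt_pos.2 (by linarith)
  have hsq : Real.sqrt (2 * m) * Real.sqrt (2 * m) = 2 * m :=
    Real.mul_self_sqrt (by linarith)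
  have hsM : Real.sqrt M = Real.sqrt (2 * m) * Real.sqrt N := by
    rw [hMdef, Real.sqrt_mul (by linarith)]
  have hsmC : ((Real.sqrt (2 * m) : ℝ) : ℂ) ≠ 0 := by exact_mod_cast hsm.ne'
  have hsqC : ((Real.sqrt (2 * m) : ℝ) : ℂ) * ((Real.sqrt (2 * m) : ℝ) : ℂ) = 2 * m := by
    exact_mod_cast hsq
  have hsMC : ((Real.sqrt M : ℝ) : ℂ) =
      ((Real.sqrt (2 * m) : ℝ) : ℂ) * ((Real.sqrt N : ℝ) : ℂ) := by
    exact_mod_cast hsM
  have hMC : (M : ℂ) = 2 * m * N := by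
    rw [hMdef]
    push_cast
    ring
  have hmC : (m : ℂ) ≠ 0 := by
    have : (m : ℕ) ≠ 0 := by omega
    exact_mod_cast this
  have hNC : (N : ℂ) ≠ 0 := by exact_mod_cast hN.ne'
  obtain ⟨u, hu⟩ : ∃ u : Fin 3 → ℕ → 𝓞 L, u = ![A, dl m A, dl (2 * m) A] := ⟨_, rfl⟩
  obtain ⟨v, hv⟩ : ∃ v : Fin 3 → ℕ → ℂ,
    v = ![fun n => ((Real.sqrt (2 * m) : ℝ) : ℂ) ^ k * dl (2 * m) b n,
      fun n => (2 / ((Real.sqrt (2 * m) : ℝ) : ℂ)) ^ k * dl 2 b n,
      fun n => (1 / ((Real.sqrt (2 * m) : ℝ) : ℂ)) ^ k * b n] := ⟨_, rfl⟩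
  have h2m : 1 ≤ 2 * m := by omega
  obtain ⟨xi, hxi0, hxi⟩ := hrel M B k lam s0 u v h4 hB1 hlam1 (by
      intro s i
      rw [hu]
      fin_cases i
      · exact (hG s).1
      · exact (hdl s m hm0).1
      · exact (hdl s (2 * m) h2m).1) (by
      intro i
      rw [hv]
      fin_cases i
      · exact cv_const _ (dil b (2 * m) h2m hb).1
      · exact cv_const _ (dil b 2 (by norm_num) hb).1
      · exact cv_const _ hb) (by
      intro s i z hz
      rw [← hD, ← hy] at hz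
      rw [hu]
      fin_cases i
      · exact (hG s).2 z hz
      · exact (hdl s m hm0).2.2 z hz
      · exact (hdl s (2 * m) h2m).2.2 z hz) (by
      intro i z hz
      have hz0 : z ≠ 0 := by
        rintro rfl
        simp at hz
      have hr := im_refl hM0 hz
      rw [hu, hv]
      fin_cases i
      · show Fn (fun n => s0 (A n : L)) (-1 / ((M : ℂ) * z)) = ((Real.sqrt M : ℂ) * z) ^ k *
          Fn (fun n => ((Real.sqrt (2 * m) : ℝ) : ℂ) ^ k * dl (2 * m) b n) z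
        have h5 := hfe (((2 * m : ℕ) : ℂ) * z) (by
          rw [im_nat]
          have : (0 : ℝ) < ((2 * m : ℕ) : ℝ) := by exact_mod_cast h2m
          positivity)
        have h6 : (-1 : ℂ) / ((M : ℂ) * z) = -1 / ((N : ℂ) * (((2 * m : ℕ) : ℂ) * z)) := by
          rw [hMC]
          push_cast
          congr 1
          ring
        have h7 : (((Real.sqrt N : ℝ) : ℂ) * (((2 * m : ℕ) : ℂ) * z)) ^ k =
            (((Real.sqrt M : ℝ) : ℂ) * z) ^ k * ((Real.sqrt (2 * m) : ℝ) : ℂ) ^ k := by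
          rw [← mul_pow]
          congr 1
          rw [hsMC]
          push_cast
          linear_combination (-(((Real.sqrt N : ℝ) : ℂ) * z)) * hsqC
        rw [fn_const, (dil b (2 * m) h2m hb).2 z hz, h6, h5, h7, mul_assoc]
      · show Fn (fun n => s0 ((dl m A n : 𝓞 L) : L)) (-1 / ((M : ℂ) * z)) =
          ((Real.sqrt M : ℂ) * z) ^ k *
          Fn (fun n => (2 / ((Real.sqrt (2 * m) : ℝ) : ℂ)) ^ k * dl 2 b n) z
        have h5 := hfe (((2 : ℕ) : ℂ) * z) (by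
          rw [im_nat]
          have : (0 : ℝ) < ((2 : ℕ) : ℝ) := by norm_num
          positivity)
        have h6 : (m : ℂ) * (-1 / ((M : ℂ) * z)) = -1 / ((N : ℂ) * (((2 : ℕ) : ℂ) * z)) := by
          rw [hMC]
          push_cast
          field_simp
        have h7 : (((Real.sqrt N : ℝ) : ℂ) * (((2 : ℕ) : ℂ) * z)) ^ k =
            (((Real.sqrt M : ℝ) : ℂ) * z) ^ k * (2 / ((Real.sqrt (2 * m) : ℝ) : ℂ)) ^ k := by
          rw [← mul_pow]
          congr 1
          rw [hsMC]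
          push_cast
          field_simp
        rw [(hdl s0 m hm0).2.1 _ hr, fn_const, (dil b 2 (by norm_num) hb).2 z hz, h6, h5, h7,
          mul_assoc]
      · show Fn (fun n => s0 ((dl (2 * m) A n : 𝓞 L) : L)) (-1 / ((M : ℂ) * z)) =
          ((Real.sqrt M : ℂ) * z) ^ k *
          Fn (fun n => (1 / ((Real.sqrt (2 * m) : ℝ) : ℂ)) ^ k * b n) z
        have h5 := hfe z hz
        have h6 : ((2 * m : ℕ) : ℂ) * (-1 / ((M : ℂ) * z)) = -1 / ((N : ℂ) * z) := by
          rw [hMC]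
          push_cast
          field_simp
        have h7 : (((Real.sqrt N : ℝ) : ℂ) * z) ^ k =
            (((Real.sqrt M : ℝ) : ℂ) * z) ^ k * (1 / ((Real.sqrt (2 * m) : ℝ) : ℂ)) ^ k := by
          rw [← mul_pow]
          congr 1
          rw [hsMC]
          field_simp
        rw [(hdl s0 (2 * m) h2m).2.1 _ hr, fn_const, h6, h5, h7, mul_assoc]) (by
      rw [← hD]
      exact hineq)
  refine ⟨fun l => s0 (xi l : L), ?_, ?_⟩
  · intro h0
    apply hxi0
    funext l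
    have h1 := congrFun h0 l
    have h2 : ((xi l : 𝓞 L) : L) = 0 := by
      apply s0.injective
      rw [map_zero]
      exact h1
    exact RingOfIntegers.coe_eq_zero_iff.1 h2
  · intro z hz
    have h1 := hxi z hz
    rw [(pol.1 (𝓞 L) (2 * lam) xi).2.2.1] at h1
    have h2 : (fun i => Fn (fun n => s0 (u i n : L)) z) =
        ![Fn (fun n => s0 (A n : L)) z, Fn (fun n => s0 (A n : L)) (m * z),
          Fn (fun n => s0 (A n : L)) (2 * m * z)] := by
      funext i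
      rw [hu]
      fin_cases i
      · rfl
      · exact (hdl s0 m hm0).2.1 z hz
      · have h3 := (hdl s0 (2 * m) h2m).2.1 z hz
        push_cast at h3
        exact h3
    rw [h2] at h1
    exact h1

end

end Pool.Agent.H99.NR
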