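import Pool.Agent.H99.NR.Defs
import Pool.Agent.H99.NR.Shb

/-!
[H99 NR Sha] Module of THEOREM NR (MP_8e9775_nt, think 1126 of helper99).

PROOF. z = xi - 1/(y0 u) is in the half plane for u in the half plane (im (-1/(y0 u)) = im u/(y0 normSq u)).
Period: Inv k f xi y0 at w = -1/(y0 (u+1)): w/(y0 w + 1) = -1/(y0 u), y0 w + 1 = u/(u+1):
f(xi - 1/(y0 u)) = (u/(u+1))^k f(xi - 1/(y0 (u+1))). IM: determinant by field_simp/ring. With
δ = rho - xi, w = -1/(y0 u) - δ (so rho + w = xi - 1/(y0 u)): Inv k f rho x at w: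
f(rho + w/(x w + 1)) = (x w + 1)^k f(xi - 1/(y0 u)), x w + 1 = ((1 - δ x) u - x/y0)/u, and
rho + w/(xw+1) = xi - 1/(y0 u') with u' = ((1 - δx) u - x/y0)/(y0 δ^2 x u + 1 + δ x):
G u' = u'^(-k) ((1 - δ x) u - x/y0)^k u^(-k) f(..) = (y0 δ^2 x u + 1 + δ x)^k G u.
-/

namespace Pool.Agent.H99.NR

open Complex NumberField Pool.Agent.H97.ICA

noncomputable section

theorem sha_im {y0 : ℝ} (hy : 0 < y0) {u : ℂ} (hu : 0 < u.im) :
    0 < (-1 / ((y0 : ℂ) * u)).im := by
  have hn : 0 < Complex.normSq u := Complex.normSq_pos.mpr (by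
    rintro rfl
    simp at hu)
  have e : (-1 / ((y0 : ℂ) * u)).im = u.im / (y0 * Complex.normSq u) := by
    rw [Complex.div_im, Complex.normSq_mul, Complex.normSq_ofReal]
    simp
    field_simp
  rw [e]
  positivity

theorem sha : ShaStmt := by
  intro k f xi y0 rho x hf hy h1 h2 G hG
  have hyc : (y0 : ℂ) ≠ 0 := by exact_mod_cast hy.ne'
  have hne : ∀ u : ℂ, 0 < u.im → u ≠ 0 := by
    rintro u hu rfl
    simp at hu
  have hG' : ∀ u : ℂ, G u = (u ^ k)⁻¹ * f (xi + -1 / (y0 * u)) := by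
    intro u
    rw [hG u]
    congr 2
    ring
  refine ⟨?_, ?_, ?_⟩
  · have hm : Set.MapsTo (fun u : ℂ => (xi : ℂ) + -1 / (y0 * u)) {z : ℂ | 0 < z.im}
        {z : ℂ | 0 < z.im} := by
      intro u hu
      have := sha_im hy (u := u) hu
      simpa using this
    have hd : DifferentiableOn ℂ (fun u : ℂ => (xi : ℂ) + -1 / (y0 * u)) {z : ℂ | 0 < z.im} := by
      intro u hu
      have h0 := hne u hu
      refine DifferentiableAt.differentiableWithinAt ?_
      refine DifferentiableAt.const_add _ ?_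
      refine DifferentiableAt.div (by fun_prop) (by fun_prop) (mul_ne_zero hyc h0)
    have hpk : DifferentiableOn ℂ (fun u : ℂ => (u ^ k)⁻¹) {z : ℂ | 0 < z.im} := by
      intro u hu
      have h0 := hne u hu
      refine DifferentiableAt.differentiableWithinAt ?_
      exact DifferentiableAt.inv (by fun_prop) (pow_ne_zero _ h0)
    refine DifferentiableOn.congr (hpk.mul (hf.comp hd hm)) ?_
    intro u _
    exact hG' u
  · intro u hu
    have hu1 : 0 < (u + 1).im := by simpa using hu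
    have h0 := hne u hu
    have h01 := hne (u + 1) hu1
    have hw := sha_im hy hu1
    have h3 := h1 (-1 / ((y0 : ℂ) * (u + 1))) hw
    have e1 : (y0 : ℂ) * (-1 / ((y0 : ℂ) * (u + 1))) + 1 = u / (u + 1) := by
      field_simp
      ring
    have e2 : (-1 / ((y0 : ℂ) * (u + 1))) / (u / (u + 1)) = -1 / ((y0 : ℂ) * u) := by
      field_simp
    rw [e1, e2] at h3
    rw [hG' (u + 1), hG' u, h3, div_pow]
    have hk0 := pow_ne_zero k h0
    have hk1 := pow_ne_zero k h01
    field_simp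
  · refine ⟨?_, ?_⟩
    · field_simp
      ring
    intro u hu
    have h0 := hne u hu
    set δ : ℝ := rho - xi with hδ
    have hdet : (1 - δ * x) * (1 + δ * x) - (-(x / y0)) * (y0 * δ ^ 2 * x) = 1 := by
      field_simp
      ring
    have hdn : ((y0 * δ ^ 2 * x : ℝ) : ℂ) * u + ((1 + δ * x : ℝ) : ℂ) ≠ 0 :=
      shb_den hdet hu
    have hnn : ((1 - δ * x : ℝ) : ℂ) * u + ((-(x / y0) : ℝ) : ℂ) ≠ 0 :=
      shb_den (a := -(y0 * δ ^ 2 * x)) (b := -(1 + δ * x)) (by linarith) hu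
    set n : ℂ := ((1 - δ * x : ℝ) : ℂ) * u + ((-(x / y0) : ℝ) : ℂ) with hnd
    set dd : ℂ := ((y0 * δ ^ 2 * x : ℝ) : ℂ) * u + ((1 + δ * x : ℝ) : ℂ) with hdd
    have hw : 0 < (-1 / ((y0 : ℂ) * u) - (δ : ℂ)).im := by
      have := sha_im hy hu
      simpa using this
    have h3 := h2 (-1 / ((y0 : ℂ) * u) - (δ : ℂ)) hw
    have e1 : (x : ℂ) * (-1 / ((y0 : ℂ) * u) - (δ : ℂ)) + 1 = n / u := by
      rw [hnd]
      push_cast
      field_simp
      ring
    have hδc : (δ : ℂ) = rho - xi := by rw [hδ]; push_cast; ring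
    have e2 : (rho : ℂ) + (-1 / ((y0 : ℂ) * u) - (δ : ℂ)) = xi + -1 / (y0 * u) := by
      rw [hδc]; ring
    have e3 : (rho : ℂ) + (-1 / ((y0 : ℂ) * u) - (δ : ℂ)) / (n / u) =
        xi + -1 / (y0 * (n / dd)) := by
      have e4 : (rho : ℂ) = xi + δ := by rw [hδc]; ring
      rw [e4, add_assoc]
      congr 1
      have e5 : (-1 / ((y0 : ℂ) * u) - (δ : ℂ)) / (n / u) = (-1 / y0 - δ * u) / n := by
        field_simp
      have e6 : -1 / ((y0 : ℂ) * (n / dd)) = (-(dd / y0)) / n := by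
        field_simp
      rw [e5, e6, eq_div_iff hnn, add_mul, div_mul_cancel₀ _ hnn]
      rw [hnd, hdd]
      push_cast
      field_simp
      ring
    rw [e1, e2, e3] at h3
    rw [hG' (n / dd), hG' u, h3, div_pow, div_pow]
    have hk0 := pow_ne_zero k h0
    have hk1 := pow_ne_zero k hnn
    have hk2 := pow_ne_zero k hdn
    field_simp

end

end Pool.Agent.H99.NR
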